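import Mathlib

set_option autoImplicit false

/-!
MP_c971ef_nt, block TP: thinned primes. Definitions. FIXED, do not change.

`p_m = Nat.nth Nat.Prime (m - 1)` is the `m`-th prime.
-/

namespace PoolTP

open Finset

/-- `p_m ^ 2 - 2` has at most `R` prime factors, all at least `y`. -/
def Gd (R : ℕ) (y : ℝ) (m : ℕ) : Prop :=
  ArithmeticFunction.cardFactors (Nat.nth Nat.Prime (m - 1) ^ 2 - 2) ≤ R ∧
  ∀ r : ℕ, r.Prime → r ∣ Nat.nth Nat.Prime (m - 1) ^ 2 - 2 → y ≤ r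

/-- Every block `(X, 4 X]` contains many `m` such that `m, m + 1, ..., m + L - 1` are good. -/
def BlkSet (L R κ : ℕ) (δ c : ℝ) : Prop := ∃ X₀ : ℕ, ∀ X : ℕ, X₀ ≤ X → ∃ M : Finset ℕ,
  M ⊆ Ioc X (4 * X) ∧ (∀ m ∈ M, ∀ j, j < L → Gd R ((X : ℝ) ^ δ) (m + j)) ∧
  c * (X / (Real.log X) ^ κ) ≤ (#M : ℝ)

/-- All `n` of `(2 ^ (i+1), 2 ^ (i+2)]` have a multiple `k n` with `K i k` in the block
`(4 ^ i, 4 ^ (i+1)]` such that `q_{kn}, ..., q_{kn+L-1}` are good for `q_m = p_{m + f m}`. -/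
def Blk (L R : ℕ) (δ : ℝ) (K : ℕ → ℕ → Prop) (i : ℕ) (f : ℕ → ℕ) : Prop :=
  ∀ n ∈ Ioc (2 ^ (i + 1)) (2 ^ (i + 2)), ∃ k : ℕ, K i k ∧ 4 ^ i < k * n ∧
    k * n + L ≤ 4 ^ (i + 1) ∧
    ∀ j, j < L → Gd R (((4 ^ i : ℕ) : ℝ) ^ δ) (k * n + j + f (k * n + j))

end PoolTP
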