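import Mathlib

set_option autoImplicit false

/-!
# Module PiD (size S): `π(2 n) ≤ 3 π(n) + 4`

`Nat.count Nat.Prime (n + 1) = π(n)` (`Nat.primeCounting`). The product of the primes `n < p ≤ 2 n` divides the
binomial coefficient `Nat.centralBinom n = choose (2 n) n ≤ 4 ^ n` (each such `p` divides it; compare `primorial_le_4_pow` and
`Nat.four_pow_lt...`), and it is at least `n ^ (π(2n) - π(n))`. So `(π(2n) - π(n)) log n ≤ n log 4 = 2 n log 2`.
`Chebyshev.psi_ge`: `n log 2 - log (n + 1) ≤ ψ n`, `Chebyshev.psi_le_primeCounting_mul_log`: `ψ n ≤ π(n) log n`. So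
`(π(2n) - π(n)) log n ≤ 2 π(n) log n + 2 log (n + 1) ≤ (2 π(n) + 4) log n` (`n + 1 ≤ n ^ 2` for `n ≥ 2`).
-/

namespace PoolTP

theorem count_double (n : ℕ) (hn : 2 ≤ n) :
    Nat.count Nat.Prime (2 * n + 1) ≤ 3 * Nat.count Nat.Prime (n + 1) + 4 := by
  classical
  set A := (Finset.Ico (n + 1) (2 * n + 1)).filter Nat.Prime with hA
  have h1 : Nat.count Nat.Prime (2 * n + 1) = Nat.count Nat.Prime (n + 1) + A.card := by
    rw [Nat.count_eq_card_filter_range, Nat.count_eq_card_filter_range, hA,
      ← Finset.card_union_of_disjoint]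
    · congr 1
      ext x
      simp only [Finset.mem_filter, Finset.mem_range, Finset.mem_union, Finset.mem_Ico]
      constructor
      · rintro ⟨h, hp⟩
        rcases lt_or_ge x (n + 1) with h2 | h2
        · exact Or.inl ⟨h2, hp⟩
        · exact Or.inr ⟨⟨h2, h⟩, hp⟩
      · rintro (⟨h, hp⟩ | ⟨⟨-, h⟩, hp⟩)
        · exact ⟨by omega, hp⟩
        · exact ⟨h, hp⟩
    · rw [Finset.disjoint_left]
      intro x hx hx'
      simp only [Finset.mem_filter, Finset.mem_range, Finset.mem_Ico] at hx hx'
      omega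
  have h2 : n ^ A.card ≤ 4 ^ n := by
    calc n ^ A.card = ∏ _p ∈ A, n := by rw [Finset.prod_const]
      _ ≤ ∏ p ∈ A, p := by
        refine Finset.prod_le_prod' fun p hp => ?_
        simp only [hA, Finset.mem_filter, Finset.mem_Ico] at hp
        omega
      _ ≤ Nat.centralBinom n := by
        refine Nat.le_of_dvd (Nat.centralBinom_pos n) ?_
        refine Finset.prod_primes_dvd _ (fun p hp => ?_) fun p hp => ?_
        · simp only [hA, Finset.mem_filter] at hp
          exact hp.2.prime
        · simp only [hA, Finset.mem_filter, Finset.mem_Ico] at hp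
          obtain ⟨⟨h3, h4⟩, hp⟩ := hp
          have h5 : p ∣ (2 * n).factorial := hp.dvd_factorial.2 (by omega)
          have h6 : Nat.centralBinom n * n.factorial * n.factorial = (2 * n).factorial := by
            have := Nat.choose_mul_factorial_mul_factorial (n := 2 * n) (k := n) (by omega)
            rwa [show 2 * n - n = n by omega] at this
          have h7 : ¬ p ∣ n.factorial := fun h => by
            have := hp.dvd_factorial.1 h
            omega
          rw [← h6] at h5
          exact (hp.dvd_mul.1 ((hp.dvd_mul.1 h5).resolve_right h7)).resolve_right h7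
      _ ≤ 2 ^ (2 * n) := Nat.choose_le_two_pow (2 * n) n
      _ = 4 ^ n := by rw [pow_mul]; norm_num
  have hn1 : (1 : ℝ) < n := by exact_mod_cast hn
  have hlog : 0 < Real.log n := Real.log_pos hn1
  have h3 : (A.card : ℝ) * Real.log n ≤ 2 * (n * Real.log 2) := by
    have h4 : ((n ^ A.card : ℕ) : ℝ) ≤ ((4 ^ n : ℕ) : ℝ) := by exact_mod_cast h2
    have h5 := Real.log_le_log (by positivity) h4
    push_cast at h5
    rw [Real.log_pow, Real.log_pow, show (4 : ℝ) = 2 ^ 2 by norm_num, Real.log_pow] at h5
    push_cast at h5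
    linarith
  have h4 := Chebyshev.psi_ge n
  have h5 := Chebyshev.psi_le_primeCounting_mul_log n
  have h6 : Real.log (n + 1) ≤ 2 * Real.log n := by
    have : ((n : ℝ) + 1) ≤ n ^ 2 := by
      have : (2 : ℝ) ≤ n := by exact_mod_cast hn
      nlinarith
    calc Real.log (n + 1) ≤ Real.log ((n : ℝ) ^ 2) := Real.log_le_log (by positivity) this
      _ = 2 * Real.log n := by rw [Real.log_pow]; norm_num
  have h7 : (Nat.primeCounting n : ℝ) = (Nat.count Nat.Prime (n + 1) : ℕ) := rfl
  rw [h7] at h5
  have h8 : (A.card : ℝ) ≤ 2 * (Nat.count Nat.Prime (n + 1) : ℕ) + 4 := by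
    refine le_of_mul_le_mul_right ?_ hlog
    nlinarith
  have h9 : A.card ≤ 2 * Nat.count Nat.Prime (n + 1) + 4 := by exact_mod_cast h8
  omega

end PoolTP
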