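import Pool.Agent.Work.MP_c971ef_nt.CP.G3
import Pool.Agent.Work.MP_c971ef_nt.TP.Defs
import Pool.Agent.Work.MP_c971ef_nt.TP.PiD

set_option autoImplicit false

/-!
# Module BlkA (size M): good runs of indices in every block

Copy of the proofs of `sel` and `runs` in `CP/G4.lean` with another range. Take `CP.clusters (L + 1)` (`CP/G3.lean`): `H, κ, R, δ, c, N₀`.
Let `X` be large, `P = Nat.nth Nat.Prime X` (so `Nat.count Nat.Prime P = X`, `Nat.count Nat.Prime (P + 1) = X + 1`, `X ≤ P`) and `S` the set of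
`clusters` for `N = P`. For `n ∈ S`, `s = Nat.count Nat.Prime n` satisfies `X + 1 ≤ s` (`P + 1 ≤ n`) and
`s ≤ Nat.count Nat.Prime (2 P + 1) ≤ 3 (X + 1) + 4` (`count_double`), so `m = s + 1` is in `Ioc X (4 X)` for `X ≥ 8`, and
`Gd R ((P : ℝ) ^ δ) (m + j)` for `j < L` (`Nat.nth Nat.Prime (s + 1 + j - 1) = Nat.nth Nat.Prime (s + j)`), `(X : ℝ) ^ δ ≤ P ^ δ`.
`M = image (· + 1) (image (Nat.count Nat.Prime) S)`; `#S ≤ (H + 1) * #M` by `CP.count_index` (the condition for `j = 0`).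
`P ≤ X ^ 2` for large `X`: otherwise `π(X ^ 2) ≤ X`, but `π(X^2) log (X^2) ≥ ψ(X^2) ≥ X^2 log 2 - log (X^2 + 1)` (`Chebyshev.psi_ge`,
`Chebyshev.psi_le_primeCounting_mul_log`). So `log P ≤ 2 log X` and `c P / (log P) ^ κ ≥ c 2 ^ (-κ) X / (log X) ^ κ`. The constant is
`c / ((H + 1) * 2 ^ κ)`.
-/

namespace PoolTP

open Finset

private theorem p_le_sq (X : ℕ) (hX : 100 ≤ X) : Nat.nth Nat.Prime X ≤ X ^ 2 := by
  by_contra hcon
  push Not at hcon
  have h1 : Nat.count Nat.Prime (X ^ 2 + 1) ≤ X := by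
    calc Nat.count Nat.Prime (X ^ 2 + 1) ≤ Nat.count Nat.Prime (Nat.nth Nat.Prime X) :=
          Nat.count_monotone _ (by omega)
      _ = X := Nat.count_nth_of_infinite Nat.infinite_setOf_prime X
  have h2 : Nat.primeCounting (X ^ 2) ≤ X := h1
  have h3 := Chebyshev.psi_ge (X ^ 2)
  have h4 := Chebyshev.psi_le_primeCounting_mul_log (X ^ 2)
  have h5 : ((Nat.primeCounting (X ^ 2) : ℕ) : ℝ) ≤ X := by exact_mod_cast h2
  have hXr : (100 : ℝ) ≤ X := by exact_mod_cast hX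
  obtain ⟨s, hs⟩ : ∃ s : ℝ, s = Real.sqrt X := ⟨_, rfl⟩
  have hs2 : (X : ℝ) = s ^ 2 := by rw [hs, Real.sq_sqrt (by linarith)]
  have hs0 : 0 ≤ s := by rw [hs]; exact Real.sqrt_nonneg _
  have hs10 : 10 ≤ s := by nlinarith
  have hlX : Real.log X ≤ 2 * s := by
    rw [hs2, Real.log_pow]
    have := Real.log_le_sub_one_of_pos (by linarith : 0 < s)
    push_cast
    linarith
  have hlX0 : 0 ≤ Real.log X := Real.log_nonneg (by linarith)
  have hl2 : Real.log (((X ^ 2 : ℕ) : ℝ)) = 2 * Real.log X := by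
    push_cast
    rw [Real.log_pow]
    push_cast
    ring
  have hl3 : Real.log (((X ^ 2 : ℕ) : ℝ) + 1) ≤ 3 * Real.log X := by
    have : ((X ^ 2 : ℕ) : ℝ) + 1 ≤ (X : ℝ) ^ 3 := by
      push_cast
      nlinarith [sq_nonneg (X : ℝ)]
    have h := Real.log_le_log (by positivity) this
    rw [Real.log_pow] at h
    push_cast at h ⊢
    linarith
  rw [hl2] at h4
  have h6 : ((Nat.primeCounting (X ^ 2) : ℕ) : ℝ) * (2 * Real.log X) ≤ X * (2 * Real.log X) :=
    mul_le_mul_of_nonneg_right h5 (by linarith)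
  have hlog2 : (0.69 : ℝ) < Real.log 2 := lt_trans (by norm_num) Real.log_two_gt_d9
  have h7 : (X : ℝ) ^ 2 * 0.69 ≤ ((X ^ 2 : ℕ) : ℝ) * Real.log 2 := by
    push_cast
    exact mul_le_mul_of_nonneg_left hlog2.le (by positivity)
  have h8 : (X : ℝ) ^ 2 * 0.69 ≤ (2 * X + 3) * Real.log X := by linarith
  have h9 : (2 * X + 3) * Real.log X ≤ (2 * X + 3) * (2 * s) :=
    mul_le_mul_of_nonneg_left hlX (by linarith)
  have h10 : (X : ℝ) ^ 2 * 0.69 ≤ (2 * X + 3) * (2 * s) := h8.trans h9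
  rw [hs2] at h10
  nlinarith [pow_pos (by linarith : 0 < s) 3, pow_pos (by linarith : 0 < s) 2,
    mul_le_mul_of_nonneg_right hs10 (pow_nonneg hs0 3)]

theorem blk_set (L : ℕ) : ∃ (R κ : ℕ) (δ c : ℝ), 0 < δ ∧ 0 < c ∧ BlkSet L R κ δ c := by
  classical
  obtain ⟨H, κ, R, δ, c, hδ, hc, N₀, hN₀⟩ := Pool.Agent.Work.MP_c971ef_nt.CP.clusters (L + 1)
  refine ⟨R, κ, δ, c / ((H + 1) * 2 ^ κ), hδ, by positivity, N₀ + 100, fun X hX => ?_⟩
  obtain ⟨P, hP⟩ : ∃ P : ℕ, P = Nat.nth Nat.Prime X := ⟨_, rfl⟩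
  have hPp : P.Prime := by rw [hP]; exact Nat.nth_mem_of_infinite Nat.infinite_setOf_prime X
  have hcP : Nat.count Nat.Prime P = X := by
    rw [hP]; exact Nat.count_nth_of_infinite Nat.infinite_setOf_prime X
  have hcP1 : Nat.count Nat.Prime (P + 1) = X + 1 := by
    rw [Nat.count_succ, hcP, if_pos hPp]
  have hXP : X ≤ P := by
    rw [hP]
    exact (Nat.nth_strictMono Nat.infinite_setOf_prime).id_le X
  have hPX := p_le_sq X (by omega)
  rw [← hP] at hPX
  have h1 := hN₀ P (by omega)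
  set S := (Ioc P (2 * P)).filter (fun n => ∀ j, j < L + 1 →
      n ≤ Nat.nth Nat.Prime (Nat.count Nat.Prime n + j) ∧
      Nat.nth Nat.Prime (Nat.count Nat.Prime n + j) < n + H ∧
      ArithmeticFunction.cardFactors
        ((Nat.nth Nat.Prime (Nat.count Nat.Prime n + j)) ^ 2 - 2) ≤ R ∧
      ∀ r : ℕ, r.Prime → r ∣ (Nat.nth Nat.Prime (Nat.count Nat.Prime n + j)) ^ 2 - 2 →
        (P : ℝ) ^ δ ≤ r) with hS
  have h2 := Pool.Agent.Work.MP_c971ef_nt.CP.count_index (H + 1) S (Nat.count Nat.Prime)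
    (fun n hn => by
      rw [hS, mem_filter] at hn
      have h3 := hn.2 0 (by omega)
      rw [Nat.add_zero] at h3
      exact ⟨h3.1, by have := h3.2.1; omega⟩)
  have hc2 := count_double P hPp.two_le
  refine ⟨(S.image (Nat.count Nat.Prime)).image (· + 1), ?_, ?_, ?_⟩
  · intro m hm
    obtain ⟨s, hs, rfl⟩ := mem_image.1 hm
    obtain ⟨n, hn, rfl⟩ := mem_image.1 hs
    rw [hS, mem_filter, mem_Ioc] at hn
    have h4 : Nat.count Nat.Prime (P + 1) ≤ Nat.count Nat.Prime n :=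
      Nat.count_monotone _ (by omega)
    have h5 : Nat.count Nat.Prime n ≤ Nat.count Nat.Prime (2 * P + 1) :=
      Nat.count_monotone _ (by omega)
    rw [mem_Ioc]
    omega
  · intro m hm j hj
    obtain ⟨s, hs, rfl⟩ := mem_image.1 hm
    obtain ⟨n, hn, rfl⟩ := mem_image.1 hs
    rw [hS, mem_filter, mem_Ioc] at hn
    have h3 := hn.2 j (by omega)
    have e : Nat.count Nat.Prime n + 1 + j - 1 = Nat.count Nat.Prime n + j := by omega
    unfold Gd
    rw [e]
    refine ⟨h3.2.2.1, fun r hr hd => le_trans ?_ (h3.2.2.2 r hr hd)⟩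
    exact Real.rpow_le_rpow (by positivity) (by exact_mod_cast hXP) hδ.le
  · rw [card_image_of_injective _ (fun a b h => by simpa using h)]
    have hXr : (100 : ℝ) ≤ X := by exact_mod_cast (by omega : 100 ≤ X)
    have hPr : (X : ℝ) ≤ P := by exact_mod_cast hXP
    have hPX2 : (P : ℝ) ≤ (X : ℝ) ^ 2 := by exact_mod_cast hPX
    have hlX : 0 < Real.log X := Real.log_pos (by linarith)
    have hlP : 0 < Real.log P := Real.log_pos (by linarith)
    have hl : Real.log P ≤ 2 * Real.log X := by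
      have := Real.log_le_log (by linarith) hPX2
      rwa [Real.log_pow] at this
    have h5 : (X : ℝ) / (2 * Real.log X) ^ κ ≤ P / (Real.log P) ^ κ :=
      div_le_div₀ (by linarith) hPr (by positivity) (pow_le_pow_left₀ hlP.le hl κ)
    have h6 : (#S : ℝ) ≤ (H + 1) * (#(S.image (Nat.count Nat.Prime)) : ℝ) := by
      exact_mod_cast h2
    have h7 := mul_le_mul_of_nonneg_left h5 hc.le
    calc c / ((H + 1) * 2 ^ κ) * (X / (Real.log X) ^ κ)
        = (c * (X / (2 * Real.log X) ^ κ)) / (H + 1) := by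
          rw [mul_pow]
          field_simp
      _ ≤ ((H + 1) * (#(S.image (Nat.count Nat.Prime)) : ℝ)) / (H + 1) := by
          apply div_le_div_of_nonneg_right _ (by positivity)
          linarith
      _ = _ := by field_simp

end PoolTP
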