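import Pool.Agent.Work.MP_c971ef_nt.TP.Defs
import Pool.Agent.Work.MP_c971ef_nt.TP.BlkA
import Pool.Agent.Work.MP_c971ef_nt.R5.IdxB

set_option autoImplicit false

/-!
Good indices in every block, with at most five prime factors for runs of length one.
-/

namespace PoolTP

open Finset

theorem blk_five : ∃ c : ℝ, 0 < c ∧ BlkSet 1 5 1 (19 / 100) c := by
  classical
  obtain ⟨c, X₀, hc, h⟩ := Pool.Agent.Work.MP_c971ef_nt.R5.idx_block
  refine ⟨c, hc, X₀, fun X hX => ⟨(Ioc X (4 * X)).filter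
    (fun m => Gd 5 ((X : ℝ) ^ ((19 : ℝ) / 100)) m), filter_subset _ _, ?_, ?_⟩⟩
  · intro m hm j hj
    obtain rfl : j = 0 := by omega
    exact (mem_filter.1 hm).2
  · have h1 := h X hX
    rw [pow_one]
    refine h1.trans (Nat.cast_le.2 (card_le_card fun m hm => ?_))
    rw [mem_filter] at hm ⊢
    exact hm

/-- good indices in every block; `R = 5` for `L ≤ 1` -/
theorem blk_all (L : ℕ) : ∃ (L' R κ : ℕ) (δ c : ℝ), (L ≤ 1 → R = 5) ∧ L ≤ L' ∧ 1 ≤ L' ∧ 0 < δ ∧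
    0 < c ∧ BlkSet L' R κ δ c := by
  rcases Nat.lt_or_ge 1 L with hL | hL
  · obtain ⟨R, κ, δ, c, hδ, hc, h⟩ := blk_set L
    exact ⟨L, R, κ, δ, c, fun h1 => absurd hL (by omega), le_rfl, by omega, hδ, hc, h⟩
  · obtain ⟨c, hc, h⟩ := blk_five
    exact ⟨1, 5, 1, 19 / 100, c, fun _ => rfl, hL, le_rfl, by norm_num, hc, h⟩

end PoolTP
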