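import Pool.Agent.Work.MP_c971ef_nt.TP.Stp

set_option autoImplicit false

/-!
# Module Blc (size M-L): the jumps in one block

Segments `s < S`: `(X + s ℓ, X + (s + 1) ℓ]`. By induction on `s ≤ S` construct `b : ℕ → ℕ` (values up to `s`) and the sets `U s ⊆ Ioc N (2 N)` of the `n` not yet satisfied: `b 0 = e`, `U 0 = Ioc N (2 N)`,
`b s ≤ b (s + 1) ≤ b s + A`. In the segment `s` apply `step` with `y = X + s ℓ`, `a = b s`, `U = U s`, `M_s = {m ∈ M | y + a + A < m ∧ m + L ≤ y + a + ℓ}` (`hw` with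
`y' = m - a - A`: `X ≤ y'`, `y' + A = m - a ≤ X + S ℓ ≤ 4 X`; the conditions `m < k n + a + A`, `k n + a ≤ m` are `y' < k n`, `k n ≤ y' + A`; `k ≤ k n`, so the ranges do not matter): `b (s + 1) = b s + r`,
`U (s + 1)` = the `n ∈ U s` which are not satisfied, `#U (s + 1) ≤ (1 - β #M_s) #U s ≤ exp (- β #M_s) #U s` with `β = w / (A (ℓ / N + 1))`.
`#M_s ≥ #(M ∩ (y, y + ℓ]) - (e + S A + A + L)`: the elements of `M ∩ (y, y + ℓ]` not in `M_s` are in `(y, y + a + A]` or in `(y + a + ℓ - L, y + ℓ]`, together at most `a + A + L`, `a ≤ e + S A`.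
The segments are disjoint, and the part `(X + S ℓ, 4 X]` has `3 X - S ℓ` elements, so `∑ #M_s ≥ #M - (3 X - S ℓ) - S (e + S A + A + L)` and `#U S ≤ N exp (..) < 1` by `hbig`, `U S = ∅`.
To organise the induction it is convenient to prove by induction on `s ≤ S`: there is `b : ℕ → ℕ`, monotone, `b 0 = e`, `b t ≤ e + t * A` for all `t`, `b t = b s` for `t ≥ s`, such that the number of the
`n ∈ Ioc N (2 N)` WITHOUT (`∃ t < s, ∃ k, K k ∧ X + t ℓ < k n ∧ k n + L ≤ X + (t + 1) ℓ ∧ k n + b (t + 1) ∈ M`) is at most `N exp (- β ∑ over t < s of (#(M ∩ segment t) - (e + S A + A + L)))` (real numbers).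
Finally `f m = b (min S ((m - X + (ℓ - 1)) / ℓ))` (natural numbers): it is `e` for `m ≤ X`, and `b (t + 1)` on the segment `t`; it is monotone.
-/

namespace PoolTP

open Finset

/-- the segment `t` has a good multiple of `n` -/
private def Sat (X ℓ L : ℕ) (M : Finset ℕ) (K : ℕ → Prop) (b : ℕ → ℕ) (t n : ℕ) : Prop :=
  ∃ k : ℕ, K k ∧ X + t * ℓ < k * n ∧ k * n + L ≤ X + (t + 1) * ℓ ∧ k * n + b (t + 1) ∈ M

private theorem seg_count (M : Finset ℕ) (y ℓ a A L : ℕ) :
    #(M.filter (fun m => y < m ∧ m ≤ y + ℓ)) ≤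
      #(M.filter (fun m => y + a + A < m ∧ m + L ≤ y + a + ℓ)) + (a + A + L) := by
  have h : M.filter (fun m => y < m ∧ m ≤ y + ℓ) ⊆
      M.filter (fun m => y + a + A < m ∧ m + L ≤ y + a + ℓ) ∪
        (Ioc y (y + (a + A)) ∪ Ioc (y + ℓ - L) (y + ℓ)) := by
    intro m hm
    simp only [mem_filter, mem_union, mem_Ioc] at hm ⊢
    obtain ⟨hm, h1, h2⟩ := hm
    by_cases h3 : y + a + A < m
    · by_cases h4 : m + L ≤ y + a + ℓ
      · left
        exact ⟨hm, h3, h4⟩
      · right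
        right
        omega
    · right
      left
      omega
  refine (card_le_card h).trans ((card_union_le _ _).trans ?_)
  have h5 := card_union_le (Ioc y (y + (a + A))) (Ioc (y + ℓ - L) (y + ℓ))
  simp only [Nat.card_Ioc] at h5
  omega

private theorem sum_seg (M : Finset ℕ) (X ℓ s : ℕ) :
    #(M.filter (fun m => X < m ∧ m ≤ X + s * ℓ)) ≤
      ∑ t ∈ range s, #(M.filter (fun m => X + t * ℓ < m ∧ m ≤ X + t * ℓ + ℓ)) := by
  induction s with
  | zero =>
    rw [range_zero, sum_empty, Nat.le_zero, card_eq_zero, filter_eq_empty_iff]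
    intro m _ h
    omega
  | succ s ih =>
    rw [sum_range_succ]
    refine le_trans ?_ (Nat.add_le_add_right ih _)
    refine (card_le_card ?_).trans (card_union_le _ _)
    intro m hm
    simp only [mem_union, mem_filter] at hm ⊢
    have h0 : (s + 1) * ℓ = s * ℓ + ℓ := by ring
    by_cases h : m ≤ X + s * ℓ
    · left
      exact ⟨hm.1, hm.2.1, h⟩
    · right
      refine ⟨hm.1, ?_, ?_⟩ <;> omega

open Classical in
private theorem ind (N X S ℓ A L e : ℕ) (M : Finset ℕ) (K : ℕ → Prop) (w : ℝ) (hN : 1 ≤ N)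
    (hA : 1 ≤ A) (hw0 : 0 ≤ w) (hS : S * ℓ ≤ 3 * X)
    (hw : ∀ n ∈ Ioc N (2 * N), ∀ y, X ≤ y → y + A ≤ 4 * X → w ≤ (#((range (4 * X + 1)).filter
      (fun k => K k ∧ y < k * n ∧ k * n ≤ y + A)) : ℝ)) (s : ℕ) (hs : s ≤ S) :
    ∃ b : ℕ → ℕ, Monotone b ∧ b 0 = e ∧ (∀ t, b t ≤ e + t * A) ∧
      (#((Ioc N (2 * N)).filter (fun n => ¬ ∃ t < s, Sat X ℓ L M K b t n)) : ℝ) ≤
        N * Real.exp (-(w / (A * ((ℓ : ℝ) / N + 1)) *
          (∑ t ∈ range s, (#(M.filter (fun m => X + t * ℓ < m ∧ m ≤ X + t * ℓ + ℓ)) : ℝ) -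
            s * (e + S * A + A + L : ℕ)))) := by
  induction s with
  | zero =>
    refine ⟨fun _ => e, monotone_const, rfl, fun t => Nat.le_add_right _ _, ?_⟩
    refine (Nat.cast_le.2 (card_filter_le _ _)).trans ?_
    have h2 : 2 * N - N = N := by omega
    rw [Nat.card_Ioc, h2]
    simp
  | succ s ih =>
    obtain ⟨b, hb1, hb0, hbA, hbU⟩ := ih (by omega)
    have hs1 : (s + 1) * ℓ ≤ S * ℓ := Nat.mul_le_mul_right _ hs
    have hs2 : (s + 1) * ℓ = s * ℓ + ℓ := by ring
    have hyS : X + s * ℓ + ℓ ≤ 4 * X := by omega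
    obtain ⟨r, hr, hrU⟩ := step N (X + s * ℓ) ℓ A (b s) L
      ((Ioc N (2 * N)).filter (fun n => ¬ ∃ t < s, Sat X ℓ L M K b t n))
      (M.filter (fun m => X + s * ℓ + b s + A < m ∧ m + L ≤ X + s * ℓ + b s + ℓ)) K w hN hA
      (filter_subset _ _) (fun m hm => (mem_filter.1 hm).2) (by
        intro n hn m hm
        have hm' := (mem_filter.1 hm).2
        have hn' : n ∈ Ioc N (2 * N) := (mem_filter.1 hn).1
        refine (hw n hn' (m - b s - A) (by omega) (by omega)).trans ?_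
        refine Nat.cast_le.2 (card_le_card ?_)
        intro k hk
        simp only [mem_filter, mem_range] at hk ⊢
        have hkn : k ≤ k * n := Nat.le_mul_of_pos_right _ (by
          have := (mem_Ioc.1 hn').1
          omega)
        refine ⟨by omega, hk.2.1, by omega, by omega⟩)
    refine ⟨fun t => if t ≤ s then b t else b s + r, ?_, ?_, ?_, ?_⟩
    · intro t u htu
      show (if t ≤ s then b t else b s + r) ≤ if u ≤ s then b u else b s + r
      split_ifs with h1 h2 h2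
      · exact hb1 htu
      · exact (hb1 h1).trans (Nat.le_add_right _ _)
      · omega
      · exact le_rfl
    · show (if 0 ≤ s then b 0 else b s + r) = e
      rw [if_pos (Nat.zero_le _), hb0]
    · intro t
      show (if t ≤ s then b t else b s + r) ≤ e + t * A
      split_ifs with h1
      · exact hbA t
      · have h2 := hbA s
        have h3 : (s + 1) * A ≤ t * A := Nat.mul_le_mul_right _ (by omega)
        have h4 : (s + 1) * A = s * A + A := by ring
        omega
    · have hsub : (Ioc N (2 * N)).filter (fun n => ¬ ∃ t < s + 1,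
          Sat X ℓ L M K (fun t => if t ≤ s then b t else b s + r) t n) ⊆
          ((Ioc N (2 * N)).filter (fun n => ¬ ∃ t < s, Sat X ℓ L M K b t n)) \
          (((Ioc N (2 * N)).filter (fun n => ¬ ∃ t < s, Sat X ℓ L M K b t n)).filter
            (fun n => ∃ k : ℕ, K k ∧ X + s * ℓ < k * n ∧ k * n + L ≤ X + s * ℓ + ℓ ∧
              k * n + b s + r ∈ M.filter (fun m => X + s * ℓ + b s + A < m ∧
                m + L ≤ X + s * ℓ + b s + ℓ))) := by
        intro n hn
        rw [mem_filter] at hn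
        rw [mem_sdiff]
        constructor
        · refine mem_filter.2 ⟨hn.1, ?_⟩
          rintro ⟨t, ht, k, hk1, hk2, hk3, hk4⟩
          refine hn.2 ⟨t, by omega, k, hk1, hk2, hk3, ?_⟩
          show k * n + (if t + 1 ≤ s then b (t + 1) else b s + r) ∈ M
          rw [if_pos (by omega)]
          exact hk4
        · intro hV
          obtain ⟨-, k, hk1, hk2, hk3, hk4⟩ := mem_filter.1 hV
          refine hn.2 ⟨s, by omega, k, hk1, hk2, by omega, ?_⟩
          show k * n + (if s + 1 ≤ s then b (s + 1) else b s + r) ∈ M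
          rw [if_neg (by omega), ← add_assoc]
          exact (mem_filter.1 hk4).1
      have hcard := card_le_card hsub
      have hsd := card_sdiff_add_card_eq_card (filter_subset (fun n => ∃ k : ℕ, K k ∧
        X + s * ℓ < k * n ∧ k * n + L ≤ X + s * ℓ + ℓ ∧
              k * n + b s + r ∈ M.filter (fun m => X + s * ℓ + b s + A < m ∧
                m + L ≤ X + s * ℓ + b s + ℓ))
        ((Ioc N (2 * N)).filter (fun n => ¬ ∃ t < s, Sat X ℓ L M K b t n)))
      have hseg := seg_count M (X + s * ℓ) ℓ (b s) A L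
      generalize hU : #((Ioc N (2 * N)).filter (fun n => ¬ ∃ t < s, Sat X ℓ L M K b t n)) = u
        at hbU hrU hsd
      generalize hMs : #(M.filter (fun m => X + s * ℓ + b s + A < m ∧
        m + L ≤ X + s * ℓ + b s + ℓ)) = μ at hrU hseg
      rw [sum_range_succ]
      generalize hc : #(M.filter (fun m => X + s * ℓ < m ∧ m ≤ X + s * ℓ + ℓ)) = c at hseg ⊢
      have hβ : 0 ≤ w / (A * ((ℓ : ℝ) / N + 1)) := div_nonneg hw0 (by positivity)
      have hr1 : w * (μ : ℝ) / (A * ((ℓ : ℝ) / N + 1)) =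
          w / (A * ((ℓ : ℝ) / N + 1)) * μ := by ring
      rw [hr1] at hrU
      generalize w / (A * ((ℓ : ℝ) / N + 1)) = β at hβ hrU hbU ⊢
      have h1 := (Nat.cast_le (α := ℝ)).2 hcard
      have h2 : ((#(((Ioc N (2 * N)).filter (fun n => ¬ ∃ t < s, Sat X ℓ L M K b t n)) \
          (((Ioc N (2 * N)).filter (fun n => ¬ ∃ t < s, Sat X ℓ L M K b t n)).filter
            (fun n => ∃ k : ℕ, K k ∧ X + s * ℓ < k * n ∧ k * n + L ≤ X + s * ℓ + ℓ ∧
              k * n + b s + r ∈ M.filter (fun m => X + s * ℓ + b s + A < m ∧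
                m + L ≤ X + s * ℓ + b s + ℓ)))) : ℕ) : ℝ) ≤ u * (1 - β * μ) := by
        have h3 := (Nat.cast_inj (R := ℝ)).2 hsd
        push_cast at h3
        nlinarith
      have hD : (c : ℝ) - (e + S * A + A + L : ℕ) ≤ μ := by
        have h4 := hbA s
        have h5 : s * A ≤ S * A := Nat.mul_le_mul_right _ (by omega)
        have h6 : c ≤ μ + (e + S * A + A + L) := by omega
        have h7 := (Nat.cast_le (α := ℝ)).2 h6
        rw [Nat.cast_add] at h7
        linarith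
      have h8 : 1 - β * μ ≤ Real.exp (-(β * ((c : ℝ) - (e + S * A + A + L : ℕ)))) := by
        have h9 := Real.one_sub_le_exp_neg (β * ((c : ℝ) - (e + S * A + A + L : ℕ)))
        have h10 := mul_le_mul_of_nonneg_left hD hβ
        linarith
      refine (h1.trans h2).trans ?_
      calc (u : ℝ) * (1 - β * μ)
          ≤ u * Real.exp (-(β * ((c : ℝ) - (e + S * A + A + L : ℕ)))) :=
            mul_le_mul_of_nonneg_left h8 (Nat.cast_nonneg _)
        _ ≤ _ := mul_le_mul_of_nonneg_right hbU (Real.exp_pos _).le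
        _ = _ := by
            rw [mul_assoc, ← Real.exp_add]
            congr 2
            push_cast
            ring

open Classical in
theorem block (N X S ℓ A L e : ℕ) (M : Finset ℕ) (K : ℕ → Prop) (w : ℝ) (hN : 1 ≤ N) (hA : 1 ≤ A)
    (hw0 : 0 ≤ w) (hℓ : 1 ≤ ℓ) (hS : S * ℓ ≤ 3 * X) (hM : M ⊆ Ioc X (4 * X))
    (hw : ∀ n ∈ Ioc N (2 * N), ∀ y, X ≤ y → y + A ≤ 4 * X → w ≤ (#((range (4 * X + 1)).filter
      (fun k => K k ∧ y < k * n ∧ k * n ≤ y + A)) : ℝ))
    (hbig : (N : ℝ) * Real.exp (-(w / (A * ((ℓ : ℝ) / N + 1)) *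
      ((#M : ℝ) - (3 * X - S * ℓ : ℕ) - S * (e + S * A + A + L : ℕ)))) < 1) :
    ∃ f : ℕ → ℕ, Monotone f ∧ (∀ m ≤ X, f m = e) ∧ (∀ m, f m ≤ e + S * A) ∧
      ∀ n ∈ Ioc N (2 * N), ∃ k : ℕ, K k ∧ X < k * n ∧ k * n + L ≤ 4 * X ∧
        (∀ j ≤ L, f (k * n + j) = f (k * n)) ∧ k * n + f (k * n) ∈ M := by
  obtain ⟨b, hb1, hb0, hbA, hbU⟩ := ind N X S ℓ A L e M K w hN hA hw0 hS hw S le_rfl
  have hβ : 0 ≤ w / (A * ((ℓ : ℝ) / N + 1)) := div_nonneg hw0 (by positivity)
  have hsum : #M ≤ ∑ t ∈ range S, #(M.filter (fun m => X + t * ℓ < m ∧ m ≤ X + t * ℓ + ℓ)) +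
      (3 * X - S * ℓ) := by
    have h1 := sum_seg M X ℓ S
    have h2 : M ⊆ M.filter (fun m => X < m ∧ m ≤ X + S * ℓ) ∪ Ioc (X + S * ℓ) (4 * X) := by
      intro m hm
      have h3 := mem_Ioc.1 (hM hm)
      simp only [mem_union, mem_filter, mem_Ioc]
      by_cases h4 : m ≤ X + S * ℓ
      · left
        exact ⟨hm, h3.1, h4⟩
      · right
        omega
    have h5 := (card_le_card h2).trans (card_union_le _ _)
    rw [Nat.card_Ioc] at h5
    omega
  have hzero : (Ioc N (2 * N)).filter (fun n => ¬ ∃ t < S, Sat X ℓ L M K b t n) = ∅ := by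
    rw [← card_eq_zero]
    have h1 : (#((Ioc N (2 * N)).filter (fun n => ¬ ∃ t < S, Sat X ℓ L M K b t n)) : ℝ) < 1 := by
      refine hbU.trans_lt (lt_of_le_of_lt ?_ hbig)
      refine mul_le_mul_of_nonneg_left ?_ (Nat.cast_nonneg _)
      rw [Real.exp_le_exp, neg_le_neg_iff]
      refine mul_le_mul_of_nonneg_left ?_ hβ
      have h2 := (Nat.cast_le (α := ℝ)).2 hsum
      rw [Nat.cast_add, Nat.cast_sum] at h2
      linarith
    have h2 : #((Ioc N (2 * N)).filter (fun n => ¬ ∃ t < S, Sat X ℓ L M K b t n)) < 1 := by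
      exact_mod_cast h1
    omega
  refine ⟨fun m => b (min S ((m - X + (ℓ - 1)) / ℓ)), ?_, ?_, ?_, ?_⟩
  · intro m m' h
    refine hb1 (min_le_min_left _ (Nat.div_le_div_right ?_))
    omega
  · intro m hm
    have h1 : m - X + (ℓ - 1) = ℓ - 1 := by omega
    show b (min S ((m - X + (ℓ - 1)) / ℓ)) = e
    rw [h1, Nat.div_eq_of_lt (by omega), Nat.min_zero, hb0]
  · intro m
    refine (hbA _).trans (Nat.add_le_add_left (Nat.mul_le_mul_right _ (min_le_left _ _)) _)
  · intro n hn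
    have h1 : ∃ t < S, Sat X ℓ L M K b t n := by
      by_contra h2
      have h3 : n ∈ (Ioc N (2 * N)).filter (fun n => ¬ ∃ t < S, Sat X ℓ L M K b t n) :=
        mem_filter.2 ⟨hn, h2⟩
      rw [hzero] at h3
      exact absurd h3 (notMem_empty _)
    obtain ⟨t, ht, k, hk1, hk2, hk3, hk4⟩ := h1
    have hs2 : (t + 1) * ℓ = t * ℓ + ℓ := by ring
    have hs1 : (t + 1) * ℓ ≤ S * ℓ := Nat.mul_le_mul_right _ ht
    have hf : ∀ j ≤ L, b (min S ((k * n + j - X + (ℓ - 1)) / ℓ)) = b (t + 1) := by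
      intro j hj
      have h2 : (k * n + j - X + (ℓ - 1)) / ℓ = t + 1 := by
        refine Nat.div_eq_of_lt_le ?_ ?_
        · omega
        · have h3 : (t + 1 + 1) * ℓ = t * ℓ + ℓ + ℓ := by ring
          omega
      rw [h2, min_eq_right (by omega)]
    refine ⟨k, hk1, by omega, by omega, ?_, ?_⟩
    · intro j hj
      show b (min S ((k * n + j - X + (ℓ - 1)) / ℓ)) = b (min S ((k * n - X + (ℓ - 1)) / ℓ))
      rw [hf j hj]
      exact (hf 0 (Nat.zero_le _)).symm
    · show k * n + b (min S ((k * n - X + (ℓ - 1)) / ℓ)) ∈ M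
      have h2 := hf 0 (Nat.zero_le _)
      rw [add_zero] at h2
      rw [h2]
      exact hk4

end PoolTP
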