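import Mathlib

set_option autoImplicit false

/-!
# Module Dia (size M): diagonal choice and sums

`diag`: let `t B` be such that `Q B i` for all `i ≥ t B`, and `t' B = max over B' ≤ B of (t B' + B')`; `g i` = the largest `B ≤ i` with `t' B ≤ i` (0 if there is none; for example `Nat.findGreatest`).
`sum_log`: let `B` be given. For `j ≥ j₀`: `g j ≥ B + κ + 5`, so `j ^ (κ + 5) * A j ≤ 4 ^ j / j ^ B`. The terms `j < j₀` give a constant, so
`a m ≤ C₁ + ∑ j ∈ Ico j₀ i, 4 ^ j / j ^ B ≤ C₁ + C₂ 4 ^ i / i ^ B` for `m ≤ 4 ^ i`. For `x ≥ 2` take `i` with `4 ^ (i - 1) < x + 1 ≤ 4 ^ i`: `4 ^ i ≤ 4 x`, `i ≥ log x / log 4 ≥ log x / 2`; constants are absorbed because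
`x / (log x) ^ B` is bounded below by a positive constant on `x ≥ 2`.
`sum_pow`: `j ^ (κ + 5) * A j ≤ j ^ (κ + 5) (2 ^ ((1 + ε) j) + 1)`, the sum over `j < i` is `≤ C 2 ^ ((1 + 2 ε) i)`, `i` as before: `2 ^ i ≤ 2 √(x + 1)...`, so `≤ C' x ^ (1 / 2 + ε)`.
-/

namespace PoolTP

open Finset Filter

theorem diag (Q : ℕ → ℕ → Prop) (h : ∀ B, ∀ᶠ i : ℕ in atTop, Q B i) :
    ∃ g : ℕ → ℕ, Tendsto g atTop atTop ∧ ∀ᶠ i : ℕ in atTop, Q (g i) i := by
  classical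
  have h1 : ∀ B, ∃ t : ℕ, ∀ i, t ≤ i → Q B i := fun B => eventually_atTop.1 (h B)
  choose t ht using h1
  let T : ℕ → ℕ := fun B => t B
  refine ⟨fun i => Nat.findGreatest (fun B => T B ≤ i) i, ?_, ?_⟩
  · rw [tendsto_atTop]
    intro B
    filter_upwards [eventually_ge_atTop (max (T B) B)] with i hi
    exact Nat.le_findGreatest (le_trans (le_max_right _ _) hi) (le_trans (le_max_left _ _) hi)
  · filter_upwards [eventually_ge_atTop (T 0)] with i hi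
    apply ht
    exact Nat.findGreatest_spec (P := fun B => T B ≤ i) (Nat.zero_le i) hi

private theorem clog_facts (x : ℕ) (hx : 2 ≤ x) : ∃ i : ℕ, 1 ≤ i ∧ x + 1 ≤ 4 ^ i ∧
    ((4 : ℝ) ^ i ≤ 4 * x) ∧ Real.log x ≤ 2 * i := by
  refine ⟨Nat.clog 4 (x + 1), ?_, Nat.le_pow_clog (by norm_num) _, ?_, ?_⟩
  · exact Nat.clog_pos (by norm_num) (by omega)
  · have h1 : 4 ^ (Nat.clog 4 (x + 1)).pred < x + 1 := Nat.pow_pred_clog_lt_self (by norm_num) (by omega)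
    have h2 : 1 ≤ Nat.clog 4 (x + 1) := Nat.clog_pos (by norm_num) (by omega)
    obtain ⟨m, hm⟩ := Nat.exists_eq_add_of_le' h2
    rw [hm] at h1 ⊢
    have h3 : 4 ^ m ≤ x := by
      have : (m + 1).pred = m := rfl
      rw [this] at h1
      omega
    have h4 : (4 : ℝ) ^ m ≤ x := by exact_mod_cast h3
    rw [pow_succ]
    linarith
  · have h1 : x + 1 ≤ 4 ^ (Nat.clog 4 (x + 1)) := Nat.le_pow_clog (by norm_num) _
    set i := Nat.clog 4 (x + 1)
    have h2 : (x : ℝ) ≤ 4 ^ i := by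
      have : x ≤ 4 ^ i := by omega
      exact_mod_cast this
    have hx0 : (0 : ℝ) < x := by
      have : 0 < x := by omega
      exact_mod_cast this
    have h3 := Real.log_le_log hx0 h2
    rw [Real.log_pow] at h3
    have h4 : Real.log 4 ≤ 2 := by
      have : Real.log 4 = 2 * Real.log 2 := by
        rw [show (4 : ℝ) = 2 ^ 2 by norm_num, Real.log_pow]
        norm_num
      have := Real.log_two_lt_d9
      linarith
    have h5 : (0 : ℝ) ≤ i := by positivity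
    nlinarith

/-- `y ^ n ≤ c * exp (y * δ)` -/
private theorem pow_le_exp (n : ℕ) (δ : ℝ) (hδ : 0 < δ) : ∃ c : ℝ, 0 < c ∧ ∀ y : ℝ, 0 ≤ y →
    y ^ n ≤ c * Real.exp (y * δ) := by
  refine ⟨(n.factorial : ℝ) / δ ^ n, by positivity, ?_⟩
  intro y hy
  have h1 := Real.pow_div_factorial_le_exp (y * δ) (by positivity) n
  rw [div_le_iff₀ (by positivity), mul_pow] at h1
  rw [div_mul_eq_mul_div, le_div_iff₀ (by positivity)]
  linarith

private theorem exp_nat (j : ℕ) : Real.exp ((j : ℝ) * Real.log 2) = 2 ^ j := by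
  rw [Real.exp_nat_mul, Real.exp_log (by norm_num)]

private theorem two_sum (i : ℕ) : ∑ j ∈ range i, (2 : ℝ) ^ j ≤ 2 ^ i := by
  induction i with
  | zero => simp
  | succ i ih =>
    rw [Finset.sum_range_succ, pow_succ]
    linarith

private theorem sum_four (B : ℕ) : ∃ c : ℝ, 0 < c ∧ ∀ i : ℕ, 1 ≤ i →
    ∑ j ∈ range i, (if 1 ≤ j then (4 : ℝ) ^ j / (j : ℝ) ^ B else 0) ≤ c * (4 ^ i / (i : ℝ) ^ B) := by
  obtain ⟨c, hc, hb⟩ := pow_le_exp B (Real.log 2) (Real.log_pos (by norm_num))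
  refine ⟨2 * c, by positivity, ?_⟩
  intro i hi
  have hi0 : (0 : ℝ) < i := by exact_mod_cast hi
  rw [mul_div_assoc', le_div_iff₀ (by positivity), Finset.sum_mul]
  have h1 : ∀ j ∈ range i, (if 1 ≤ j then (4 : ℝ) ^ j / (j : ℝ) ^ B else 0) * (i : ℝ) ^ B ≤
      2 * c * 2 ^ i * 2 ^ j := by
    intro j hj
    rw [Finset.mem_range] at hj
    split_ifs with h
    · have hj0 : (0 : ℝ) < j := by exact_mod_cast h
      obtain ⟨m, rfl⟩ := Nat.exists_eq_add_of_lt hj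
      have h2 : ((j + m + 1 : ℕ) : ℝ) ≤ j * ((m : ℝ) + 2) := by
        push_cast
        have : (1 : ℝ) ≤ j := by exact_mod_cast h
        nlinarith
      have h3 : ((j + m + 1 : ℕ) : ℝ) ^ B ≤ (j : ℝ) ^ B * ((m : ℝ) + 2) ^ B := by
        rw [← mul_pow]
        exact pow_le_pow_left₀ (by positivity) h2 B
      have h4 : ((m : ℝ) + 2) ^ B ≤ c * 2 ^ (m + 2) := by
        have h5 := hb ((m : ℝ) + 2) (by positivity)
        have h6 := exp_nat (m + 2)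
        push_cast at h6
        rwa [h6] at h5
      calc (4 : ℝ) ^ j / (j : ℝ) ^ B * ((j + m + 1 : ℕ) : ℝ) ^ B
          ≤ (4 : ℝ) ^ j / (j : ℝ) ^ B * ((j : ℝ) ^ B * ((m : ℝ) + 2) ^ B) :=
            mul_le_mul_of_nonneg_left h3 (by positivity)
        _ = (4 : ℝ) ^ j * ((m : ℝ) + 2) ^ B := by field_simp
        _ ≤ (4 : ℝ) ^ j * (c * 2 ^ (m + 2)) := mul_le_mul_of_nonneg_left h4 (by positivity)
        _ = 2 * c * 2 ^ (j + m + 1) * 2 ^ j := by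
            rw [show (4 : ℝ) = 2 * 2 by norm_num, mul_pow]
            ring
    · rw [zero_mul]
      positivity
  refine (Finset.sum_le_sum h1).trans ?_
  rw [← Finset.mul_sum]
  have h2 := two_sum i
  have h3 : (4 : ℝ) ^ i = 2 ^ i * 2 ^ i := by
    rw [← mul_pow]; norm_num
  rw [h3]
  have h4 : (0 : ℝ) ≤ 2 * c * 2 ^ i := by positivity
  calc 2 * c * 2 ^ i * ∑ j ∈ range i, (2 : ℝ) ^ j ≤ 2 * c * 2 ^ i * 2 ^ i :=
        mul_le_mul_of_nonneg_left h2 h4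
    _ = 2 * c * (2 ^ i * 2 ^ i) := by ring

private theorem sum_split (f h : ℕ → ℝ) (hf : ∀ j, 0 ≤ f j) (hh : ∀ j, 0 ≤ h j) (j₀ : ℕ)
    (hfh : ∀ j, j₀ ≤ j → f j ≤ h j) (i : ℕ) :
    ∑ j ∈ range i, f j ≤ ∑ j ∈ range j₀, f j + ∑ j ∈ range i, h j := by
  rcases le_total i j₀ with hi | hi
  · have h1 : ∑ j ∈ range i, f j ≤ ∑ j ∈ range j₀, f j :=
      Finset.sum_le_sum_of_subset_of_nonneg (Finset.range_subset_range.2 hi) (fun j _ _ => hf j)
    have h2 : 0 ≤ ∑ j ∈ range i, h j := Finset.sum_nonneg (fun j _ => hh j)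
    linarith
  · induction i, hi using Nat.le_induction with
    | base =>
      have h2 : 0 ≤ ∑ j ∈ range j₀, h j := Finset.sum_nonneg (fun j _ => hh j)
      linarith
    | succ i hi ih =>
      rw [Finset.sum_range_succ, Finset.sum_range_succ]
      have := hfh i hi
      linarith

theorem sum_log (κ C : ℕ) (A g a : ℕ → ℕ) (hg : Tendsto g atTop atTop)
    (hA : ∀ i, (A i : ℝ) ≤ 4 ^ i / (i : ℝ) ^ g i)
    (ha : ∀ i m, m ≤ 4 ^ i → a m ≤ C + ∑ j ∈ range i, j ^ (κ + 5) * A j) (B : ℕ) :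
    ∃ C' : ℝ, ∀ x : ℕ, 2 ≤ x → (a (x + 1) : ℝ) ≤ C' * (x / (Real.log x) ^ B) := by
  obtain ⟨j₁, hj₁⟩ := eventually_atTop.1 (tendsto_atTop.1 hg (B + κ + 5))
  set j₀ := max j₁ 1 with hj₀
  obtain ⟨c, hc, hsum⟩ := sum_four B
  set f : ℕ → ℝ := fun j => (j : ℝ) ^ (κ + 5) * A j with hf
  set h : ℕ → ℝ := fun j => if 1 ≤ j then (4 : ℝ) ^ j / (j : ℝ) ^ B else 0 with hh
  have hf0 : ∀ j, 0 ≤ f j := fun j => by rw [hf]; positivity
  have hh0 : ∀ j, 0 ≤ h j := fun j => by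
    rw [hh]
    dsimp only
    split_ifs
    · positivity
    · exact le_rfl
  have hfh : ∀ j, j₀ ≤ j → f j ≤ h j := by
    intro j hj
    have h1 : 1 ≤ j := (le_max_right _ _).trans hj
    have h2 : B + κ + 5 ≤ g j := hj₁ j ((le_max_left _ _).trans hj)
    have hj1 : (1 : ℝ) ≤ j := by exact_mod_cast h1
    have hj0 : (0 : ℝ) < j := by linarith
    rw [hf, hh]
    dsimp only
    rw [if_pos h1]
    have h3 : (4 : ℝ) ^ j / (j : ℝ) ^ g j ≤ 4 ^ j / (j : ℝ) ^ (B + κ + 5) :=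
      div_le_div_of_nonneg_left (by positivity) (by positivity) (pow_le_pow_right₀ hj1 h2)
    calc (j : ℝ) ^ (κ + 5) * (A j : ℝ) ≤ (j : ℝ) ^ (κ + 5) * (4 ^ j / (j : ℝ) ^ (B + κ + 5)) :=
          mul_le_mul_of_nonneg_left ((hA j).trans h3) (by positivity)
      _ = 4 ^ j / (j : ℝ) ^ B := by
          rw [show B + κ + 5 = (κ + 5) + B by ring, pow_add (j : ℝ) (κ + 5) B, mul_div_assoc',
            mul_div_mul_left _ _ (by positivity)]
  set K : ℝ := C + ∑ j ∈ range j₀, f j with hK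
  have hK0 : 0 ≤ K := by
    have : 0 ≤ ∑ j ∈ range j₀, f j := Finset.sum_nonneg (fun j _ => hf0 j)
    rw [hK]; positivity
  refine ⟨K * B.factorial + 4 * c * 2 ^ B, ?_⟩
  intro x hx
  obtain ⟨i, hi1, hi2, hi3, hi4⟩ := clog_facts x hx
  have hx1 : (1 : ℝ) < x := by
    have : 1 < x := by omega
    exact_mod_cast this
  have hlog : 0 < Real.log x := Real.log_pos hx1
  have hlB : 0 < (Real.log x) ^ B := by positivity
  have hi0 : (0 : ℝ) < i := by exact_mod_cast hi1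
  have h1 : (a (x + 1) : ℝ) ≤ C + ∑ j ∈ range i, f j := by
    have h2 := ha i (x + 1) hi2
    have h3 : ((a (x + 1) : ℕ) : ℝ) ≤ ((C + ∑ j ∈ range i, j ^ (κ + 5) * A j : ℕ) : ℝ) := by
      exact_mod_cast h2
    push_cast at h3
    exact h3
  have h2 := sum_split f h hf0 hh0 j₀ hfh i
  have h3 := hsum i hi1
  have h4 : (a (x + 1) : ℝ) ≤ K + c * (4 ^ i / (i : ℝ) ^ B) := by
    rw [hK]; linarith
  have h5 : (1 : ℝ) ≤ B.factorial * (x / (Real.log x) ^ B) := by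
    have h6 := Real.pow_div_factorial_le_exp (Real.log x) hlog.le B
    rw [Real.exp_log (by linarith), div_le_iff₀ (by positivity)] at h6
    rw [mul_div_assoc', le_div_iff₀ hlB]
    linarith
  have h6 : (4 : ℝ) ^ i / (i : ℝ) ^ B ≤ 4 * 2 ^ B * (x / (Real.log x) ^ B) := by
    rw [mul_div_assoc', div_le_div_iff₀ (by positivity) hlB]
    have h7 : (Real.log x) ^ B ≤ 2 ^ B * (i : ℝ) ^ B := by
      rw [← mul_pow]
      exact pow_le_pow_left₀ hlog.le hi4 B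
    calc (4 : ℝ) ^ i * (Real.log x) ^ B ≤ (4 * x) * (2 ^ B * (i : ℝ) ^ B) :=
          mul_le_mul hi3 h7 hlB.le (by positivity)
      _ = 4 * 2 ^ B * x * (i : ℝ) ^ B := by ring
  calc (a (x + 1) : ℝ) ≤ K * 1 + c * (4 ^ i / (i : ℝ) ^ B) := by rw [mul_one]; exact h4
    _ ≤ K * (B.factorial * (x / (Real.log x) ^ B)) + c * (4 * 2 ^ B * (x / (Real.log x) ^ B)) :=
        add_le_add (mul_le_mul_of_nonneg_left h5 hK0) (mul_le_mul_of_nonneg_left h6 hc.le)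
    _ = (K * B.factorial + 4 * c * 2 ^ B) * (x / (Real.log x) ^ B) := by ring

private theorem geo_sum (r : ℝ) (hr : 2 ≤ r) (i : ℕ) : ∑ j ∈ range i, r ^ j ≤ r ^ i := by
  induction i with
  | zero => simp
  | succ i ih =>
    rw [Finset.sum_range_succ, pow_succ]
    have : 0 < r ^ i := by positivity
    nlinarith

theorem sum_pow (κ C : ℕ) (A a : ℕ → ℕ) (ε : ℝ) (hε : 0 < ε)
    (hA : ∀ i, (A i : ℝ) ≤ (2 : ℝ) ^ ((1 + ε) * i) + 1)
    (ha : ∀ i m, m ≤ 4 ^ i → a m ≤ C + ∑ j ∈ range i, j ^ (κ + 5) * A j) :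
    ∃ C' : ℝ, ∀ x : ℕ, 2 ≤ x → (a (x + 1) : ℝ) ≤ C' * (x : ℝ) ^ (1 / 2 + ε) := by
  have hl2 : 0 < Real.log 2 := Real.log_pos (by norm_num)
  obtain ⟨c, hc, hb⟩ := pow_le_exp (κ + 5) (ε * Real.log 2) (by positivity)
  set r : ℝ := (2 : ℝ) ^ (1 + 2 * ε) with hr
  have hr2 : 2 ≤ r := by
    rw [hr]
    calc (2 : ℝ) = 2 ^ (1 : ℝ) := (Real.rpow_one 2).symm
      _ ≤ 2 ^ (1 + 2 * ε) := Real.rpow_le_rpow_of_exponent_le (by norm_num) (by linarith)
  have hterm : ∀ j : ℕ, (j : ℝ) ^ (κ + 5) * A j ≤ 2 * c * r ^ j := by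
    intro j
    have h1 := hb j (by positivity)
    have h2 : Real.exp ((j : ℝ) * (ε * Real.log 2)) = 2 ^ (ε * j) := by
      rw [Real.rpow_def_of_pos (by norm_num)]
      congr 1; ring
    rw [h2] at h1
    have h3 : (A j : ℝ) ≤ 2 * 2 ^ ((1 + ε) * j) := by
      have h4 : (1 : ℝ) ≤ 2 ^ ((1 + ε) * j) := Real.one_le_rpow (by norm_num) (by positivity)
      linarith [hA j]
    have h5 : r ^ j = 2 ^ (ε * j) * 2 ^ ((1 + ε) * (j : ℝ)) := by
      rw [hr, ← Real.rpow_natCast, ← Real.rpow_mul (by norm_num), ← Real.rpow_add (by norm_num)]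
      congr 1; ring
    calc (j : ℝ) ^ (κ + 5) * A j ≤ (c * 2 ^ (ε * j)) * (2 * 2 ^ ((1 + ε) * (j : ℝ))) :=
          mul_le_mul h1 h3 (by positivity) (by positivity)
      _ = 2 * c * r ^ j := by rw [h5]; ring
  refine ⟨C + 2 * c * 4 ^ (1 / 2 + ε), ?_⟩
  intro x hx
  obtain ⟨i, hi1, hi2, hi3, hi4⟩ := clog_facts x hx
  have hx1 : (1 : ℝ) ≤ x := by
    have : 1 ≤ x := by omega
    exact_mod_cast this
  have h1 : (a (x + 1) : ℝ) ≤ C + ∑ j ∈ range i, (j : ℝ) ^ (κ + 5) * A j := by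
    have h2 := ha i (x + 1) hi2
    have h3 : ((a (x + 1) : ℕ) : ℝ) ≤ ((C + ∑ j ∈ range i, j ^ (κ + 5) * A j : ℕ) : ℝ) := by
      exact_mod_cast h2
    push_cast at h3
    exact h3
  have h2 : ∑ j ∈ range i, (j : ℝ) ^ (κ + 5) * A j ≤ 2 * c * r ^ i := by
    calc ∑ j ∈ range i, (j : ℝ) ^ (κ + 5) * A j ≤ ∑ j ∈ range i, 2 * c * r ^ j :=
          Finset.sum_le_sum fun j _ => hterm j
      _ = 2 * c * ∑ j ∈ range i, r ^ j := by rw [Finset.mul_sum]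
      _ ≤ 2 * c * r ^ i := mul_le_mul_of_nonneg_left (geo_sum r hr2 i) (by positivity)
  have h3 : r ^ i ≤ 4 ^ (1 / 2 + ε) * (x : ℝ) ^ (1 / 2 + ε) := by
    have h4 : r ^ i = ((4 : ℝ) ^ i) ^ (1 / 2 + ε) := by
      rw [hr, ← Real.rpow_natCast, ← Real.rpow_mul (by norm_num), ← Real.rpow_natCast (4 : ℝ) i,
        ← Real.rpow_mul (by norm_num), show (4 : ℝ) = 2 ^ (2 : ℝ) by norm_num,
        ← Real.rpow_mul (by norm_num)]
      congr 1; ring
    rw [h4, ← Real.mul_rpow (by norm_num) (by linarith)]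
    exact Real.rpow_le_rpow (by positivity) hi3 (by positivity)
  have h4 : (1 : ℝ) ≤ (x : ℝ) ^ (1 / 2 + ε) := Real.one_le_rpow hx1 (by positivity)
  have h5 : (C : ℝ) ≤ C * (x : ℝ) ^ (1 / 2 + ε) := le_mul_of_one_le_right (by positivity) h4
  have h6 := mul_le_mul_of_nonneg_left h3 (by positivity : (0 : ℝ) ≤ 2 * c)
  calc (a (x + 1) : ℝ) ≤ C * (x : ℝ) ^ (1 / 2 + ε) +
        2 * c * (4 ^ (1 / 2 + ε) * (x : ℝ) ^ (1 / 2 + ε)) := by linarith
    _ = (C + 2 * c * 4 ^ (1 / 2 + ε)) * (x : ℝ) ^ (1 / 2 + ε) := by ring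

end PoolTP
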