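import Mathlib

set_option autoImplicit false

/-!
# Module Enu (size M): the primes outside `D` and the number of elements of `D`

Let `g t = Nat.nth Nat.Prime (t + 1 + a (t + 1) - 1) = Nat.nth Nat.Prime (t + a (t + 1))` for `t ≥ 0`, strictly monotone (`Nat.nth_strictMono Nat.infinite_setOf_prime`, in this Mathlib
`Nat.infinite_setOfPred_prime`), with prime values. `D` = the primes which are not values of `g`. A natural number is a prime not in `D` iff it is a value of `g`, so
`Nat.nth (fun p => p.Prime ∧ p ∉ D) = g`: for a strictly monotone `g` with range `{p | Q p}` one has `Nat.nth Q t = g t` (for example `Nat.count Q (g t) = t` by counting the values below `g t`, and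
`Nat.nth_count`; or uniqueness of the enumeration, `Nat.nth_comp_of_strictMono`, `Nat.nth_eq_orderIsoOfNat`).
Number: let `x` be given, `π = Nat.count Nat.Prime (x + 1)` the number of primes `≤ x` (`≤ x + 1`, even `≤ x`). The primes `≤ x` are `Nat.nth Nat.Prime s`, `s < π`. The values of `g` among them are the
`g t` with `t + a (t + 1) < π`. Let `t₀` be the number of these `t` (they form an initial segment, `t₀ ≤ π ≤ x`); `t₀ + a (t₀ + 1) ≥ π`, so the number of the elements of `D` up to `x` is
`π - t₀ ≤ a (t₀ + 1) ≤ a (x + 1)`.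
-/

namespace PoolTP

open Finset

open Classical in
theorem enum (a : ℕ → ℕ) (ha : Monotone a) : ∃ D : Set ℕ, (∀ p ∈ D, p.Prime) ∧
    (∀ m, 1 ≤ m → Nat.nth (fun p => p.Prime ∧ p ∉ D) (m - 1) = Nat.nth Nat.Prime (m + a m - 1)) ∧
    ∀ x : ℕ, #((range (x + 1)).filter (fun p => p ∈ D)) ≤ a (x + 1) := by
  let h : ℕ → ℕ := fun t => t + a (t + 1)
  have hh : StrictMono h := by
    intro s t hst
    have := ha (show s + 1 ≤ t + 1 by omega)
    show s + a (s + 1) < t + a (t + 1)
    omega
  let g : ℕ → ℕ := fun t => Nat.nth Nat.Prime (h t)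
  have hinf : (Set.ofPred Nat.Prime).Infinite := Nat.infinite_setOfPred_prime
  have hg : StrictMono g := (Nat.nth_strictMono hinf).comp hh
  have hgp : ∀ t, (g t).Prime := fun t => Nat.nth_mem_of_infinite hinf (h t)
  refine ⟨{p | p.Prime ∧ p ∉ Set.range g}, fun p hp => hp.1, ?_, ?_⟩
  · intro m hm
    obtain ⟨t, rfl⟩ := Nat.exists_eq_add_of_le' hm
    have e1 : t + 1 + a (t + 1) - 1 = h t := by
      show t + 1 + a (t + 1) - 1 = t + a (t + 1)
      omega
    rw [e1, Nat.add_sub_cancel]
    set Q : ℕ → Prop := fun p => p.Prime ∧ p ∉ {p | p.Prime ∧ p ∉ Set.range g} with hQ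
    have hQ' : ∀ p, Q p ↔ p ∈ Set.range g := by
      intro p
      rw [hQ]
      constructor
      · rintro ⟨h1, h2⟩
        by_contra h3
        exact h2 ⟨h1, h3⟩
      · rintro ⟨t, rfl⟩
        exact ⟨hgp t, fun h2 => h2.2 ⟨t, rfl⟩⟩
    have hc : Nat.count Q (g t) = t := by
      rw [Nat.count_eq_card_filter_range]
      have h3 : (range (g t)).filter Q = (range t).image g := by
        ext p
        rw [Finset.mem_filter, Finset.mem_range, Finset.mem_image, hQ']
        constructor
        · rintro ⟨h4, s, rfl⟩
          exact ⟨s, Finset.mem_range.2 (hg.lt_iff_lt.1 h4), rfl⟩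
        · rintro ⟨s, hs, rfl⟩
          exact ⟨hg (Finset.mem_range.1 hs), s, rfl⟩
      rw [h3, Finset.card_image_of_injective _ hg.injective, Finset.card_range]
    have h4 := Nat.nth_count (p := Q) ((hQ' (g t)).2 ⟨t, rfl⟩)
    rw [hc] at h4
    exact h4
  · intro x
    set π := Nat.count Nat.Prime (x + 1) with hπ
    have hex : ∃ t, π ≤ h t := ⟨π, by show π ≤ π + a (π + 1); omega⟩
    set t₀ := Nat.find hex with ht₀
    have h1 : π ≤ t₀ + a (t₀ + 1) := Nat.find_spec hex
    have h2 : t₀ ≤ π := Nat.find_min' hex (by show π ≤ π + a (π + 1); omega)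
    have h3 : ∀ t, t < t₀ → h t < π := fun t ht => not_le.1 (Nat.find_min hex ht)
    have hπx : π ≤ x := by
      rw [hπ, Nat.count_eq_card_filter_range]
      have h4 : (range (x + 1)).filter Nat.Prime ⊆ Ioc 0 x := by
        intro p hp
        rw [Finset.mem_filter, Finset.mem_range] at hp
        rw [Finset.mem_Ioc]
        exact ⟨hp.2.pos, by omega⟩
      have h5 := Finset.card_le_card h4
      rwa [Nat.card_Ioc, Nat.sub_zero] at h5
    have h4 : #((range (x + 1)).filter (fun p => p ∈ {p | p.Prime ∧ p ∉ Set.range g})) ≤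
        #(range π \ (range t₀).image h) := by
      apply Finset.card_le_card_of_injOn (fun p => Nat.count Nat.Prime p)
      · intro p hp
        rw [Finset.mem_coe, Finset.mem_filter, Finset.mem_range] at hp
        obtain ⟨hp1, hp2, hp3⟩ := hp
        rw [Finset.mem_coe, Finset.mem_sdiff, Finset.mem_range, Finset.mem_image]
        refine ⟨Nat.count_strict_mono hp2 hp1, ?_⟩
        rintro ⟨t, _, ht⟩
        apply hp3
        refine ⟨t, ?_⟩
        show Nat.nth Nat.Prime (h t) = p
        rw [ht]
        exact Nat.nth_count hp2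
      · intro p hp q hq hpq
        rw [Finset.mem_coe, Finset.mem_filter] at hp hq
        have h5 : Nat.nth Nat.Prime (Nat.count Nat.Prime p) = p := Nat.nth_count hp.2.1
        have h6 : Nat.nth Nat.Prime (Nat.count Nat.Prime q) = q := Nat.nth_count hq.2.1
        have h7 : Nat.count Nat.Prime p = Nat.count Nat.Prime q := hpq
        rw [← h5, h7, h6]
    have h5 : #(range π \ (range t₀).image h) = π - t₀ := by
      rw [Finset.card_sdiff_of_subset, Finset.card_range,
        Finset.card_image_of_injective _ hh.injective, Finset.card_range]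
      intro s hs
      rw [Finset.mem_image] at hs
      obtain ⟨t, ht, rfl⟩ := hs
      rw [Finset.mem_range] at ht ⊢
      exact h3 t ht
    have h6 : a (t₀ + 1) ≤ a (x + 1) := ha (by omega)
    rw [h5] at h4
    have h7 := h4.trans (show π - t₀ ≤ a (x + 1) by omega)
    refine le_trans (le_of_eq ?_) h7
    congr

end PoolTP
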