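import Pool.Agent.Work.MP_c971ef_nt.LS.Wts

set_option autoImplicit false

/-!
# Module RoS (size M): rough numbers `2 k + 1` in intervals of length `y ^ ε`

Definitions `PP z` (odd primes below `z`), `BB z k` (those dividing `2 k + 1`), `ww`, `mw` in `LS/Defs.lean`. As in the proof of `PoolLS.weights` (`LS/Wts.lean`) take
`Pool.Agent.Work.MP_2dba45_nt.Sv.brun_hooley 8` with `b = max b₀ 1`, `P = PP z`, `g p = 1 / p`: weights `lp`, `dp`, and `fm d = lp d - dp d`: `|fm d| ≤ z + 1`,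
`fm d ≠ 0` implies `∏ p ∈ d, p ≤ z ^ B`, `B = 4 b + 10`; for EVERY subset `D` of `PP z`: `∑ d ∈ D.powerset, fm d ≤ if D = ∅ then 1 else 0` (the second inequality `h4`), and
`c / log z ≤ mw z fm` (the last part of `weights`, copy it). Let `θ = ε / (2 * (B + 3))`, `z = ⌊(y : ℝ) ^ θ⌋₊ + 3`. Then
`#{k ∈ Ioc y (y + H) | BB z k = ∅} ≥ ∑ k ∈ Ioc y (y + H), ∑ d ∈ (BB z k).powerset, fm d = ∑ d ∈ (PP z).powerset, fm d * #{k ∈ Ioc y (y + H) | ∏ p ∈ d, p ∣ 2 k + 1}`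
(`d ⊆ BB z k` means that the product divides `2 k + 1`), and the inner number differs from `H / ∏ p ∈ d, p` by at most 1 (one residue class modulo an odd number:
compare the counting lemmas of `LS/Wls.lean`, `LS/Fj.lean`, `US/*.lean`). The sets `d` with `fm d ≠ 0` are determined by the product `≤ z ^ B`. So the number is at least
`H * mw z fm - z ^ B * (z + 1) ≥ c H / log z - (4 y ^ θ) ^ (B + 2) ≥ H / (log y) ^ 2` for large `y`, since `y ^ (θ (B + 2)) ≤ y ^ (ε / 2) ≤ H / y ^ (ε / 2)`. If `BB z k = ∅`, every prime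
`q ∣ 2 k + 1` is odd, so `z ≤ q`, `(y : ℝ) ^ θ ≤ q`; the claim with `c = θ`.
-/

namespace PoolTP

open Finset

private theorem rs_mw (z : ℕ) (f : Finset ℕ → ℝ) :
    PoolLS.mw z f = ∑ d ∈ (PoolLS.PP z).powerset, f d * ∏ p ∈ d, (1 / (p : ℝ)) := by
  unfold PoolLS.mw
  apply Finset.sum_congr rfl
  intro d _
  rw [Nat.cast_prod, Finset.prod_div_distrib, Finset.prod_const_one, mul_one_div]

/-- the lower weights -/
private theorem rs_weights : ∃ (B : ℕ) (c : ℝ), 0 < c ∧ ∀ z : ℕ, 3 ≤ z →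
    ∃ fm : Finset ℕ → ℝ, (∀ d, |fm d| ≤ (z : ℝ) + 1) ∧
      (∀ d, fm d ≠ 0 → ∏ p ∈ d, p ≤ z ^ B) ∧
      (∀ k, PoolLS.ww z fm k ≤ if PoolLS.BB z k = ∅ then 1 else 0) ∧
      c / Real.log z ≤ PoolLS.mw z fm := by
  obtain ⟨b₀, hBH⟩ := Pool.Agent.Work.MP_2dba45_nt.Sv.brun_hooley 8 (by norm_num)
  obtain ⟨c, hc, hlow⟩ := PoolLS.prod_low
  refine ⟨4 * (max b₀ 1) + 10, c / 2, by positivity, ?_⟩
  intro z hz
  have hP : ∀ p ∈ PoolLS.PP z, 2 ≤ p ∧ p < z := by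
    intro p hp
    obtain ⟨h1, h2, h3⟩ := mem_filter.1 hp
    exact ⟨h2.two_le, mem_range.1 h1⟩
  have hg : ∀ p ∈ PoolLS.PP z, 0 ≤ (1 / (p : ℝ)) ∧ (1 / (p : ℝ)) ≤ 1 / 2 := by
    intro p hp
    refine ⟨by positivity, ?_⟩
    exact one_div_le_one_div_of_le (by norm_num) (by exact_mod_cast (hP p hp).1)
  obtain ⟨lp, dp, h1, h2, h3, h4, h5, h6⟩ := hBH (max b₀ 1) (le_max_left _ _) z (PoolLS.PP z)
    (fun p => 1 / (p : ℝ)) (by omega) hP hg (fun y hy => PoolLS.win z y hy)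
  have hBP : ∀ k, PoolLS.BB z k ⊆ PoolLS.PP z := fun k => filter_subset _ _
  have hVpos : 0 ≤ ∏ p ∈ PoolLS.PP z, (1 - (1 : ℝ) / p) :=
    Finset.prod_nonneg fun p hp => by linarith [(hg p hp).2]
  have hexp : Real.exp (-((max b₀ 1 : ℕ) : ℝ)) ≤ 1 / 2 := by
    have h7 : (1 : ℝ) ≤ ((max b₀ 1 : ℕ) : ℝ) := by exact_mod_cast le_max_right b₀ 1
    have h8 : Real.exp (-((max b₀ 1 : ℕ) : ℝ)) ≤ Real.exp (-1) :=
      Real.exp_le_exp.2 (by linarith)
    have h9 : Real.exp (-1) ≤ 1 / 2 := by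
      rw [Real.exp_neg, inv_eq_one_div]
      apply one_div_le_one_div_of_le (by norm_num)
      have := Real.add_one_le_exp (1 : ℝ)
      linarith
    exact h8.trans h9
  refine ⟨fun d => lp d - dp d, ?_, ?_, ?_, ?_⟩
  · intro d
    calc |lp d - dp d| ≤ |lp d| + |dp d| := abs_sub _ _
      _ ≤ 1 + z := add_le_add (h1 d) (h2 d)
      _ = (z : ℝ) + 1 := add_comm _ _
  · intro d hd
    have h7 : lp d ≠ 0 ∨ dp d ≠ 0 := by
      by_contra h8
      push Not at h8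
      apply hd
      simp only [h8.1, h8.2, sub_zero]
    have h8 := (h3 d h7).2
    exact_mod_cast h8
  · intro k
    have h7 := (h4 (PoolLS.BB z k) (hBP k)).2
    unfold PoolLS.ww
    rw [Finset.sum_sub_distrib]
    linarith
  · rw [rs_mw]
    have h8 := hlow z hz
    have h9 : Real.exp (-((max b₀ 1 : ℕ) : ℝ)) * ∏ p ∈ PoolLS.PP z, (1 - (1 : ℝ) / p) ≤
        1 / 2 * ∏ p ∈ PoolLS.PP z, (1 - (1 : ℝ) / p) := mul_le_mul_of_nonneg_right hexp hVpos
    have h10 : ∑ d ∈ (PoolLS.PP z).powerset, (lp d - dp d) * ∏ p ∈ d, (1 / (p : ℝ)) =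
        ∑ d ∈ (PoolLS.PP z).powerset, lp d * ∏ p ∈ d, (1 / (p : ℝ)) -
          ∑ d ∈ (PoolLS.PP z).powerset, dp d * ∏ p ∈ d, (1 / (p : ℝ)) := by
      rw [← Finset.sum_sub_distrib]
      apply Finset.sum_congr rfl
      intro d _
      rw [sub_mul]
    rw [h10]
    have h11 : c / 2 / Real.log z = 1 / 2 * (c / Real.log z) := by ring
    rw [h11]
    linarith

private theorem rs_dvd (d : Finset ℕ) (hd : ∀ p ∈ d, p.Prime ∧ p ≠ 2) (N : ℕ) :
    (∏ p ∈ d, p) ∣ N ↔ ∀ p ∈ d, p ∣ N := by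
  constructor
  · intro h p hp
    exact (Finset.dvd_prod_of_mem (fun p => p) hp).trans h
  · intro h
    exact Finset.prod_primes_dvd N (fun p hp => (hd p hp).1.prime) h

private theorem rs_odd (d : Finset ℕ) (hd : ∀ p ∈ d, p.Prime ∧ p ≠ 2) :
    Odd (∏ p ∈ d, p) := by
  refine Finset.prod_induction _ Odd (fun a b ha hb => ha.mul hb) odd_one fun p hp => ?_
  exact (hd p hp).1.odd_of_ne_two (hd p hp).2

/-- one residue class modulo an odd number in an interval -/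
private theorem rs_count (y H q : ℕ) (hq : Odd q) :
    |(#((Ioc y (y + H)).filter (fun k => q ∣ 2 * k + 1)) : ℝ) - H / q| ≤ 1 := by
  obtain ⟨m, rfl⟩ := hq
  set q := 2 * m + 1 with hqm
  have hq0 : 0 < q := by omega
  have h1 : (Ioc y (y + H)).filter (fun k => q ∣ 2 * k + 1) =
      (Ioc y (y + H)).filter (fun k => k ≡ m [MOD q]) := by
    apply Finset.filter_congr
    intro k _
    rw [Nat.ModEq.comm, Nat.modEq_iff_dvd]
    have hcop : IsCoprime (q : ℤ) 2 := ⟨1, -m, by rw [hqm]; push_cast; ring⟩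
    constructor
    · intro h
      have h2 : ((q : ℕ) : ℤ) ∣ 2 * ((k : ℤ) - m) := by
        have h3 : ((q : ℕ) : ℤ) ∣ ((2 * k + 1 : ℕ) : ℤ) := by exact_mod_cast h
        have h4 : (2 * ((k : ℤ) - m)) = ((2 * k + 1 : ℕ) : ℤ) - (q : ℤ) := by
          rw [hqm]
          push_cast
          ring
        rw [h4]
        exact dvd_sub h3 dvd_rfl
      exact hcop.dvd_of_dvd_mul_left h2
    · intro h
      have h3 : ((q : ℕ) : ℤ) ∣ ((2 * k + 1 : ℕ) : ℤ) := by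
        have h4 : ((2 * k + 1 : ℕ) : ℤ) = 2 * ((k : ℤ) - m) + (q : ℤ) := by
          rw [hqm]
          push_cast
          ring
        rw [h4]
        exact dvd_add (h.mul_left 2) dvd_rfl
      exact_mod_cast h3
  rw [h1]
  have h2 := Nat.Ioc_filter_modEq_card y (y + H) hq0 m
  set N := #((Ioc y (y + H)).filter (fun k => k ≡ m [MOD q])) with hN
  set A : ℤ := ⌊(((y + H : ℕ) : ℚ) - m) / (q : ℚ)⌋ with hA
  set B : ℤ := ⌊((y : ℚ) - m) / (q : ℚ)⌋ with hB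
  have hq0' : (0 : ℚ) < q := by exact_mod_cast hq0
  have hmon : B ≤ A := by
    rw [hA, hB]
    apply Int.floor_le_floor
    apply div_le_div_of_nonneg_right _ hq0'.le
    push_cast
    have : (0 : ℚ) ≤ H := Nat.cast_nonneg H
    linarith
  rw [max_eq_left (by omega)] at h2
  have a1 := Int.floor_le ((((y + H : ℕ) : ℚ) - m) / (q : ℚ))
  have a2 := Int.lt_floor_add_one ((((y + H : ℕ) : ℚ) - m) / (q : ℚ))
  have b1 := Int.floor_le (((y : ℚ) - m) / (q : ℚ))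
  have b2 := Int.lt_floor_add_one (((y : ℚ) - m) / (q : ℚ))
  rw [← hA] at a1 a2
  rw [← hB] at b1 b2
  have e1 : (((y + H : ℕ) : ℚ) - m) / (q : ℚ) = ((y : ℚ) - m) / q + H / q := by
    push_cast
    ring
  rw [e1] at a1 a2
  have h3 : (N : ℚ) = A - B := by exact_mod_cast h2
  have h4 : |(N : ℚ) - H / q| ≤ 1 := by
    rw [h3, abs_le]
    constructor <;> linarith
  have h5 : ((|(N : ℚ) - H / q| : ℚ) : ℝ) ≤ ((1 : ℚ) : ℝ) := by exact_mod_cast h4
  push_cast at h5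
  exact h5

/-- the sum of the weights over an interval -/
private theorem rs_sum (y H z : ℕ) (f : Finset ℕ → ℝ) :
    ∑ k ∈ Ioc y (y + H), PoolLS.ww z f k = ∑ d ∈ (PoolLS.PP z).powerset,
      f d * (#((Ioc y (y + H)).filter (fun k => (∏ p ∈ d, p) ∣ 2 * k + 1)) : ℝ) := by
  have h1 : ∀ k, PoolLS.ww z f k = ∑ d ∈ (PoolLS.PP z).powerset,
      if (∏ p ∈ d, p) ∣ 2 * k + 1 then f d else 0 := by
    intro k
    unfold PoolLS.ww
    rw [← Finset.sum_filter]
    apply Finset.sum_congr _ fun _ _ => rfl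
    ext d
    rw [mem_powerset, mem_filter, mem_powerset]
    constructor
    · intro h
      have h2 : d ⊆ PoolLS.PP z := h.trans (filter_subset _ _)
      refine ⟨h2, ?_⟩
      rw [rs_dvd d (fun p hp => (mem_filter.1 (h2 hp)).2)]
      intro p hp
      exact (mem_filter.1 (h hp)).2
    · rintro ⟨h2, h3⟩
      rw [rs_dvd d (fun p hp => (mem_filter.1 (h2 hp)).2)] at h3
      intro p hp
      exact mem_filter.2 ⟨h2 hp, h3 p hp⟩
  rw [Finset.sum_congr rfl fun k _ => h1 k, Finset.sum_comm]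
  apply Finset.sum_congr rfl
  intro d _
  rw [← Finset.sum_filter, Finset.sum_const, nsmul_eq_mul, mul_comm]

/-- the number of sets of odd primes with bounded product -/
private theorem rs_card (z M : ℕ) :
    #(((PoolLS.PP z).powerset).filter (fun d => ∏ p ∈ d, p ≤ M)) ≤ M := by
  have h1 : #(((PoolLS.PP z).powerset).filter (fun d => ∏ p ∈ d, p ≤ M)) ≤ #(Icc 1 M) := by
    apply Finset.card_le_card_of_injOn (fun d => ∏ p ∈ d, p)
    · intro d hd
      rw [mem_coe, mem_filter, mem_powerset] at hd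
      rw [mem_coe, mem_Icc]
      refine ⟨?_, hd.2⟩
      exact Finset.prod_pos fun p hp => ((mem_filter.1 (hd.1 hp)).2.1).pos
    · intro d hd d' hd' heq
      rw [mem_coe, mem_filter, mem_powerset] at hd hd'
      have key : ∀ e e' : Finset ℕ, e ⊆ PoolLS.PP z → e' ⊆ PoolLS.PP z →
          ∏ p ∈ e, p = ∏ p ∈ e', p → e ⊆ e' := by
        intro e e' he he' hee p hp
        have h2 : p ∣ ∏ p ∈ e', p := by
          rw [← hee]
          exact Finset.dvd_prod_of_mem (fun p => p) hp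
        have hpp : p.Prime := (mem_filter.1 (he hp)).2.1
        obtain ⟨r, hr, hpr⟩ := (hpp.prime.dvd_finset_prod_iff (fun p => p)).1 h2
        have hrp : r.Prime := (mem_filter.1 (he' hr)).2.1
        rw [(Nat.prime_dvd_prime_iff_eq hpp hrp).1 hpr]
        exact hr
      exact Subset.antisymm (key _ _ hd.1 hd'.1 heq) (key _ _ hd'.1 hd.1 heq.symm)
  simpa using h1

/-- the sieve lower bound -/
private theorem rs_sieve (B : ℕ) (c : ℝ) (z y H : ℕ) (fm : Finset ℕ → ℝ)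
    (h1 : ∀ d, |fm d| ≤ (z : ℝ) + 1) (h2 : ∀ d, fm d ≠ 0 → ∏ p ∈ d, p ≤ z ^ B)
    (h3 : ∀ k, PoolLS.ww z fm k ≤ if PoolLS.BB z k = ∅ then 1 else 0)
    (h4 : c / Real.log z ≤ PoolLS.mw z fm) :
    H * (c / Real.log z) - (z : ℝ) ^ B * (z + 1) ≤
      (#((Ioc y (y + H)).filter (fun k => PoolLS.BB z k = ∅)) : ℝ) := by
  have e1 : (∑ k ∈ Ioc y (y + H), PoolLS.ww z fm k) ≤
      (#((Ioc y (y + H)).filter (fun k => PoolLS.BB z k = ∅)) : ℝ) := by
    rw [Finset.card_filter]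
    push_cast
    exact Finset.sum_le_sum fun k _ => h3 k
  refine le_trans ?_ e1
  rw [rs_sum]
  have e2 : (H : ℝ) * (c / Real.log z) ≤ H * PoolLS.mw z fm :=
    mul_le_mul_of_nonneg_left h4 (Nat.cast_nonneg H)
  have e3 : |∑ d ∈ (PoolLS.PP z).powerset, fm d *
      (#((Ioc y (y + H)).filter (fun k => (∏ p ∈ d, p) ∣ 2 * k + 1)) : ℝ) -
      H * PoolLS.mw z fm| ≤ (z : ℝ) ^ B * (z + 1) := by
    unfold PoolLS.mw
    rw [Finset.mul_sum, ← Finset.sum_sub_distrib]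
    refine (Finset.abs_sum_le_sum_abs _ _).trans ?_
    have e4 : ∀ d ∈ (PoolLS.PP z).powerset, |fm d *
        (#((Ioc y (y + H)).filter (fun k => (∏ p ∈ d, p) ∣ 2 * k + 1)) : ℝ) -
        H * (fm d / ((∏ p ∈ d, p : ℕ) : ℝ))| ≤ if ∏ p ∈ d, p ≤ z ^ B then (z : ℝ) + 1 else 0 := by
      intro d hd
      rw [mem_powerset] at hd
      have e5 : fm d * (#((Ioc y (y + H)).filter (fun k => (∏ p ∈ d, p) ∣ 2 * k + 1)) : ℝ) -
          H * (fm d / ((∏ p ∈ d, p : ℕ) : ℝ)) =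
          fm d * ((#((Ioc y (y + H)).filter (fun k => (∏ p ∈ d, p) ∣ 2 * k + 1)) : ℝ) -
            H / ((∏ p ∈ d, p : ℕ) : ℝ)) := by ring
      rw [e5, abs_mul]
      have e6 := rs_count y H (∏ p ∈ d, p) (rs_odd d fun p hp => (mem_filter.1 (hd hp)).2)
      by_cases hf : fm d = 0
      · rw [hf, abs_zero, zero_mul]
        split_ifs
        · positivity
        · exact le_refl _
      · rw [if_pos (h2 d hf)]
        calc |fm d| * |(#((Ioc y (y + H)).filter (fun k => (∏ p ∈ d, p) ∣ 2 * k + 1)) : ℝ) -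
            H / ((∏ p ∈ d, p : ℕ) : ℝ)| ≤ ((z : ℝ) + 1) * 1 :=
              mul_le_mul (h1 d) e6 (abs_nonneg _) (by positivity)
          _ = (z : ℝ) + 1 := mul_one _
    refine (Finset.sum_le_sum e4).trans ?_
    rw [← Finset.sum_filter, Finset.sum_const, nsmul_eq_mul]
    have e7 : ((#(((PoolLS.PP z).powerset).filter (fun d => ∏ p ∈ d, p ≤ z ^ B)) : ℕ) : ℝ) ≤
        (z : ℝ) ^ B := by exact_mod_cast rs_card z (z ^ B)
    exact mul_le_mul_of_nonneg_right e7 (by positivity)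
  have e8 := (abs_le.1 e3).1
  linarith

/-- the inequality for large `y` -/
private theorem rs_large (B : ℕ) (c ε θ : ℝ) (hc : 0 < c) (hε : 0 < ε)
    (hθ : θ = ε / (2 * (B + 3))) (hε1 : ε ≤ 1) : ∃ y₀ : ℕ, ∀ y H : ℕ, y₀ ≤ y → (y : ℝ) ^ ε ≤ H →
    (H : ℝ) / (Real.log y) ^ 2 ≤
      H * (c / Real.log ((⌊(y : ℝ) ^ θ⌋₊ + 3 : ℕ) : ℝ)) -
        (((⌊(y : ℝ) ^ θ⌋₊ + 3 : ℕ) : ℝ)) ^ B * (((⌊(y : ℝ) ^ θ⌋₊ + 3 : ℕ) : ℝ) + 1) := by
  have hθ0 : 0 < θ := by rw [hθ]; positivity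
  have hθ1 : θ ≤ 1 := by
    rw [hθ, div_le_one (by positivity)]
    have : (0 : ℝ) ≤ B := Nat.cast_nonneg B
    linarith
  have hθB : θ * (B + 1) ≤ ε / 2 := by
    have hB : (0 : ℝ) ≤ B := Nat.cast_nonneg B
    rw [hθ]
    have : ε / (2 * (B + 3)) * (B + 1) = ε / 2 * ((B + 1) / (B + 3)) := by
      field_simp
    rw [this]
    have h2 : ((B : ℝ) + 1) / (B + 3) ≤ 1 := by
      rw [div_le_one (by positivity)]
      linarith
    calc ε / 2 * (((B : ℝ) + 1) / (B + 3)) ≤ ε / 2 * 1 :=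
          mul_le_mul_of_nonneg_left h2 (by positivity)
      _ = ε / 2 := mul_one _
  have hlo : ∀ᶠ x : ℝ in Filter.atTop, Real.log x ≤ c / (4 * 5 ^ (B + 1)) * x ^ (ε / 2) := by
    have h1 := (isLittleO_log_rpow_atTop (show 0 < ε / 2 by positivity)).def
      (show 0 < c / (4 * 5 ^ (B + 1)) by positivity)
    filter_upwards [h1, Filter.eventually_ge_atTop 1] with x hx hx1
    rw [Real.norm_eq_abs, Real.norm_eq_abs, abs_of_nonneg (Real.log_nonneg hx1),
      abs_of_nonneg (by positivity)] at hx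
    exact hx
  have hlg : ∀ᶠ x : ℝ in Filter.atTop, max (4 / c) (Real.log 4) + 1 ≤ Real.log x :=
    Real.tendsto_log_atTop.eventually_ge_atTop _
  have hall := (tendsto_natCast_atTop_atTop (R := ℝ)).eventually
    ((hlo.and hlg).and (Filter.eventually_ge_atTop (4 : ℝ)))
  obtain ⟨y₀, hy₀⟩ := Filter.eventually_atTop.1 hall
  refine ⟨y₀, fun y H hy hH => ?_⟩
  obtain ⟨⟨l1, l2⟩, l3⟩ := hy₀ y hy
  set z : ℕ := ⌊(y : ℝ) ^ θ⌋₊ + 3 with hz
  have hy1 : (1 : ℝ) ≤ y := by linarith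
  have hy0 : (0 : ℝ) < y := by linarith
  have hyθ : 1 ≤ (y : ℝ) ^ θ := Real.one_le_rpow hy1 hθ0.le
  have hz1 : (z : ℝ) ≤ 4 * (y : ℝ) ^ θ := by
    have := Nat.floor_le (show 0 ≤ (y : ℝ) ^ θ by positivity)
    rw [hz]
    push_cast
    linarith
  have hz3 : (3 : ℝ) ≤ z := by
    rw [hz]
    push_cast
    have : (0 : ℝ) ≤ ⌊(y : ℝ) ^ θ⌋₊ := Nat.cast_nonneg _
    linarith
  have hlz : 0 < Real.log z := Real.log_pos (by linarith)
  have hly4 : Real.log 4 ≤ Real.log y := Real.log_le_log (by norm_num) l3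
  have hly : 0 < Real.log y := lt_of_lt_of_le (Real.log_pos (by norm_num)) hly4
  have hlz2 : Real.log z ≤ 2 * Real.log y := by
    calc Real.log z ≤ Real.log (4 * (y : ℝ) ^ θ) := Real.log_le_log (by linarith) hz1
      _ = Real.log 4 + θ * Real.log y := by
          rw [Real.log_mul (by norm_num) (by positivity), Real.log_rpow hy0]
      _ ≤ Real.log y + 1 * Real.log y := add_le_add hly4 (mul_le_mul_of_nonneg_right hθ1 hly.le)
      _ = 2 * Real.log y := by ring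
  have k1 : c / (2 * Real.log y) ≤ c / Real.log z :=
    div_le_div_of_nonneg_left hc.le hlz hlz2
  have k2 : (z : ℝ) ^ B * (z + 1) ≤ 5 ^ (B + 1) * (y : ℝ) ^ (ε / 2) := by
    have m1 : (z : ℝ) ≤ 5 * (y : ℝ) ^ θ := by linarith
    have m2 : (z : ℝ) + 1 ≤ 5 * (y : ℝ) ^ θ := by linarith
    calc (z : ℝ) ^ B * (z + 1) ≤ (5 * (y : ℝ) ^ θ) ^ B * (5 * (y : ℝ) ^ θ) := by
          apply mul_le_mul _ m2 (by positivity) (by positivity)
          exact pow_le_pow_left₀ (by positivity) m1 B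
      _ = 5 ^ (B + 1) * ((y : ℝ) ^ θ) ^ (B + 1) := by
          rw [← pow_succ, mul_pow]
      _ = 5 ^ (B + 1) * (y : ℝ) ^ (θ * (B + 1)) := by
          rw [← Real.rpow_natCast ((y : ℝ) ^ θ) (B + 1), ← Real.rpow_mul hy0.le]
          push_cast
          rfl
      _ ≤ 5 ^ (B + 1) * (y : ℝ) ^ (ε / 2) := by
          apply mul_le_mul_of_nonneg_left _ (by positivity)
          exact Real.rpow_le_rpow_of_exponent_le hy1 hθB
  have k3 : 4 / c ≤ Real.log y := by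
    have := le_max_left (4 / c) (Real.log 4)
    linarith
  have k4 : 1 / (Real.log y) ^ 2 ≤ c / (4 * Real.log y) := by
    rw [div_le_div_iff₀ (by positivity) (by positivity)]
    rw [div_le_iff₀ hc] at k3
    nlinarith
  have k5 : 5 ^ (B + 1) * (y : ℝ) ^ (ε / 2) ≤ H * (c / (4 * Real.log y)) := by
    have n1 : (y : ℝ) ^ ε = (y : ℝ) ^ (ε / 2) * (y : ℝ) ^ (ε / 2) := by
      rw [← Real.rpow_add hy0]
      ring_nf
    have n2 : 5 ^ (B + 1) * (4 * Real.log y) ≤ c * (y : ℝ) ^ (ε / 2) := by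
      have : 5 ^ (B + 1) * (4 * Real.log y) ≤
          5 ^ (B + 1) * (4 * (c / (4 * 5 ^ (B + 1)) * (y : ℝ) ^ (ε / 2))) := by
        apply mul_le_mul_of_nonneg_left _ (by positivity)
        linarith
      refine this.trans (le_of_eq ?_)
      field_simp
    have n3 : 5 ^ (B + 1) * (y : ℝ) ^ (ε / 2) * (4 * Real.log y) ≤ H * c := by
      calc 5 ^ (B + 1) * (y : ℝ) ^ (ε / 2) * (4 * Real.log y)
          = (y : ℝ) ^ (ε / 2) * (5 ^ (B + 1) * (4 * Real.log y)) := by ring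
        _ ≤ (y : ℝ) ^ (ε / 2) * (c * (y : ℝ) ^ (ε / 2)) :=
            mul_le_mul_of_nonneg_left n2 (by positivity)
        _ = (y : ℝ) ^ ε * c := by rw [n1]; ring
        _ ≤ H * c := mul_le_mul_of_nonneg_right hH hc.le
    rw [mul_div_assoc', le_div_iff₀ (by positivity)]
    exact n3
  have hH0 : (0 : ℝ) ≤ H := Nat.cast_nonneg H
  have k6 : (H : ℝ) / (Real.log y) ^ 2 ≤ H * (c / (4 * Real.log y)) := by
    have := mul_le_mul_of_nonneg_left k4 hH0
    rw [mul_one_div] at this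
    exact this
  have k7 : (H : ℝ) * (c / (2 * Real.log y)) ≤ H * (c / Real.log z) :=
    mul_le_mul_of_nonneg_left k1 hH0
  have k8 : (H : ℝ) * (c / (2 * Real.log y)) =
      H * (c / (4 * Real.log y)) + H * (c / (4 * Real.log y)) := by
    field_simp
    ring
  linarith

open Classical in
theorem rough_short (ε : ℝ) (hε : 0 < ε) (hε1 : ε ≤ 1) : ∃ (c : ℝ) (y₀ : ℕ), 0 < c ∧ ∀ y H : ℕ,
    y₀ ≤ y → (y : ℝ) ^ ε ≤ H → H ≤ y → (H : ℝ) / (Real.log y) ^ 2 ≤
      (#((Ioc y (y + H)).filter (fun k => ∀ q : ℕ, q.Prime → q ∣ 2 * k + 1 → (y : ℝ) ^ c ≤ q)) : ℝ) := by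
  obtain ⟨B, c, hc, hw⟩ := rs_weights
  have hθ0 : 0 < ε / (2 * ((B : ℝ) + 3)) := by positivity
  obtain ⟨y₀, hy₀⟩ := rs_large B c ε (ε / (2 * (B + 3))) hc hε rfl hε1
  refine ⟨ε / (2 * (B + 3)), y₀, hθ0, fun y H hy hH _ => ?_⟩
  set θ : ℝ := ε / (2 * (B + 3)) with hθ
  set z : ℕ := ⌊(y : ℝ) ^ θ⌋₊ + 3 with hz
  obtain ⟨fm, h1, h2, h3, h4⟩ := hw z (by omega)
  refine (hy₀ y H hy hH).trans ((rs_sieve B c z y H fm h1 h2 h3 h4).trans ?_)
  have hsub : (Ioc y (y + H)).filter (fun k => PoolLS.BB z k = ∅) ⊆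
      (Ioc y (y + H)).filter (fun k => ∀ q : ℕ, q.Prime → q ∣ 2 * k + 1 → (y : ℝ) ^ θ ≤ q) := by
    intro k hk
    rw [mem_filter] at hk ⊢
    refine ⟨hk.1, fun q hq hqk => ?_⟩
    by_contra hlt
    rw [not_le] at hlt
    have hqz : q < z := by
      have h5 : (q : ℝ) < z := by
        refine hlt.trans ?_
        rw [hz]
        push_cast
        have := Nat.lt_floor_add_one ((y : ℝ) ^ θ)
        linarith
      exact_mod_cast h5
    have hmem : q ∈ PoolLS.BB z k := by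
      unfold PoolLS.BB PoolLS.PP
      rw [mem_filter, mem_filter, mem_range]
      refine ⟨⟨hqz, hq, ?_⟩, hqk⟩
      rintro rfl
      omega
    rw [hk.2] at hmem
    simp at hmem
  have hcard := Finset.card_le_card hsub
  have h6 : ((#((Ioc y (y + H)).filter (fun k => PoolLS.BB z k = ∅)) : ℕ) : ℝ) ≤
      ((#((Ioc y (y + H)).filter
        (fun k => ∀ q : ℕ, q.Prime → q ∣ 2 * k + 1 → (y : ℝ) ^ θ ≤ q)) : ℕ) : ℝ) := by
    exact_mod_cast hcard
  convert h6 using 3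

end PoolTP
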