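import Pool.Agent.Work.MP_c971ef_nt.TP.PrS
import Pool.Agent.Work.MP_c971ef_nt.TP.RoS

set_option autoImplicit false

/-!
# Module Tri (size M): multiples of `n` with the condition on `k` in intervals

`hw_gen`: the `k` of `Ioc (y / n) (y / n + A / n)` satisfy `y < k * n ≤ y + A`; `A / n ≥ A / (2 n) ≥ A / 2 ^ (i + 3)` (real numbers, `A ≥ 2 ^ (i + 3) ≥ 2 n`), and
`log (y / n) ≤ log (2 ^ (i + 1)) ≤ i` (`y / n ≤ 4 ^ (i + 1) / 2 ^ (i + 1)`), so the number is `≥ A / (2 ^ (i + 3) i ^ 2) ≥ A / (2 ^ i i ^ 3)` for `i ≥ 8` (if `log (y/n) = 0`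
the left side of `h` is 0 in Lean, but `y / n ≥ 2 ^ (i - 2) ≥ 2`).
`hw_prime`: `prime_short (B + 1)` with `y / n`, `A / n` instead of `y`, `H`: `2 ^ (i - 2) ≤ y / n ≤ 2 ^ (i + 1)`; `H = A / n`: if `H ≤ y / n` it is applied directly; in general
use `H' = min (A / n) (y / n)`: `A ≤ 4 ^ (i + 1)` (from `y + A ≤ 4 ^ (i + 1)`), so `A / n ≤ 2 ^ (i + 1) ≤ 8 * (y / n) + 8`, and `H' ≥ (A / n) / 16`: the loss of the constant factor is absorbed by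
`i ^ 3` against `i ^ 2` for large `i`. The condition `(y / n) / (log (y / n)) ^ (B + 1) ≤ H'`: `A / n ≥ 4 ^ i / (i ^ B 2 ^ (i + 3)) = 2 ^ (i - 3) / i ^ B`, and
`(y / n) / (log (y / n)) ^ (B + 1) ≤ 2 ^ (i + 1) / ((i - 2) / 2) ^ (B + 1)` (`log 2 ≥ 1/2`).
`hw_rough`: `rough_short (ε / 2)`, the same way: `A / n ≥ 2 ^ ((1 + ε) i) / 2 ^ (i + 3)`, `(y / n) ^ (ε / 2) ≤ 2 ^ ((i + 1) ε / 2)`; and
`(2 ^ i) ^ (c / 2) ≤ (y / n) ^ c` because `y / n ≥ 2 ^ (i - 2)`, so the new constant is `c / 2`.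
-/

namespace PoolTP

open Finset Filter

private theorem tri_bounds (i A n y : ℕ) (hi : 3 ≤ i) (hA : 2 ^ (i + 3) ≤ A)
    (hn : n ∈ Ioc (2 ^ (i + 1)) (2 ^ (i + 2))) (hy : 4 ^ i ≤ y) (hyA : y + A ≤ 4 ^ (i + 1)) :
    0 < n ∧ 2 ^ (i - 2) ≤ y / n ∧ y / n ≤ 2 ^ (i + 1) ∧ A / n ≤ 8 * (y / n) ∧
      (A : ℝ) ≤ 2 ^ (i + 3) * ((A / n : ℕ) : ℝ) := by
  rw [mem_Ioc] at hn
  obtain ⟨hn1, hn2⟩ := hn
  have hn0 : 0 < n := lt_of_le_of_lt (Nat.zero_le _) hn1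
  have e4 : (4 : ℕ) ^ i = 2 ^ i * 2 ^ i := by
    rw [← mul_pow]
    norm_num
  have e4' : (4 : ℕ) ^ (i + 1) = 2 ^ (i + 1) * 2 ^ (i + 1) := by
    rw [← mul_pow]
    norm_num
  have h1 : 2 ^ (i - 2) ≤ y / n := by
    rw [Nat.le_div_iff_mul_le hn0]
    refine le_trans ?_ hy
    calc 2 ^ (i - 2) * n ≤ 2 ^ (i - 2) * 2 ^ (i + 2) := Nat.mul_le_mul_left _ hn2
      _ = 4 ^ i := by
        rw [← pow_add, e4, ← pow_add]
        congr 1
        omega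
  have h2 : y / n ≤ 2 ^ (i + 1) := by
    apply Nat.div_le_of_le_mul
    calc y ≤ 4 ^ (i + 1) := by omega
      _ = 2 ^ (i + 1) * 2 ^ (i + 1) := e4'
      _ ≤ n * 2 ^ (i + 1) := Nat.mul_le_mul_right _ hn1.le
  have h3 : A / n ≤ 8 * (y / n) := by
    have h4 : A / n ≤ 2 ^ (i + 1) := by
      apply Nat.div_le_of_le_mul
      calc A ≤ 4 ^ (i + 1) := by omega
        _ = 2 ^ (i + 1) * 2 ^ (i + 1) := e4'
        _ ≤ n * 2 ^ (i + 1) := Nat.mul_le_mul_right _ hn1.le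
    have h5 : 2 ^ (i + 1) = 8 * 2 ^ (i - 2) := by
      rw [show (8 : ℕ) = 2 ^ 3 by norm_num, ← pow_add]
      congr 1
      omega
    omega
  refine ⟨hn0, h1, h2, h3, ?_⟩
  have h4 : A < n * (A / n + 1) := Nat.lt_mul_div_succ A hn0
  have h5 : 1 ≤ A / n := by
    rw [Nat.le_div_iff_mul_le hn0, one_mul]
    refine hn2.trans (le_trans ?_ hA)
    exact Nat.pow_le_pow_right (by norm_num) (by omega)
  have h6 : A ≤ 2 ^ (i + 3) * (A / n) := by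
    calc A ≤ n * (A / n + 1) := h4.le
      _ ≤ 2 ^ (i + 2) * (A / n + 1) := Nat.mul_le_mul_right _ hn2
      _ ≤ 2 ^ (i + 2) * (2 * (A / n)) := Nat.mul_le_mul_left _ (by omega)
      _ = 2 ^ (i + 3) * (A / n) := by ring
  exact_mod_cast h6

private theorem tri_log (i n y : ℕ) (hi : 6 ≤ i) (h1 : 2 ^ (i - 2) ≤ y / n)
    (h2 : y / n ≤ 2 ^ (i + 1)) : (i : ℝ) / 3 ≤ Real.log ((y / n : ℕ) : ℝ) ∧
      Real.log ((y / n : ℕ) : ℝ) ≤ i := by
  have hl1 : (1 : ℝ) / 2 ≤ Real.log 2 := by linarith [Real.log_two_gt_d9]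
  have hl2 : Real.log 2 ≤ 7 / 10 := by linarith [Real.log_two_lt_d9]
  have hir : (6 : ℝ) ≤ i := by exact_mod_cast hi
  have h3 : ((2 : ℝ) ^ (i - 2)) ≤ ((y / n : ℕ) : ℝ) := by exact_mod_cast h1
  have h4 : ((y / n : ℕ) : ℝ) ≤ (2 : ℝ) ^ (i + 1) := by exact_mod_cast h2
  have h0 : (0 : ℝ) < ((y / n : ℕ) : ℝ) := lt_of_lt_of_le (by positivity) h3
  constructor
  · have h5 := Real.log_le_log (by positivity) h3
    rw [Real.log_pow, Nat.cast_sub (by omega)] at h5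
    refine le_trans ?_ h5
    push_cast
    nlinarith
  · have h5 := Real.log_le_log h0 h4
    rw [Real.log_pow] at h5
    refine h5.trans ?_
    push_cast
    nlinarith

open Classical in
theorem hw_gen (i A n y : ℕ) (K : ℕ → Prop) (hi : 40 ≤ i) (hA : 2 ^ (i + 3) ≤ A)
    (hn : n ∈ Ioc (2 ^ (i + 1)) (2 ^ (i + 2))) (hy : 4 ^ i ≤ y) (hyA : y + A ≤ 4 ^ (i + 1))
    {b : ℝ} (hb : 0 ≤ b) (hH : ((A / n : ℕ) : ℝ) ≤ b * i *
      (Real.log ((y / n : ℕ) : ℝ)) ^ 2 * (#((Ioc (y / n) (y / n + A / n)).filter K) : ℝ)) :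
    (A : ℝ) ≤ 8 * b * 2 ^ i * (i : ℝ) ^ 3 *
      (#((range (4 ^ (i + 1) + 1)).filter (fun k => K k ∧ y < k * n ∧ k * n ≤ y + A)) : ℝ) := by
  obtain ⟨hn0, h1, h2, h3, h4⟩ := tri_bounds i A n y (by omega) hA hn hy hyA
  obtain ⟨hl1, hl2⟩ := tri_log i n y (by omega) h1 h2
  have hir : (40 : ℝ) ≤ i := by exact_mod_cast hi
  have hsub : (Ioc (y / n) (y / n + A / n)).filter K ⊆
      (range (4 ^ (i + 1) + 1)).filter (fun k => K k ∧ y < k * n ∧ k * n ≤ y + A) := by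
    intro k hk
    rw [mem_filter, mem_Ioc] at hk
    rw [mem_filter, mem_range]
    obtain ⟨⟨h5, h6⟩, h7⟩ := hk
    have h8 : y < k * n := (Nat.div_lt_iff_lt_mul hn0).1 h5
    have h9 : k * n ≤ y + A := by
      calc k * n ≤ (y / n + A / n) * n := Nat.mul_le_mul_right _ h6
        _ = y / n * n + A / n * n := Nat.add_mul _ _ _
        _ ≤ y + A := Nat.add_le_add (Nat.div_mul_le_self _ _) (Nat.div_mul_le_self _ _)
    have h10 : k ≤ k * n := Nat.le_mul_of_pos_right k hn0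
    exact ⟨by omega, h7, h8, h9⟩
  have hcard : (#((Ioc (y / n) (y / n + A / n)).filter K) : ℝ) ≤
      (#((range (4 ^ (i + 1) + 1)).filter (fun k => K k ∧ y < k * n ∧ k * n ≤ y + A)) : ℝ) :=
    Nat.cast_le.2 (card_le_card hsub)
  set Q : ℝ := (#((range (4 ^ (i + 1) + 1)).filter
    (fun k => K k ∧ y < k * n ∧ k * n ≤ y + A)) : ℝ) with hQ
  have hQ0 : 0 ≤ Q := Nat.cast_nonneg _
  have hsq : (Real.log ((y / n : ℕ) : ℝ)) ^ 2 ≤ (i : ℝ) ^ 2 := pow_le_pow_left₀ (by linarith) hl2 2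
  calc (A : ℝ) ≤ 2 ^ (i + 3) * ((A / n : ℕ) : ℝ) := h4
    _ ≤ 2 ^ (i + 3) * (b * i * (Real.log ((y / n : ℕ) : ℝ)) ^ 2 *
        (#((Ioc (y / n) (y / n + A / n)).filter K) : ℝ)) :=
        mul_le_mul_of_nonneg_left hH (by positivity)
    _ ≤ 2 ^ (i + 3) * (b * i * (i : ℝ) ^ 2 * Q) := by
        apply mul_le_mul_of_nonneg_left _ (by positivity)
        apply mul_le_mul _ hcard (Nat.cast_nonneg _) (by positivity)
        exact mul_le_mul_of_nonneg_left hsq (by positivity)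
    _ = 8 * b * 2 ^ i * (i : ℝ) ^ 3 * Q := by ring

open Classical in
private theorem tri_core (i A n y : ℕ) (K : ℕ → Prop) (hi : 128 ≤ i) (hA : 2 ^ (i + 3) ≤ A)
    (hn : n ∈ Ioc (2 ^ (i + 1)) (2 ^ (i + 2))) (hy : 4 ^ i ≤ y) (hyA : y + A ≤ 4 ^ (i + 1))
    (h : ((min (A / n) (y / n) : ℕ) : ℝ) / (Real.log ((y / n : ℕ) : ℝ)) ^ 2 ≤
      (#((Ioc (y / n) (y / n + min (A / n) (y / n))).filter K) : ℝ)) :
    (A : ℝ) / (2 ^ i * (i : ℝ) ^ 3) ≤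
      (#((range (4 ^ (i + 1) + 1)).filter (fun k => K k ∧ y < k * n ∧ k * n ≤ y + A)) : ℝ) := by
  obtain ⟨hn0, h1, h2, h3, h4⟩ := tri_bounds i A n y (by omega) hA hn hy hyA
  obtain ⟨hl1, hl2⟩ := tri_log i n y (by omega) h1 h2
  have hir : (128 : ℝ) ≤ i := by exact_mod_cast hi
  have hlpos : 0 < Real.log ((y / n : ℕ) : ℝ) := by linarith
  have hsub : (Ioc (y / n) (y / n + min (A / n) (y / n))).filter K ⊆
      (Ioc (y / n) (y / n + A / n)).filter K := by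
    intro k hk
    rw [mem_filter, mem_Ioc] at hk ⊢
    have := min_le_left (A / n) (y / n)
    exact ⟨⟨hk.1.1, by omega⟩, hk.2⟩
  have hcard : (#((Ioc (y / n) (y / n + min (A / n) (y / n))).filter K) : ℝ) ≤
      (#((Ioc (y / n) (y / n + A / n)).filter K) : ℝ) := Nat.cast_le.2 (card_le_card hsub)
  have h5 : A / n ≤ 8 * min (A / n) (y / n) := by
    rcases le_total (A / n) (y / n) with h6 | h6
    · rw [min_eq_left h6]; omega
    · rw [min_eq_right h6]; exact h3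
  have h5r : ((A / n : ℕ) : ℝ) ≤ 8 * ((min (A / n) (y / n) : ℕ) : ℝ) := by exact_mod_cast h5
  have h6 := h.trans hcard
  rw [div_le_iff₀ (by positivity)] at h6
  have hQ0 : (0 : ℝ) ≤ (#((Ioc (y / n) (y / n + A / n)).filter K) : ℝ) := Nat.cast_nonneg _
  have h7 := hw_gen i A n y K (by omega) hA hn hy hyA (b := 1 / 8) (by norm_num) (by
    calc ((A / n : ℕ) : ℝ) ≤ 8 * ((#((Ioc (y / n) (y / n + A / n)).filter K) : ℝ) *
          (Real.log ((y / n : ℕ) : ℝ)) ^ 2) := by linarith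
      _ = 8 * (Real.log ((y / n : ℕ) : ℝ)) ^ 2 *
          (#((Ioc (y / n) (y / n + A / n)).filter K) : ℝ) := by ring
      _ ≤ _ := by
        apply mul_le_mul_of_nonneg_right _ hQ0
        apply mul_le_mul_of_nonneg_right _ (by positivity)
        linarith)
  rw [div_le_iff₀ (by positivity)]
  calc (A : ℝ) ≤ _ := h7
    _ = _ := by ring

private theorem tri_inst {α : Type*} (s : Finset α) (p : α → Prop) (i1 i2 : DecidablePred p) :
    #(@filter α p i1 s) = #(@filter α p i2 s) := by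
  have h : i1 = i2 := Subsingleton.elim _ _
  rw [h]

private theorem tri_ev1 (B : ℕ) : ∀ᶠ i : ℕ in atTop, (2 : ℝ) ^ (i + 3) ≤ 4 ^ i / (i : ℝ) ^ B := by
  have h1 : Tendsto (fun i : ℕ => (i : ℝ) ^ B / 2 ^ i) atTop (nhds 0) :=
    tendsto_pow_const_div_const_pow_of_one_lt B (by norm_num)
  have h2 := (h1.eventually_le_const (show (0 : ℝ) < 1 / 8 by norm_num))
  filter_upwards [h2, eventually_ge_atTop 1] with i hi hi1
  have hi0 : (0 : ℝ) < i := by exact_mod_cast hi1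
  rw [le_div_iff₀ (by positivity)]
  rw [div_le_iff₀ (by positivity)] at hi
  have e : (4 : ℝ) ^ i = 2 ^ i * 2 ^ i := by rw [← mul_pow]; norm_num
  rw [e, pow_add]
  have h2i : (0 : ℝ) < 2 ^ i := by positivity
  nlinarith

open Classical in
theorem hw_prime (B : ℕ) : ∀ᶠ i : ℕ in atTop, ∀ A : ℕ, (4 : ℝ) ^ i / (i : ℝ) ^ B ≤ A →
    ∀ n ∈ Ioc (2 ^ (i + 1)) (2 ^ (i + 2)), ∀ y, 4 ^ i ≤ y → y + A ≤ 4 ^ (i + 1) →
    (A : ℝ) / (2 ^ i * (i : ℝ) ^ 3) ≤ (#((range (4 ^ (i + 1) + 1)).filter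
      (fun k => (2 * k + 1).Prime ∧ y < k * n ∧ k * n ≤ y + A)) : ℝ) := by
  obtain ⟨y₀, hy₀⟩ := prime_short (B + 1)
  filter_upwards [tri_ev1 B, eventually_ge_atTop (16 * 3 ^ (B + 1) + 128 + (y₀ + 2))]
    with i hi1 hi2
  intro A hA n hn y hy hyA
  have hir : (16 * 3 ^ (B + 1) + 128 : ℝ) ≤ i := by
    exact_mod_cast (by omega : 16 * 3 ^ (B + 1) + 128 ≤ i)
  have hi0 : (0 : ℝ) < i := lt_of_lt_of_le (by positivity) hir
  have hA' : 2 ^ (i + 3) ≤ A := by exact_mod_cast hi1.trans hA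
  obtain ⟨hn0, h1, h2, h3, h4⟩ := tri_bounds i A n y (by omega) hA' hn hy hyA
  obtain ⟨hl1, hl2⟩ := tri_log i n y (by omega) h1 h2
  have hlog1 : 1 ≤ Real.log ((y / n : ℕ) : ℝ) := by
    have : (0 : ℝ) ≤ 3 ^ (B + 1) := by positivity
    linarith
  have hi128 : 128 ≤ i := by omega
  have hkey := hy₀ (y / n) (min (A / n) (y / n)) ?_ ?_ (min_le_right _ _)
  · refine le_of_le_of_eq (tri_core i A n y (fun k => (2 * k + 1).Prime) hi128 hA' hn hy hyA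
      (le_of_le_of_eq hkey (congrArg Nat.cast (tri_inst _ _ _ _))))
      (congrArg Nat.cast (tri_inst _ _ _ _))
  · have h5 : i - 2 < 2 ^ (i - 2) := Nat.lt_two_pow_self
    omega
  · have hy0 : (0 : ℝ) ≤ ((y / n : ℕ) : ℝ) := Nat.cast_nonneg _
    rcases le_total (A / n) (y / n) with h6 | h6
    · rw [min_eq_left h6]
      have h7 : (4 : ℝ) ^ i / (i : ℝ) ^ B ≤ 2 ^ (i + 3) * ((A / n : ℕ) : ℝ) := hA.trans h4
      have h8 : ((y / n : ℕ) : ℝ) ≤ 2 ^ (i + 1) := by exact_mod_cast h2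
      have h9 : ((i : ℝ) / 3) ^ (B + 1) ≤ (Real.log ((y / n : ℕ) : ℝ)) ^ (B + 1) :=
        pow_le_pow_left₀ (by positivity) hl1 _
      rw [div_le_iff₀ (by positivity)]
      have e : (4 : ℝ) ^ i = 2 ^ i * 2 ^ i := by rw [← mul_pow]; norm_num
      have h10 : (2 : ℝ) ^ i ≤ 8 * (i : ℝ) ^ B * ((A / n : ℕ) : ℝ) := by
        rw [div_le_iff₀ (by positivity), e] at h7
        have h2i : (0 : ℝ) < 2 ^ i := by positivity
        have h11 : (2 : ℝ) ^ i * 2 ^ i ≤ 2 ^ i * (8 * (i : ℝ) ^ B * ((A / n : ℕ) : ℝ)) := by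
          calc (2 : ℝ) ^ i * 2 ^ i ≤ 2 ^ (i + 3) * ((A / n : ℕ) : ℝ) * (i : ℝ) ^ B := h7
            _ = _ := by ring
        exact le_of_mul_le_mul_left h11 h2i
      have hAn : (0 : ℝ) ≤ ((A / n : ℕ) : ℝ) := Nat.cast_nonneg _
      calc ((y / n : ℕ) : ℝ) ≤ 2 ^ (i + 1) := h8
        _ = 2 * 2 ^ i := by ring
        _ ≤ 2 * (8 * (i : ℝ) ^ B * ((A / n : ℕ) : ℝ)) := by linarith
        _ = (16 * 3 ^ (B + 1)) * (((i : ℝ) ^ B / 3 ^ (B + 1)) * ((A / n : ℕ) : ℝ)) := by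
            field_simp
            ring
        _ ≤ i * (((i : ℝ) ^ B / 3 ^ (B + 1)) * ((A / n : ℕ) : ℝ)) := by
            apply mul_le_mul_of_nonneg_right _ (by positivity)
            linarith
        _ = ((A / n : ℕ) : ℝ) * ((i : ℝ) / 3) ^ (B + 1) := by
            rw [div_pow, pow_succ (i : ℝ)]
            ring
        _ ≤ _ := mul_le_mul_of_nonneg_left h9 hAn
    · rw [min_eq_right h6]
      apply div_le_self hy0
      exact one_le_pow₀ hlog1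

open Classical in
theorem hw_rough (ε : ℝ) (hε : 0 < ε) (hε1 : ε ≤ 1) : ∃ c : ℝ, 0 < c ∧ ∀ᶠ i : ℕ in atTop,
    ∀ A : ℕ, (2 : ℝ) ^ ((1 + ε) * i) ≤ A →
    ∀ n ∈ Ioc (2 ^ (i + 1)) (2 ^ (i + 2)), ∀ y, 4 ^ i ≤ y → y + A ≤ 4 ^ (i + 1) →
    (A : ℝ) / (2 ^ i * (i : ℝ) ^ 3) ≤ (#((range (4 ^ (i + 1) + 1)).filter
      (fun k => (∀ q : ℕ, q.Prime → q ∣ 2 * k + 1 → (2 : ℝ) ^ (c * i) ≤ q) ∧
        y < k * n ∧ k * n ≤ y + A)) : ℝ) := by
  obtain ⟨c, y₀, hc, hy₀⟩ := rough_short (ε / 2) (by linarith) (by linarith)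
  refine ⟨c / 2, by linarith, ?_⟩
  filter_upwards [eventually_ge_atTop (⌈(8 : ℝ) / ε⌉₊ + 128 + (y₀ + 2))] with i hi2
  intro A hA n hn y hy hyA
  have hir8 : (8 : ℝ) / ε ≤ i := (Nat.le_ceil _).trans (by exact_mod_cast (by omega :
    ⌈(8 : ℝ) / ε⌉₊ ≤ i))
  have hεi : 8 ≤ ε * i := by
    rw [div_le_iff₀ hε] at hir8
    linarith
  have hir : (128 : ℝ) ≤ i := by exact_mod_cast (by omega : 128 ≤ i)
  have hA' : 2 ^ (i + 3) ≤ A := by
    have h1 : (2 : ℝ) ^ ((i + 3 : ℕ) : ℝ) ≤ (2 : ℝ) ^ ((1 + ε) * i) := by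
      apply Real.rpow_le_rpow_of_exponent_le (by norm_num)
      push_cast
      nlinarith
    rw [Real.rpow_natCast] at h1
    exact_mod_cast h1.trans hA
  obtain ⟨hn0, h1, h2, h3, h4⟩ := tri_bounds i A n y (by omega) hA' hn hy hyA
  obtain ⟨hl1, hl2⟩ := tri_log i n y (by omega) h1 h2
  have hi128 : 128 ≤ i := by omega
  refine tri_core i A n y (fun k => ∀ q : ℕ, q.Prime → q ∣ 2 * k + 1 → (2 : ℝ) ^ (c / 2 * i) ≤ q)
    hi128 hA' hn hy hyA ?_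
  have h1r : (2 : ℝ) ^ ((i : ℝ) - 2) ≤ ((y / n : ℕ) : ℝ) := by
    have h5 : ((2 : ℝ) ^ (i - 2)) ≤ ((y / n : ℕ) : ℝ) := by exact_mod_cast h1
    refine le_trans (le_of_eq ?_) h5
    rw [← Real.rpow_natCast, Nat.cast_sub (by omega)]
    norm_num
  have h2r : ((y / n : ℕ) : ℝ) ≤ (2 : ℝ) ^ ((i : ℝ) + 1) := by
    have h5 : ((y / n : ℕ) : ℝ) ≤ (2 : ℝ) ^ (i + 1) := by exact_mod_cast h2
    refine h5.trans (le_of_eq ?_)
    rw [← Real.rpow_natCast]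
    norm_num
  have hy0 : (0 : ℝ) < ((y / n : ℕ) : ℝ) := lt_of_lt_of_le (by positivity) h1r
  have hy1 : (1 : ℝ) ≤ ((y / n : ℕ) : ℝ) := by exact_mod_cast (Nat.one_le_iff_ne_zero.2 (by
    rintro h5
    rw [h5] at hy0
    norm_num at hy0))
  have hkey := hy₀ (y / n) (min (A / n) (y / n)) (by
      have h5 : i - 2 < 2 ^ (i - 2) := Nat.lt_two_pow_self
      omega) (by
      have h5 : ((y / n : ℕ) : ℝ) ^ (ε / 2) ≤ ((y / n : ℕ) : ℝ) := by
        calc ((y / n : ℕ) : ℝ) ^ (ε / 2) ≤ ((y / n : ℕ) : ℝ) ^ (1 : ℝ) :=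
              Real.rpow_le_rpow_of_exponent_le hy1 (by linarith)
          _ = _ := Real.rpow_one _
      rcases le_total (A / n) (y / n) with h6 | h6
      · rw [min_eq_left h6]
        have h7 : (2 : ℝ) ^ ((1 + ε) * i) ≤ 2 ^ (i + 3) * ((A / n : ℕ) : ℝ) := hA.trans h4
        have h8 : (2 : ℝ) ^ ((1 + ε) * i) = 2 ^ (i + 3) * (2 : ℝ) ^ (ε * i - 3) := by
          rw [← Real.rpow_natCast 2 (i + 3), ← Real.rpow_add (by norm_num)]
          congr 1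
          push_cast
          ring
        rw [h8] at h7
        have h9 : (2 : ℝ) ^ (ε * i - 3) ≤ ((A / n : ℕ) : ℝ) :=
          le_of_mul_le_mul_left h7 (by positivity)
        calc ((y / n : ℕ) : ℝ) ^ (ε / 2) ≤ ((2 : ℝ) ^ ((i : ℝ) + 1)) ^ (ε / 2) :=
              Real.rpow_le_rpow hy0.le h2r (by linarith)
          _ = (2 : ℝ) ^ (((i : ℝ) + 1) * (ε / 2)) := by
              rw [← Real.rpow_mul (by norm_num)]
          _ ≤ (2 : ℝ) ^ (ε * i - 3) := by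
              apply Real.rpow_le_rpow_of_exponent_le (by norm_num)
              nlinarith
          _ ≤ _ := h9
      · rw [min_eq_right h6]
        exact h5) (min_le_right _ _)
  refine hkey.trans (Nat.cast_le.2 (card_le_card ?_))
  intro k hk
  rw [mem_filter] at hk ⊢
  refine ⟨hk.1, fun q hq hqd => le_trans ?_ (hk.2 q hq hqd)⟩
  calc (2 : ℝ) ^ (c / 2 * i) ≤ (2 : ℝ) ^ (((i : ℝ) - 2) * c) := by
        apply Real.rpow_le_rpow_of_exponent_le (by norm_num)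
        nlinarith
    _ = ((2 : ℝ) ^ ((i : ℝ) - 2)) ^ c := by rw [← Real.rpow_mul (by norm_num)]
    _ ≤ ((y / n : ℕ) : ℝ) ^ c := Real.rpow_le_rpow (by positivity) h1r hc.le

end PoolTP
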