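import Pool.Agent.Work.MP_c971ef_nt.TP.Mai
import Pool.Agent.Work.MP_c971ef_nt.TP.Dia
import Pool.Agent.Work.MP_c971ef_nt.TP.Enu
import Pool.Agent.Work.MP_c971ef_nt.TP.Tri

set_option autoImplicit false

/-!
# Module Fin (size M): the two theorems for an arbitrary family of good indices

`fin_gen`: from `main` and `enum`. Let `i₀, C, a` be as in `main`, `D` as in `enum`: `q_m = p_{m + a m}`. For `n ≤ 2 ^ (i₀ + 1)` take `k = 1` (`n + i ≤ 2 ^ (i₀ + 2) + L`). For larger `n` take the `i ≥ i₀` with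
`2 ^ (i + 1) < n ≤ 2 ^ (i + 2)` and `k` from `Blk`: `k n ≤ 4 ^ (i + 1)` and `n > 2 ^ (i + 1)` give `k ≤ 2 ^ (i + 1) < n`; `4 ^ i < k n` and `n ≤ 2 ^ (i + 2)` give `n ≤ 16 k`. `θ = min (δ / 2) (1 / (i₀ + 2))`:
`n ^ θ ≤ 2` for `n ≤ 2 ^ (i₀ + 1)`, and `n ^ θ ≤ (2 ^ (i + 2)) ^ (δ/2) ≤ (4 ^ i) ^ δ` (`i ≥ 2`).
`thin_all`: `Q B i` = the statement of `hw_prime B` for `i` together with `i ^ B * (i + 1) ≤ 4 ^ i` and `(3 κ + 20 ≤ B or ...)`; `diag` gives `g`; `A i = ⌊4 ^ i / i ^ (g i)⌋₊ ` needs the lower bound `4 ^ i / i ^ B ≤ A` of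
`hw_prime`: use `hw_prime (B + 1)` for `A i = ⌊4 ^ i / i ^ (g i)⌋₊`, `≥ 4 ^ i / i ^ (g i + 1)`. `hA2` because `g i ≥ 3 κ + 20` eventually. `sum_log` for the number of elements of `D`.
`thin_pow`: `A i = ⌈2 ^ ((1 + ε) i)⌉₊`, `hw_rough ε`, `sum_pow`; the condition `2 ^ (c i) ≤ q` for the prime factors `q` of `2 k + 1`: `n ^ (c / 2) ≤ 2 ^ (c (i + 2) / 2) ≤ 2 ^ (c i)`.
-/

namespace PoolTP

open Finset

private theorem fin_gen (L R : ℕ) (δ : ℝ) (hδ : 0 < δ) (K : ℕ → ℕ → Prop) (i₀ : ℕ)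
    (hi₀ : 2 ≤ i₀) (a : ℕ → ℕ)
    (hsmall : ∀ m, 1 ≤ m → m ≤ 2 ^ (i₀ + 2) + L → Gd R 2 (m + a m))
    (hblk : ∀ i, i₀ ≤ i → Blk L R δ K i a) (q : ℕ → ℕ)
    (hq : ∀ m, 1 ≤ m → q (m - 1) = Nat.nth Nat.Prime (m + a m - 1))
    (θ : ℝ) (hθ : 0 < θ) (hθ1 : θ ≤ δ / 2) (hθ2 : θ * (i₀ + 1) ≤ 1) (P : ℕ → ℕ → Prop)
    (hP1 : ∀ n : ℕ, (n : ℝ) ^ θ ≤ 2 → P n 1)
    (hPK : ∀ i, i₀ ≤ i → ∀ n ∈ Ioc (2 ^ (i + 1)) (2 ^ (i + 2)), ∀ k, K i k → P n k) :
    ∀ n : ℕ, 1 ≤ n → ∃ k : ℕ, 1 ≤ k ∧ k ≤ n ∧ n ≤ (16 + 2 ^ (i₀ + 1)) * k ∧ P n k ∧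
      ∀ j, j < L → ArithmeticFunction.cardFactors (q (k * n + j - 1) ^ 2 - 2) ≤ R ∧
        ∀ r : ℕ, r.Prime → r ∣ q (k * n + j - 1) ^ 2 - 2 → (n : ℝ) ^ θ ≤ r := by
  intro n hn
  by_cases hns : n ≤ 2 ^ (i₀ + 1)
  · have hle2 : (n : ℝ) ^ θ ≤ 2 := by
      have h1 : (n : ℝ) ≤ (2 : ℝ) ^ ((i₀ + 1 : ℕ) : ℝ) := by
        rw [Real.rpow_natCast]; exact_mod_cast hns
      calc (n : ℝ) ^ θ ≤ ((2 : ℝ) ^ ((i₀ + 1 : ℕ) : ℝ)) ^ θ :=
            Real.rpow_le_rpow (Nat.cast_nonneg n) h1 hθ.le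
        _ = (2 : ℝ) ^ (((i₀ + 1 : ℕ) : ℝ) * θ) := by rw [← Real.rpow_mul (by norm_num)]
        _ ≤ (2 : ℝ) ^ (1 : ℝ) := by
            apply Real.rpow_le_rpow_of_exponent_le (by norm_num)
            push_cast
            linarith [mul_comm θ ((i₀ : ℝ) + 1)]
        _ = 2 := Real.rpow_one 2
    refine ⟨1, le_refl _, hn, by omega, hP1 n hle2, ?_⟩
    intro j hj
    have hm1 : 1 ≤ 1 * n + j := by omega
    have hm2 : 1 * n + j ≤ 2 ^ (i₀ + 2) + L := by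
      have : 2 ^ (i₀ + 1) ≤ 2 ^ (i₀ + 2) := Nat.pow_le_pow_right (by norm_num) (by omega)
      omega
    obtain ⟨h1, h2⟩ := hsmall _ hm1 hm2
    rw [← hq _ hm1] at h1 h2
    exact ⟨h1, fun r hr hrd => hle2.trans (h2 r hr hrd)⟩
  · push Not at hns
    -- the index i
    obtain ⟨i, hi, hi1, hi2⟩ : ∃ i, i₀ ≤ i ∧ 2 ^ (i + 1) < n ∧ n ≤ 2 ^ (i + 2) := by
      have hex : ∃ i, n ≤ 2 ^ (i + 2) := by
        refine ⟨n, (Nat.lt_two_pow_self).le.trans (Nat.pow_le_pow_right (by norm_num) (by omega))⟩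
      classical
      refine ⟨Nat.find hex, ?_, ?_, Nat.find_spec hex⟩
      · by_contra hlt
        push Not at hlt
        have h1 := Nat.find_spec hex
        have h2 : 2 ^ (Nat.find hex + 2) ≤ 2 ^ (i₀ + 1) :=
          Nat.pow_le_pow_right (by norm_num) (by omega)
        omega
      · by_contra hge
        push Not at hge
        rcases Nat.eq_zero_or_pos (Nat.find hex) with h0 | h0
        · rw [h0] at hge
          have h2 : 2 ^ (0 + 1) ≤ 2 ^ (i₀ + 1) := Nat.pow_le_pow_right (by norm_num) (by omega)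
          omega
        · have h3 : n ≤ 2 ^ ((Nat.find hex - 1) + 2) := by
            have : Nat.find hex - 1 + 2 = Nat.find hex + 1 := by omega
            rw [this]; exact hge
          exact Nat.find_min hex (by omega : Nat.find hex - 1 < Nat.find hex) h3
    obtain ⟨k, hk, hk1, hk2, hk3⟩ := hblk i hi n (Finset.mem_Ioc.mpr ⟨hi1, hi2⟩)
    have e4 : (4 : ℕ) ^ i = 2 ^ i * 2 ^ i := by
      rw [← mul_pow]
      norm_num
    have e4' : (4 : ℕ) ^ (i + 1) = 2 ^ (i + 1) * 2 ^ (i + 1) := by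
      rw [← mul_pow]
      norm_num
    have hpos : 0 < 2 ^ i := by positivity
    have hk0 : 1 ≤ k := by
      by_contra h0
      have : k = 0 := by omega
      rw [this] at hk1
      simp at hk1
    have hkle : k ≤ n := by
      by_contra hlt
      push Not at hlt
      have h1 : 2 ^ (i + 1) * 2 ^ (i + 1) < k * n := by
        calc 2 ^ (i + 1) * 2 ^ (i + 1) < n * n := Nat.mul_lt_mul'' hi1 hi1
          _ ≤ k * n := Nat.mul_le_mul_right _ hlt.le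
      omega
    have hn16 : n ≤ 16 * k := by
      have h1 : 2 ^ i * 2 ^ i < k * 2 ^ (i + 2) := by
        calc 2 ^ i * 2 ^ i < k * n := by rw [← e4]; exact hk1
          _ ≤ k * 2 ^ (i + 2) := Nat.mul_le_mul_left _ hi2
      have h2 : 2 ^ (i + 2) = 4 * 2 ^ i := by ring
      have h3 : 2 ^ i * 2 ^ i < (4 * k) * 2 ^ i := by
        calc 2 ^ i * 2 ^ i < k * 2 ^ (i + 2) := h1
          _ = (4 * k) * 2 ^ i := by rw [h2]; ring
      have h4 : 2 ^ i < 4 * k := lt_of_mul_lt_mul_right h3 (Nat.zero_le _)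
      omega
    refine ⟨k, hk0, hkle, ?_, hPK i hi n (Finset.mem_Ioc.mpr ⟨hi1, hi2⟩) k hk, ?_⟩
    · calc n ≤ 16 * k := hn16
        _ ≤ (16 + 2 ^ (i₀ + 1)) * k := Nat.mul_le_mul_right _ (Nat.le_add_right _ _)
    · intro j hj
      have hm1 : 1 ≤ k * n + j := by
        have : 1 ≤ k * n := Nat.one_le_iff_ne_zero.mpr (by positivity)
        omega
      obtain ⟨h1, h2⟩ := hk3 j hj
      rw [← hq _ hm1] at h1 h2
      refine ⟨h1, fun r hr hrd => ?_⟩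
      refine le_trans ?_ (h2 r hr hrd)
      have hn1 : (1 : ℝ) ≤ n := by exact_mod_cast hn
      have hn4 : (n : ℝ) ≤ ((4 ^ i : ℕ) : ℝ) := by
        have : n ≤ 4 ^ i := by
          refine hi2.trans ?_
          rw [e4, ← pow_add]
          exact Nat.pow_le_pow_right (by norm_num) (by omega)
        exact_mod_cast this
      have h41 : (1 : ℝ) ≤ ((4 ^ i : ℕ) : ℝ) := hn1.trans hn4
      calc (n : ℝ) ^ θ ≤ (n : ℝ) ^ δ :=
            Real.rpow_le_rpow_of_exponent_le hn1 (by linarith)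
        _ ≤ (((4 ^ i : ℕ) : ℝ)) ^ δ := Real.rpow_le_rpow (Nat.cast_nonneg n) hn4 hδ.le

open Classical in
theorem thin_all (L R κ : ℕ) (δ c : ℝ) (hL : 1 ≤ L) (hδ : 0 < δ) (hc : 0 < c)
    (h : BlkSet L R κ δ c) : ∃ (θ : ℝ) (C₀ : ℕ) (D : Set ℕ), 0 < θ ∧ (∀ p ∈ D, p.Prime) ∧
    (∀ B : ℕ, ∃ C : ℝ, ∀ x : ℕ, 2 ≤ x →
      (#((range (x + 1)).filter (fun p => p ∈ D)) : ℝ) ≤ C * (x / (Real.log x) ^ B)) ∧
    ∀ n : ℕ, 1 ≤ n → ∃ k : ℕ, 1 ≤ k ∧ k ≤ n ∧ n ≤ C₀ * k ∧ (2 * k + 1).Prime ∧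
      ∀ j, j < L → ArithmeticFunction.cardFactors
        (Nat.nth (fun p => p.Prime ∧ p ∉ D) (k * n + j - 1) ^ 2 - 2) ≤ R ∧
        ∀ r : ℕ, r.Prime → r ∣ Nat.nth (fun p => p.Prime ∧ p ∉ D) (k * n + j - 1) ^ 2 - 2 →
          (n : ℝ) ^ θ ≤ r := by
  obtain ⟨g, hg, hgQ⟩ := diag (fun B i =>
    (∀ A : ℕ, (4 : ℝ) ^ i / (i : ℝ) ^ (B + 1) ≤ A →
      ∀ n ∈ Ioc (2 ^ (i + 1)) (2 ^ (i + 2)), ∀ y, 4 ^ i ≤ y → y + A ≤ 4 ^ (i + 1) →
      (A : ℝ) / (2 ^ i * (i : ℝ) ^ 3) ≤ (#((range (4 ^ (i + 1) + 1)).filter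
        (fun k => (2 * k + 1).Prime ∧ y < k * n ∧ k * n ≤ y + A)) : ℝ)) ∧
    (i : ℝ) ^ B ≤ 4 ^ i ∧ 2 ≤ i) (by
      intro B
      refine (hw_prime (B + 1)).and (Filter.Eventually.and ?_ (Filter.eventually_ge_atTop 2))
      have h1 := tendsto_pow_const_div_const_pow_of_one_lt B (r := (4 : ℝ)) (by norm_num)
      filter_upwards [h1.eventually_le_const (show (0 : ℝ) < 1 by norm_num)] with i hi
      rwa [div_le_one (by positivity)] at hi)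
  set A : ℕ → ℕ := fun i => ⌊(4 : ℝ) ^ i / (i : ℝ) ^ g i⌋₊ with hA
  have hAle : ∀ i, (A i : ℝ) ≤ 4 ^ i / (i : ℝ) ^ g i := fun i => Nat.floor_le (by positivity)
  obtain ⟨i₀, C, a, hi₀, hmono, hsmall, hblk, hbound⟩ := main L R κ δ c hL hc h
    (fun _ k => (2 * k + 1).Prime) A
    (by
      filter_upwards [hgQ] with i hi
      obtain ⟨-, h2, h3⟩ := hi
      rw [hA]
      simp only
      rw [Nat.one_le_floor_iff, le_div_iff₀ (by positivity), one_mul]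
      exact h2)
    (by
      filter_upwards [hg.eventually_ge_atTop (3 * κ + 20), hgQ] with i hi hi'
      have hi1 : (1 : ℝ) ≤ i := by
        have : 1 ≤ i := by omega
        exact_mod_cast this
      refine (hAle i).trans ?_
      exact div_le_div_of_nonneg_left (by positivity) (by positivity)
        (pow_le_pow_right₀ hi1 hi))
    (by
      filter_upwards [hgQ] with i hi
      obtain ⟨h1, h2, h3⟩ := hi
      intro n hn y hy1 hy2
      suffices hs : (4 : ℝ) ^ i / (i : ℝ) ^ (g i + 1) ≤ (A i : ℝ) by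
        convert h1 (A i) hs n hn y hy1 hy2
      have hi2 : (2 : ℝ) ≤ i := by exact_mod_cast h3
      have hipos : (0 : ℝ) < (i : ℝ) ^ g i := by positivity
      have hx1 : 1 ≤ (4 : ℝ) ^ i / (i : ℝ) ^ g i := by
        rw [le_div_iff₀ hipos, one_mul]; exact h2
      have hfl : (4 : ℝ) ^ i / (i : ℝ) ^ g i / 2 ≤ (A i : ℝ) := by
        have h4 := Nat.lt_floor_add_one ((4 : ℝ) ^ i / (i : ℝ) ^ g i)
        have h5 : (1 : ℝ) ≤ (A i : ℝ) := by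
          have : 1 ≤ A i := by
            rw [hA]; simp only
            rw [Nat.one_le_floor_iff]; exact hx1
          exact_mod_cast this
        have h6 : (4 : ℝ) ^ i / (i : ℝ) ^ g i < (A i : ℝ) + 1 := h4
        linarith
      refine le_trans ?_ hfl
      rw [pow_succ, ← div_div]
      exact div_le_div_of_nonneg_left (by positivity) (by norm_num) hi2)
  obtain ⟨D, hD1, hD2, hD3⟩ := enum a hmono
  have hi0pos : (0 : ℝ) < (i₀ : ℝ) + 1 := by positivity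
  refine ⟨min (δ / 2) (1 / ((i₀ : ℝ) + 1)), 16 + 2 ^ (i₀ + 1), D, by positivity, hD1, ?_, ?_⟩
  · intro B
    obtain ⟨C', hC'⟩ := sum_log κ C A g a hg hAle hbound B
    refine ⟨C', fun x hx => le_trans ?_ (hC' x hx)⟩
    exact_mod_cast hD3 x
  · refine fin_gen L R δ hδ (fun _ k => (2 * k + 1).Prime) i₀ hi₀ a hsmall hblk
      (fun t => Nat.nth (fun p => p.Prime ∧ p ∉ D) t) hD2 _ (by positivity) (min_le_left _ _) ?_
      (fun _ k => (2 * k + 1).Prime) ?_ ?_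
    · calc min (δ / 2) (1 / ((i₀ : ℝ) + 1)) * ((i₀ : ℝ) + 1)
          ≤ (1 / ((i₀ : ℝ) + 1)) * ((i₀ : ℝ) + 1) :=
            mul_le_mul_of_nonneg_right (min_le_right _ _) hi0pos.le
        _ = 1 := by field_simp
    · intro n _
      norm_num
    · intro i _ n _ k hk
      exact hk

open Classical in
theorem thin_pow (L R κ : ℕ) (δ c : ℝ) (hL : 1 ≤ L) (hδ : 0 < δ) (hc : 0 < c)
    (h : BlkSet L R κ δ c) (ε : ℝ) (hε : 0 < ε) :
    ∃ (θ : ℝ) (C₀ : ℕ) (D : Set ℕ), 0 < θ ∧ (∀ p ∈ D, p.Prime) ∧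
    (∃ C : ℝ, ∀ x : ℕ, 2 ≤ x →
      (#((range (x + 1)).filter (fun p => p ∈ D)) : ℝ) ≤ C * (x : ℝ) ^ (1 / 2 + ε)) ∧
    ∀ n : ℕ, 1 ≤ n → ∃ k : ℕ, 1 ≤ k ∧ k ≤ n ∧ n ≤ C₀ * k ∧
      (∀ r : ℕ, r.Prime → r ∣ 2 * k + 1 → (n : ℝ) ^ θ ≤ r) ∧
      ∀ j, j < L → ArithmeticFunction.cardFactors
        (Nat.nth (fun p => p.Prime ∧ p ∉ D) (k * n + j - 1) ^ 2 - 2) ≤ R ∧
        ∀ r : ℕ, r.Prime → r ∣ Nat.nth (fun p => p.Prime ∧ p ∉ D) (k * n + j - 1) ^ 2 - 2 →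
          (n : ℝ) ^ θ ≤ r := by
  set ε' : ℝ := min ε (1 / 2) with hε'
  have hε'0 : 0 < ε' := by rw [hε']; positivity
  have hε'1 : ε' ≤ 1 / 2 := min_le_right _ _
  have hε'2 : ε' ≤ ε := min_le_left _ _
  obtain ⟨c', hc', hw⟩ := hw_rough ε' hε'0 (by linarith)
  set A : ℕ → ℕ := fun i => ⌈(2 : ℝ) ^ ((1 + ε') * (i : ℝ))⌉₊ with hA
  have hAle : ∀ i : ℕ, (A i : ℝ) ≤ (2 : ℝ) ^ ((1 + ε') * (i : ℝ)) + 1 := fun i =>
    (Nat.ceil_lt_add_one (by positivity)).le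
  obtain ⟨i₀, C, a, hi₀, hmono, hsmall, hblk, hbound⟩ := main L R κ δ c hL hc h
    (fun i k => ∀ q : ℕ, q.Prime → q ∣ 2 * k + 1 → (2 : ℝ) ^ (c' * (i : ℝ)) ≤ q) A
    (by
      refine Filter.Eventually.of_forall fun i => ?_
      rw [hA]
      simp only
      rw [Nat.one_le_ceil_iff]
      positivity)
    (by
      have h1 := tendsto_pow_const_div_const_pow_of_one_lt (3 * κ + 20)
        (r := (2 : ℝ) ^ (1 / 2 : ℝ)) (Real.one_lt_rpow (by norm_num) (by norm_num))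
      filter_upwards [h1.eventually_le_const (show (0 : ℝ) < 1 / 2 by norm_num),
        Filter.eventually_ge_atTop 1] with i hi hi1
      have hir : (1 : ℝ) ≤ i := by exact_mod_cast hi1
      rw [div_le_iff₀ (by positivity)] at hi
      refine (hAle i).trans ?_
      rw [le_div_iff₀ (by positivity)]
      have e1 : ((2 : ℝ) ^ (1 / 2 : ℝ)) ^ i = (2 : ℝ) ^ ((1 / 2 : ℝ) * i) := by
        rw [Real.rpow_mul (by norm_num), Real.rpow_natCast]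
      have e2 : (4 : ℝ) ^ i = (2 : ℝ) ^ ((2 : ℝ) * i) := by
        rw [Real.rpow_mul (by norm_num), Real.rpow_natCast]; norm_num
      rw [e1] at hi
      have h2 : (2 : ℝ) ^ ((1 + ε') * (i : ℝ)) ≤ (2 : ℝ) ^ ((3 / 2 : ℝ) * i) := by
        apply Real.rpow_le_rpow_of_exponent_le (by norm_num)
        apply mul_le_mul_of_nonneg_right (by linarith) (by positivity)
      have h3 : (1 : ℝ) ≤ (2 : ℝ) ^ ((3 / 2 : ℝ) * i) := by
        apply Real.one_le_rpow (by norm_num) (by positivity)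
      calc ((2 : ℝ) ^ ((1 + ε') * (i : ℝ)) + 1) * (i : ℝ) ^ (3 * κ + 20)
          ≤ (2 * (2 : ℝ) ^ ((3 / 2 : ℝ) * i)) * (1 / 2 * (2 : ℝ) ^ ((1 / 2 : ℝ) * i)) := by
            apply mul_le_mul (by linarith) hi (by positivity) (by positivity)
        _ = (2 : ℝ) ^ ((3 / 2 : ℝ) * i) * (2 : ℝ) ^ ((1 / 2 : ℝ) * i) := by ring
        _ = (4 : ℝ) ^ i := by
            rw [← Real.rpow_add (by norm_num), e2]
            congr 1
            ring)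
    (by
      filter_upwards [hw] with i hi
      exact hi (A i) (Nat.le_ceil _))
  obtain ⟨D, hD1, hD2, hD3⟩ := enum a hmono
  have hi0pos : (0 : ℝ) < (i₀ : ℝ) + 1 := by positivity
  set θ : ℝ := min (min (δ / 2) (c' / 2)) (1 / ((i₀ : ℝ) + 1)) with hθ
  have hθ0 : 0 < θ := by rw [hθ]; positivity
  have hθ1 : θ ≤ δ / 2 := (min_le_left _ _).trans (min_le_left _ _)
  have hθ2 : θ ≤ c' / 2 := (min_le_left _ _).trans (min_le_right _ _)
  have hθ3 : θ * ((i₀ : ℝ) + 1) ≤ 1 := by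
    calc θ * ((i₀ : ℝ) + 1) ≤ (1 / ((i₀ : ℝ) + 1)) * ((i₀ : ℝ) + 1) :=
          mul_le_mul_of_nonneg_right (min_le_right _ _) hi0pos.le
      _ = 1 := by field_simp
  refine ⟨θ, 16 + 2 ^ (i₀ + 1), D, hθ0, hD1, ?_, ?_⟩
  · obtain ⟨C', hC'⟩ := sum_pow κ C A a ε' hε'0 hAle hbound
    refine ⟨|C'|, fun x hx => ?_⟩
    have hx1 : (1 : ℝ) ≤ x := by
      have : 1 ≤ x := by omega
      exact_mod_cast this
    calc (#((range (x + 1)).filter (fun p => p ∈ D)) : ℝ) ≤ (a (x + 1) : ℝ) := by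
          exact_mod_cast hD3 x
      _ ≤ C' * (x : ℝ) ^ (1 / 2 + ε') := hC' x hx
      _ ≤ |C'| * (x : ℝ) ^ (1 / 2 + ε') :=
          mul_le_mul_of_nonneg_right (le_abs_self _) (by positivity)
      _ ≤ |C'| * (x : ℝ) ^ (1 / 2 + ε) :=
          mul_le_mul_of_nonneg_left
            (Real.rpow_le_rpow_of_exponent_le hx1 (by linarith)) (abs_nonneg _)
  · refine fin_gen L R δ hδ
      (fun i k => ∀ q : ℕ, q.Prime → q ∣ 2 * k + 1 → (2 : ℝ) ^ (c' * (i : ℝ)) ≤ q) i₀ hi₀ a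
      hsmall hblk (fun t => Nat.nth (fun p => p.Prime ∧ p ∉ D) t) hD2 θ hθ0 hθ1 hθ3
      (fun n k => ∀ r : ℕ, r.Prime → r ∣ 2 * k + 1 → (n : ℝ) ^ θ ≤ r) ?_ ?_
    · intro n hn r hr hrd
      refine hn.trans ?_
      exact_mod_cast hr.two_le
    · intro i hi n hn k hk r hr hrd
      refine le_trans ?_ (hk r hr hrd)
      rw [Finset.mem_Ioc] at hn
      have h1 : (n : ℝ) ≤ (2 : ℝ) ^ ((i + 2 : ℕ) : ℝ) := by
        rw [Real.rpow_natCast]; exact_mod_cast hn.2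
      calc (n : ℝ) ^ θ ≤ ((2 : ℝ) ^ ((i + 2 : ℕ) : ℝ)) ^ θ :=
            Real.rpow_le_rpow (Nat.cast_nonneg n) h1 hθ0.le
        _ = (2 : ℝ) ^ (((i + 2 : ℕ) : ℝ) * θ) := by rw [← Real.rpow_mul (by norm_num)]
        _ ≤ (2 : ℝ) ^ (c' * (i : ℝ)) := by
            apply Real.rpow_le_rpow_of_exponent_le (by norm_num)
            have hi2 : (2 : ℝ) ≤ i := by
              have : 2 ≤ i := by omega
              exact_mod_cast this
            push_cast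
            nlinarith

end PoolTP
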