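import Mathlib

set_option autoImplicit false

/-!
# Module Glu (size S-M): glueing of the blocks

Recursion: `F 0 = f₀`, `F (t + 1)` = the function of `hstep (i₀ + t)` for `e = F t (4 ^ (i₀ + t))` (carry the bound `F t m ≤ T (i₀ + t)` along, for example as a subtype or
with `Nat.rec` on `{f : ℕ → ℕ // Monotone f ∧ ∀ m, f m ≤ T (i₀ + t)}`). Put `a m = f₀ m` for `m ≤ 4 ^ i₀` and `a m = F (t + 1) m` for `4 ^ (i₀ + t) < m ≤ 4 ^ (i₀ + t + 1)`, i.e.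
`a m = F (Nat.clog 4 m - i₀) m` (`Nat.clog 4 m ≤ i ↔ m ≤ 4 ^ i`). Monotone: inside a block clear; `F (t + 1) m ≥ F (t + 1) (4 ^ (i₀ + t)) = F t (4 ^ (i₀ + t)) = a (4 ^ (i₀ + t))`, so
`a (4 ^ (i₀ + t)) ≤ a m` for `m` in the next block; then induction over the blocks.
-/

namespace PoolTP

private theorem glu_seq (i₀ : ℕ) (T : ℕ → ℕ) (P : ℕ → (ℕ → ℕ) → Prop)
    (hstep : ∀ i, i₀ ≤ i → ∀ e, e ≤ T i → ∃ f : ℕ → ℕ, Monotone f ∧ (∀ m ≤ 4 ^ i, f m = e) ∧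
      (∀ m, f m ≤ T (i + 1)) ∧ P i f)
    (f₀ : ℕ → ℕ) (h₀ : Monotone f₀) (h₁ : ∀ m, f₀ m ≤ T i₀) :
    ∃ F : ℕ → ℕ → ℕ, F 0 = f₀ ∧ (∀ t, Monotone (F t)) ∧ (∀ t m, F t m ≤ T (i₀ + t)) ∧
      (∀ t, ∀ m ≤ 4 ^ (i₀ + t), F (t + 1) m = F t (4 ^ (i₀ + t))) ∧
      ∀ t, P (i₀ + t) (F (t + 1)) := by
  have H : ∀ t (f : {f : ℕ → ℕ // Monotone f ∧ ∀ m, f m ≤ T (i₀ + t)}),
      ∃ g : {g : ℕ → ℕ // Monotone g ∧ ∀ m, g m ≤ T (i₀ + (t + 1))},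
        (∀ m ≤ 4 ^ (i₀ + t), g.1 m = f.1 (4 ^ (i₀ + t))) ∧ P (i₀ + t) g.1 := by
    intro t f
    obtain ⟨g, g1, g2, g3, g4⟩ := hstep (i₀ + t) (by omega) (f.1 (4 ^ (i₀ + t))) (f.2.2 _)
    exact ⟨⟨g, g1, g3⟩, g2, g4⟩
  choose nx hnx1 hnx2 using H
  let F : (t : ℕ) → {f : ℕ → ℕ // Monotone f ∧ ∀ m, f m ≤ T (i₀ + t)} := fun t =>
    Nat.rec (motive := fun t => {f : ℕ → ℕ // Monotone f ∧ ∀ m, f m ≤ T (i₀ + t)})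
      ⟨f₀, h₀, h₁⟩ nx t
  exact ⟨fun t => (F t).1, rfl, fun t => (F t).2.1, fun t => (F t).2.2,
    fun t => hnx1 t (F t), fun t => hnx2 t (F t)⟩

theorem glue (i₀ : ℕ) (T : ℕ → ℕ) (hT : Monotone T) (P : ℕ → (ℕ → ℕ) → Prop)
    (hloc : ∀ i (f g : ℕ → ℕ), (∀ m, 4 ^ i < m → m ≤ 4 ^ (i + 1) → f m = g m) → P i f → P i g)
    (hstep : ∀ i, i₀ ≤ i → ∀ e, e ≤ T i → ∃ f : ℕ → ℕ, Monotone f ∧ (∀ m ≤ 4 ^ i, f m = e) ∧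
      (∀ m, f m ≤ T (i + 1)) ∧ P i f)
    (f₀ : ℕ → ℕ) (h₀ : Monotone f₀) (h₁ : ∀ m, f₀ m ≤ T i₀) :
    ∃ a : ℕ → ℕ, Monotone a ∧ (∀ m ≤ 4 ^ i₀, a m = f₀ m) ∧
      (∀ i, i₀ ≤ i → ∀ m ≤ 4 ^ i, a m ≤ T i) ∧ ∀ i, i₀ ≤ i → P i a := by
  obtain ⟨F, hF0, hmono, hbd, hnext, hP⟩ := glu_seq i₀ T P hstep f₀ h₀ h₁
  have c1 : ∀ t m, m ≤ 4 ^ (i₀ + t) → Nat.clog 4 m ≤ i₀ + t := fun t m h =>
    (Nat.clog_le_iff_le_pow (by norm_num)).2 h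
  have c2 : ∀ t m, 4 ^ (i₀ + t) < m → i₀ + t < Nat.clog 4 m := fun t m h =>
    (Nat.lt_clog_iff_pow_lt (by norm_num)).2 h
  have i0 : ∀ m ≤ 4 ^ i₀, Nat.clog 4 m - i₀ = 0 := by
    intro m hm
    have := c1 0 m hm
    omega
  have is : ∀ t m, 4 ^ (i₀ + t) < m → m ≤ 4 ^ (i₀ + (t + 1)) → Nat.clog 4 m - i₀ = t + 1 := by
    intro t m h1 h2
    have h3 := c2 t m h1
    have h4 := c1 (t + 1) m h2
    omega
  have ic : ∀ m, i₀ < Nat.clog 4 m → ∃ t, Nat.clog 4 m = i₀ + (t + 1) ∧ 4 ^ (i₀ + t) < m ∧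
      m ≤ 4 ^ (i₀ + (t + 1)) := by
    intro m hm
    obtain ⟨t, ht⟩ : ∃ t, Nat.clog 4 m = i₀ + (t + 1) := ⟨Nat.clog 4 m - i₀ - 1, by omega⟩
    exact ⟨t, ht, (Nat.lt_clog_iff_pow_lt (by norm_num)).1 (by omega),
      (Nat.clog_le_iff_le_pow (by norm_num)).1 ht.le⟩
  refine ⟨fun m => F (Nat.clog 4 m - i₀) m, ?_, ?_, ?_, ?_⟩
  · refine monotone_nat_of_le_succ fun m => ?_
    show F (Nat.clog 4 m - i₀) m ≤ F (Nat.clog 4 (m + 1) - i₀) (m + 1)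
    have hcm : Nat.clog 4 m ≤ Nat.clog 4 (m + 1) := Nat.clog_mono_right 4 (Nat.le_succ m)
    rcases Nat.lt_or_ge i₀ (Nat.clog 4 (m + 1)) with h | h
    · obtain ⟨t, h1, h2, h3⟩ := ic (m + 1) h
      rw [is t (m + 1) h2 h3]
      rcases Nat.lt_or_ge (4 ^ (i₀ + t)) m with h4 | h4
      · rw [is t m h4 (by omega)]
        exact hmono (t + 1) (Nat.le_succ m)
      · have h5 : m = 4 ^ (i₀ + t) := by omega
        have h6 : Nat.clog 4 m = i₀ + t := by rw [h5]; exact Nat.clog_pow 4 _ (by norm_num)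
        have h7 : Nat.clog 4 m - i₀ = t := by omega
        rw [h7]
        calc F t m = F t (4 ^ (i₀ + t)) := by rw [← h5]
          _ = F (t + 1) m := (hnext t m h4).symm
          _ ≤ F (t + 1) (m + 1) := hmono (t + 1) (Nat.le_succ m)
    · have h1 : Nat.clog 4 (m + 1) - i₀ = 0 := by omega
      have h2 : Nat.clog 4 m - i₀ = 0 := by omega
      rw [h1, h2]
      exact hmono 0 (Nat.le_succ m)
  · intro m hm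
    show F (Nat.clog 4 m - i₀) m = f₀ m
    rw [i0 m hm, hF0]
  · intro i hi m hm
    show F (Nat.clog 4 m - i₀) m ≤ T i
    refine (hbd _ m).trans (hT ?_)
    have h1 : Nat.clog 4 m ≤ i := (Nat.clog_le_iff_le_pow (by norm_num)).2 hm
    omega
  · intro i hi
    obtain ⟨t, rfl⟩ : ∃ t, i = i₀ + t := ⟨i - i₀, by omega⟩
    refine hloc (i₀ + t) (F (t + 1)) _ (fun m h1 h2 => ?_) (hP t)
    show F (t + 1) m = F (Nat.clog 4 m - i₀) m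
    rw [is t m h1 h2]

end PoolTP
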