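import Mathlib

set_option autoImplicit false

/-!
# Module Num (size S-M): the inequality for one block

`S = i ^ (κ + 5)`, `ℓ = 3 * 4 ^ i / S` (division of natural numbers), `N = 2 ^ (i + 1)`. For large `i`: `N ≤ ℓ` (so `ℓ / N + 1 ≤ 2 ℓ / N`), `ℓ ≤ 3 * 4 ^ i / S` as real numbers,
`3 * 4 ^ i - S * ℓ < S ≤ mM / 8`; `S (e + S A + A + L) ≤ i ^ (κ + 5) (4 ^ i / i ^ (2 κ + 12) + 2 i ^ (κ + 5) 4 ^ i / i ^ (3 κ + 20) + L) ≤ mM / 8`, because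
`mM ≥ c 4 ^ i / (i log 4) ^ κ ≥ c 4 ^ i / (2 i) ^ κ`. So the second factor in the exponent is at least `mM / 2`, and the first is
`(1 / (2 ^ i i ^ 3)) / (ℓ / N + 1) ≥ (1 / (2 ^ i i ^ 3)) N / (2 ℓ) = 1 / (i ^ 3 ℓ) ≥ S / (3 * 4 ^ i i ^ 3) = i ^ (κ + 2) / (3 * 4 ^ i)`. The product is at least
`c i ^ 2 / (6 * 2 ^ κ)`, and `2 ^ (i + 1) exp (- c' i ^ 2) < 1` for large `i`.
-/

namespace PoolTP

open Filter

theorem num (κ L : ℕ) (c : ℝ) (hc : 0 < c) : ∀ᶠ i : ℕ in atTop, ∀ (A e : ℕ) (mM : ℝ), 1 ≤ A →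
    (A : ℝ) ≤ 4 ^ i / (i : ℝ) ^ (3 * κ + 20) → (e : ℝ) ≤ 4 ^ i / (i : ℝ) ^ (2 * κ + 12) →
    c * (((4 ^ i : ℕ) : ℝ) / (Real.log ((4 ^ i : ℕ) : ℝ)) ^ κ) ≤ mM →
    1 ≤ 3 * 4 ^ i / i ^ (κ + 5) ∧ i ^ (κ + 5) * (3 * 4 ^ i / i ^ (κ + 5)) ≤ 3 * 4 ^ i ∧
    ((2 ^ (i + 1) : ℕ) : ℝ) * Real.exp (-(((A : ℝ) / (2 ^ i * (i : ℝ) ^ 3)) /
      (A * (((3 * 4 ^ i / i ^ (κ + 5) : ℕ) : ℝ) / ((2 ^ (i + 1) : ℕ) : ℝ) + 1)) *
      (mM - (3 * 4 ^ i - i ^ (κ + 5) * (3 * 4 ^ i / i ^ (κ + 5)) : ℕ) -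
        ((i ^ (κ + 5) : ℕ) : ℝ) * (e + i ^ (κ + 5) * A + A + L : ℕ)))) < 1 := by
  set c1 : ℝ := c / 2 ^ κ with hc1
  have hc1pos : 0 < c1 := by positivity
  have hE2 : ∀ᶠ i : ℕ in atTop, (i : ℝ) ^ (κ + 5) / 2 ^ i < 1 :=
    (tendsto_pow_const_div_const_pow_of_one_lt (κ + 5) (by norm_num : (1 : ℝ) < 2)).eventually_lt_const
      zero_lt_one
  have hE5 : ∀ᶠ i : ℕ in atTop, (i : ℝ) ^ (2 * κ + 5) / 4 ^ i < c1 / (8 * (L + 1)) :=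
    (tendsto_pow_const_div_const_pow_of_one_lt (2 * κ + 5) (by norm_num : (1 : ℝ) < 4)).eventually_lt_const
      (by positivity)
  have hE3 : ∀ᶠ i : ℕ in atTop, 16 / c1 + 1 ≤ (i : ℝ) :=
    tendsto_natCast_atTop_atTop.eventually_ge_atTop _
  filter_upwards [hE2, hE5, hE3] with i h2 h5 h3
  intro A e mM hA hA' he hm
  have h16 : 0 < 16 / c1 := by positivity
  have hx1 : (1 : ℝ) ≤ (i : ℝ) := by linarith
  have hx0 : (0 : ℝ) < (i : ℝ) := by linarith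
  have hcx : 16 ≤ c1 * (i : ℝ) := by
    have h6 : 16 / c1 ≤ (i : ℝ) := by linarith
    rw [div_le_iff₀ hc1pos] at h6
    linarith
  have hi0 : 0 < i := by exact_mod_cast hx0
  have h4pos : (0 : ℝ) < 4 ^ i := by positivity
  have h2pos : (0 : ℝ) < 2 ^ i := by positivity
  have h42 : (4 : ℝ) ^ i = 2 ^ i * 2 ^ i := by rw [← mul_pow]; norm_num
  -- natural numbers
  have hS : i ^ (κ + 5) ≤ 2 ^ i := by
    rw [div_lt_one h2pos] at h2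
    exact_mod_cast h2.le
  have hSpos : 0 < i ^ (κ + 5) := by positivity
  have hℓ : 2 ^ (i + 1) ≤ 3 * 4 ^ i / i ^ (κ + 5) := by
    rw [Nat.le_div_iff_mul_le hSpos]
    calc 2 ^ (i + 1) * i ^ (κ + 5) ≤ 2 ^ (i + 1) * 2 ^ i := Nat.mul_le_mul_left _ hS
      _ = 2 * 4 ^ i := by
        rw [pow_succ, show (4 : ℕ) = 2 * 2 by norm_num, mul_pow]
        ring
      _ ≤ 3 * 4 ^ i := Nat.mul_le_mul_right _ (by norm_num)
  have hmul : i ^ (κ + 5) * (3 * 4 ^ i / i ^ (κ + 5)) ≤ 3 * 4 ^ i := Nat.mul_div_le _ _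
  have hrem : 3 * 4 ^ i - i ^ (κ + 5) * (3 * 4 ^ i / i ^ (κ + 5)) ≤ i ^ (κ + 5) := by
    have h6 := Nat.mod_lt (3 * 4 ^ i) hSpos
    have h7 := Nat.div_add_mod (3 * 4 ^ i) (i ^ (κ + 5))
    omega
  refine ⟨le_trans Nat.one_le_two_pow hℓ, hmul, ?_⟩
  generalize hr : 3 * 4 ^ i - i ^ (κ + 5) * (3 * 4 ^ i / i ^ (κ + 5)) = r at hrem
  generalize hl : 3 * 4 ^ i / i ^ (κ + 5) = ℓ at hℓ hmul
  have hmulR : (i : ℝ) ^ (κ + 5) * (ℓ : ℝ) ≤ 3 * 4 ^ i := by exact_mod_cast hmul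
  have hremR : (r : ℝ) ≤ (i : ℝ) ^ (κ + 5) := by exact_mod_cast hrem
  have hℓR : (2 : ℝ) ^ (i + 1) ≤ (ℓ : ℝ) := by exact_mod_cast hℓ
  have hAR : (1 : ℝ) ≤ (A : ℝ) := by exact_mod_cast hA
  push_cast
  -- the lower bound of mM
  have hlog4 : Real.log 4 ≤ 2 := by
    rw [show (4 : ℝ) = 2 ^ 2 by norm_num, Real.log_pow]
    have := Real.log_two_lt_d9
    push_cast
    linarith
  have hlogpos : 0 < Real.log 4 := Real.log_pos (by norm_num)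
  have hm1 : c1 * (4 ^ i / (i : ℝ) ^ κ) ≤ mM := by
    refine le_trans ?_ hm
    push_cast
    rw [Real.log_pow]
    have h6 : ((i : ℝ) * Real.log 4) ^ κ ≤ (2 * (i : ℝ)) ^ κ :=
      pow_le_pow_left₀ (by positivity) (by nlinarith) κ
    have h7 : (4 : ℝ) ^ i / (2 * (i : ℝ)) ^ κ ≤ 4 ^ i / ((i : ℝ) * Real.log 4) ^ κ :=
      div_le_div_of_nonneg_left (by positivity) (by positivity) h6
    calc c1 * (4 ^ i / (i : ℝ) ^ κ) = c * (4 ^ i / (2 * (i : ℝ)) ^ κ) := by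
          rw [hc1, mul_pow]
          field_simp
      _ ≤ _ := mul_le_mul_of_nonneg_left h7 hc.le
  have hXpos : (0 : ℝ) < 4 ^ i / (i : ℝ) ^ κ := by positivity
  have hX : (4 : ℝ) ^ i / (i : ℝ) ^ κ * (i : ℝ) ^ κ = 4 ^ i := div_mul_cancel₀ _ (by positivity)
  generalize (4 : ℝ) ^ i / (i : ℝ) ^ κ = X at hm1 hXpos hX
  have hb1 : (i : ℝ) ^ (κ + 5) * (e : ℝ) ≤ c1 / 8 * X := by
    have h6 : (i : ℝ) ^ (κ + 5) * (e : ℝ) ≤ (i : ℝ) ^ (κ + 5) * (4 ^ i / (i : ℝ) ^ (2 * κ + 12)) :=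
      mul_le_mul_of_nonneg_left he (by positivity)
    have h7 : (i : ℝ) ^ (κ + 5) * (4 ^ i / (i : ℝ) ^ (2 * κ + 12)) = X / (i : ℝ) ^ 7 := by
      rw [← hX]
      field_simp
      ring
    have h8 : X / (i : ℝ) ^ 7 ≤ X / (i : ℝ) := by
      refine div_le_div_of_nonneg_left hXpos.le hx0 ?_
      exact le_self_pow₀ hx1 (by norm_num)
    have h9 : X / (i : ℝ) ≤ c1 / 8 * X := by
      rw [div_le_iff₀ hx0]
      nlinarith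
    linarith
  have hb2 : (i : ℝ) ^ (κ + 5) * ((i : ℝ) ^ (κ + 5) * (A : ℝ) + A) ≤ c1 / 8 * X := by
    have h6 : (i : ℝ) ^ (κ + 5) * ((i : ℝ) ^ (κ + 5) * (A : ℝ) + A) ≤
        2 * ((i : ℝ) ^ (κ + 5) * (i : ℝ) ^ (κ + 5) * (4 ^ i / (i : ℝ) ^ (3 * κ + 20))) := by
      have h7 : (A : ℝ) ≤ (i : ℝ) ^ (κ + 5) * (A : ℝ) := by
        have h8 : (1 : ℝ) ≤ (i : ℝ) ^ (κ + 5) := one_le_pow₀ hx1
        nlinarith
      calc (i : ℝ) ^ (κ + 5) * ((i : ℝ) ^ (κ + 5) * (A : ℝ) + A)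
          ≤ (i : ℝ) ^ (κ + 5) * ((i : ℝ) ^ (κ + 5) * (A : ℝ) + (i : ℝ) ^ (κ + 5) * (A : ℝ)) := by
            gcongr
        _ = 2 * ((i : ℝ) ^ (κ + 5) * (i : ℝ) ^ (κ + 5) * (A : ℝ)) := by ring
        _ ≤ _ := by gcongr
    have h7 : (i : ℝ) ^ (κ + 5) * (i : ℝ) ^ (κ + 5) * (4 ^ i / (i : ℝ) ^ (3 * κ + 20)) =
        X / (i : ℝ) ^ 10 := by
      rw [← hX]
      field_simp
      ring
    have h8 : X / (i : ℝ) ^ 10 ≤ X / (i : ℝ) := by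
      refine div_le_div_of_nonneg_left hXpos.le hx0 ?_
      exact le_self_pow₀ hx1 (by norm_num)
    have h9 : X / (i : ℝ) ≤ c1 / 16 * X := by
      rw [div_le_iff₀ hx0]
      nlinarith
    rw [h7] at h6
    linarith
  have hb3 : (i : ℝ) ^ (κ + 5) * ((L : ℝ) + 1) ≤ c1 / 8 * X := by
    rw [div_lt_div_iff₀ h4pos (by positivity)] at h5
    have h6 : (i : ℝ) ^ κ * ((i : ℝ) ^ (κ + 5) * ((L : ℝ) + 1)) ≤ (i : ℝ) ^ κ * (c1 / 8 * X) := by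
      have h7 : (i : ℝ) ^ κ * ((i : ℝ) ^ (κ + 5) * ((L : ℝ) + 1)) = (i : ℝ) ^ (2 * κ + 5) * (L + 1) := by
        rw [← mul_assoc, ← pow_add]
        congr 2
        ring
      have h8 : (i : ℝ) ^ κ * (c1 / 8 * X) = c1 / 8 * 4 ^ i := by
        rw [← hX]
        ring
      rw [h7, h8]
      linarith
    exact le_of_mul_le_mul_left h6 (by positivity)
  have hF2 : c1 / 2 * X ≤ mM - (r : ℝ) -
      (i : ℝ) ^ (κ + 5) * ((e : ℝ) + (i : ℝ) ^ (κ + 5) * (A : ℝ) + A + L) := by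
    have h6 : (i : ℝ) ^ (κ + 5) * ((e : ℝ) + (i : ℝ) ^ (κ + 5) * (A : ℝ) + A + L) =
        (i : ℝ) ^ (κ + 5) * (e : ℝ) + (i : ℝ) ^ (κ + 5) * ((i : ℝ) ^ (κ + 5) * (A : ℝ) + A) +
          (i : ℝ) ^ (κ + 5) * L := by ring
    have h7 : (i : ℝ) ^ (κ + 5) * ((L : ℝ) + 1) = (i : ℝ) ^ (κ + 5) * L + (i : ℝ) ^ (κ + 5) := by ring
    have h8 : 0 < c1 * X := by positivity
    rw [h6]
    rw [h7] at hb3
    linarith
  -- the first factor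
  have hF1 : (i : ℝ) ^ (κ + 2) / (3 * 4 ^ i) ≤
      (A : ℝ) / (2 ^ i * (i : ℝ) ^ 3) / (A * ((ℓ : ℝ) / 2 ^ (i + 1) + 1)) := by
    have h6 : (ℓ : ℝ) / 2 ^ (i + 1) + 1 ≤ (ℓ : ℝ) / 2 ^ i := by
      have h7 : (1 : ℝ) ≤ (ℓ : ℝ) / 2 ^ (i + 1) := by
        rw [le_div_iff₀ (by positivity)]
        linarith
      have h8 : (ℓ : ℝ) / 2 ^ i = 2 * ((ℓ : ℝ) / 2 ^ (i + 1)) := by
        rw [pow_succ]
        field_simp
      rw [h8]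
      linarith
    rw [le_div_iff₀ (by positivity)]
    calc (i : ℝ) ^ (κ + 2) / (3 * 4 ^ i) * (A * ((ℓ : ℝ) / 2 ^ (i + 1) + 1))
        ≤ (i : ℝ) ^ (κ + 2) / (3 * 4 ^ i) * (A * ((ℓ : ℝ) / 2 ^ i)) := by gcongr
      _ = (A : ℝ) / (2 ^ i * (i : ℝ) ^ 3) * ((i : ℝ) ^ (κ + 5) * (ℓ : ℝ) / (3 * 4 ^ i)) := by
        field_simp
        ring
      _ ≤ (A : ℝ) / (2 ^ i * (i : ℝ) ^ 3) * 1 := by
        refine mul_le_mul_of_nonneg_left ?_ (by positivity)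
        rw [div_le_one (by positivity)]
        exact hmulR
      _ = _ := mul_one _
  have hprod : c1 * (i : ℝ) ^ 2 / 6 ≤
      (A : ℝ) / (2 ^ i * (i : ℝ) ^ 3) / (A * ((ℓ : ℝ) / 2 ^ (i + 1) + 1)) *
        (mM - (r : ℝ) - (i : ℝ) ^ (κ + 5) * ((e : ℝ) + (i : ℝ) ^ (κ + 5) * (A : ℝ) + A + L)) := by
    calc c1 * (i : ℝ) ^ 2 / 6 = (i : ℝ) ^ (κ + 2) / (3 * 4 ^ i) * (c1 / 2 * X) := by
          rw [← hX]
          field_simp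
          ring
      _ ≤ _ := mul_le_mul hF1 hF2 (by positivity) (le_trans (by positivity) hF1)
  have hlog2 := Real.log_two_lt_d9
  have hlog2' : 0 < Real.log 2 := Real.log_pos (by norm_num)
  have hexp : (2 : ℝ) ^ (i + 1) = Real.exp (((i : ℝ) + 1) * Real.log 2) := by
    rw [mul_comm, ← Real.rpow_def_of_pos (by norm_num : (0 : ℝ) < 2)]
    exact_mod_cast (Real.rpow_natCast 2 (i + 1)).symm
  have hlast : ((i : ℝ) + 1) * Real.log 2 < c1 * (i : ℝ) ^ 2 / 6 := by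
    have h6 : ((i : ℝ) + 1) * Real.log 2 ≤ 2 * (i : ℝ) := by nlinarith
    have h7 : 16 * (i : ℝ) ≤ c1 * (i : ℝ) ^ 2 := by nlinarith
    linarith
  calc (2 : ℝ) ^ (i + 1) * Real.exp (-((A : ℝ) / (2 ^ i * (i : ℝ) ^ 3) /
        (A * ((ℓ : ℝ) / 2 ^ (i + 1) + 1)) * (mM - (r : ℝ) -
          (i : ℝ) ^ (κ + 5) * ((e : ℝ) + (i : ℝ) ^ (κ + 5) * (A : ℝ) + A + L))))
      ≤ (2 : ℝ) ^ (i + 1) * Real.exp (-(c1 * (i : ℝ) ^ 2 / 6)) := by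
        refine mul_le_mul_of_nonneg_left ?_ (by positivity)
        exact Real.exp_le_exp.2 (neg_le_neg hprod)
    _ = Real.exp (((i : ℝ) + 1) * Real.log 2 - c1 * (i : ℝ) ^ 2 / 6) := by
        rw [hexp, ← Real.exp_add]
        rfl
    _ < 1 := by
        rw [Real.exp_lt_one_iff]
        linarith

end PoolTP
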