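import Pool.Agent.Work.MP_c971ef_nt.TP.Defs

set_option autoImplicit false

/-!
# Module Sta (size M): the beginning of the sequence

`G` = the set of the `m ≥ 1` with `Gd R 2 m`. `BlkSet` (with `j = 0 < L`) gives at least `c X / (log X) ^ κ` elements of `G` in `(X, 4 X]`, `X ≥ X₀` (a prime is at least 2, so `Gd R y m` implies `Gd R 2 m`). For
`X = 2 ^ i * i ^ (κ + 2)`, `i` large: `log X ≤ 2 i`, so there are at least `c 2 ^ i i ^ (κ + 2) / (2 i) ^ κ ≥ 2 ^ (i + 2) + L'` elements of `G` up to `4 X ≤ 2 ^ i * i ^ (κ + 4)`.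
-/

namespace PoolTP

open Finset Filter

private theorem sta_gd {R : ℕ} {y : ℝ} {m : ℕ} (h : Gd R y m) : Gd R 2 m :=
  ⟨h.1, fun r hr _ => by exact_mod_cast hr.two_le⟩

private theorem sta_seq {T B : ℕ} (hT : 0 < T) (g : Fin T ↪o ℕ) (h1 : ∀ t, 1 ≤ g t)
    (hB : ∀ t, g t ≤ B) :
    ∃ f : ℕ → ℕ, Monotone f ∧ (∀ m, 1 ≤ m → m ≤ T → ∃ t, m + f m = g t) ∧ ∀ m, f m ≤ B := by
  have hlt : ∀ m, 1 ≤ m → min m T - 1 < T := fun m hm => by omega
  have hge : ∀ t (h : t < T), t + 1 ≤ g ⟨t, h⟩ := by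
    intro t
    induction t with
    | zero => intro h; exact h1 _
    | succ t ih =>
      intro h
      have h2 := ih (by omega)
      have h3 : g ⟨t, by omega⟩ < g ⟨t + 1, h⟩ := g.strictMono (by simp [Fin.lt_def])
      omega
  refine ⟨fun m => if hm : 1 ≤ m then g ⟨min m T - 1, hlt m hm⟩ - min m T else 0, ?_, ?_, ?_⟩
  · refine monotone_nat_of_le_succ fun m => ?_
    by_cases hm : 1 ≤ m
    · rw [dif_pos hm, dif_pos (by omega : 1 ≤ m + 1)]
      by_cases hmT : m + 1 ≤ T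
      · have e1 : min m T = m := by omega
        have e2 : min (m + 1) T = m + 1 := by omega
        have h3 : g ⟨min m T - 1, hlt m hm⟩ < g ⟨min (m + 1) T - 1, hlt _ (by omega)⟩ :=
          g.strictMono (by simp only [Fin.lt_def]; omega)
        omega
      · have e1 : min m T = T := by omega
        have e2 : min (m + 1) T = T := by omega
        simp only [e1, e2]
        exact le_rfl
    · rw [dif_neg hm]
      exact Nat.zero_le _
  · intro m hm hmT
    refine ⟨⟨min m T - 1, hlt m hm⟩, ?_⟩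
    have h2 := hge (min m T - 1) (hlt m hm)
    simp only [dif_pos hm]
    omega
  · intro m
    by_cases hm : 1 ≤ m
    · simp only [dif_pos hm]
      have := hB ⟨min m T - 1, hlt m hm⟩
      omega
    · simp only [dif_neg hm]
      exact Nat.zero_le _

theorem start (L R κ : ℕ) (δ c : ℝ) (hL : 1 ≤ L) (hc : 0 < c) (h : BlkSet L R κ δ c)
    (L' : ℕ) : ∀ᶠ i : ℕ in atTop, ∃ f : ℕ → ℕ, Monotone f ∧
      (∀ m, 1 ≤ m → m ≤ 2 ^ (i + 2) + L' → Gd R 2 (m + f m)) ∧ ∀ m, f m ≤ 2 ^ i * i ^ (κ + 4) := by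
  obtain ⟨X₀, hX₀⟩ := h
  have hlog : ∀ᶠ i : ℕ in atTop, Real.log (2 ^ i * (i : ℝ) ^ (κ + 2)) ≤ 2 * i := by
    have h1 : ∀ᶠ x : ℝ in atTop, Real.log x ≤ (1 / (κ + 2)) * x := by
      have := (Real.isLittleO_log_id_atTop).bound (show (0 : ℝ) < 1 / (κ + 2) by positivity)
      filter_upwards [this, eventually_ge_atTop 1] with x hx hx1
      have h2 : 0 ≤ Real.log x := Real.log_nonneg hx1
      simp only [Real.norm_eq_abs, id, abs_of_nonneg h2, abs_of_nonneg (by linarith : (0:ℝ) ≤ x)]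
        at hx
      exact hx
    filter_upwards [tendsto_natCast_atTop_atTop.eventually h1, eventually_ge_atTop 1] with i hi hi1
    have hi0 : (0 : ℝ) < i := by exact_mod_cast hi1
    rw [Real.log_mul (by positivity) (by positivity), Real.log_pow, Real.log_pow]
    have h2 : Real.log 2 ≤ 1 := by
      have := Real.log_two_lt_d9; linarith
    have h3 : ((κ + 2 : ℕ) : ℝ) * Real.log i ≤ i := by
      calc ((κ + 2 : ℕ) : ℝ) * Real.log i ≤ ((κ + 2 : ℕ) : ℝ) * ((1 / (κ + 2)) * i) :=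
            mul_le_mul_of_nonneg_left hi (by positivity)
        _ = i := by push_cast; field_simp
    nlinarith
  have hbig : ∀ᶠ i : ℕ in atTop, (4 + L' : ℝ) * 2 ^ κ / c ≤ (i : ℝ) :=
    tendsto_natCast_atTop_atTop.eventually_ge_atTop _
  filter_upwards [hlog, hbig, eventually_ge_atTop 2, eventually_ge_atTop X₀] with i h1 h2 h3 h4
  have hi0 : (0 : ℝ) < i := by
    have : 0 < i := by omega
    exact_mod_cast this
  have hi1 : (1 : ℝ) ≤ i := by
    have : 1 ≤ i := by omega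
    exact_mod_cast this
  set X : ℕ := 2 ^ i * i ^ (κ + 2) with hX
  have hXi : i ≤ X := by
    have h5 : 1 ≤ 2 ^ i := Nat.one_le_two_pow
    have h6 : i ≤ i ^ (κ + 2) := Nat.le_self_pow (by omega) i
    calc i ≤ i ^ (κ + 2) := h6
      _ ≤ 2 ^ i * i ^ (κ + 2) := Nat.le_mul_of_pos_left _ h5
  obtain ⟨M, hM, hG, hcard⟩ := hX₀ X (h4.trans hXi)
  have hXr : (X : ℝ) = 2 ^ i * (i : ℝ) ^ (κ + 2) := by rw [hX]; push_cast; ring
  have hX1 : (1 : ℝ) < X := by
    have : 2 ≤ X := h3.trans hXi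
    have : (2 : ℝ) ≤ X := by exact_mod_cast this
    linarith
  have hlogpos : 0 < Real.log X := Real.log_pos hX1
  have hT : ((2 ^ (i + 2) + L' : ℕ) : ℝ) ≤ (#M : ℝ) := by
    refine le_trans ?_ hcard
    have h5 : (Real.log X) ^ κ ≤ (2 * (i : ℝ)) ^ κ := by
      apply pow_le_pow_left₀ hlogpos.le
      rw [hXr]; exact h1
    have h6 : (X : ℝ) / (2 * (i : ℝ)) ^ κ ≤ X / (Real.log X) ^ κ := by
      apply div_le_div_of_nonneg_left (by linarith) (by positivity) h5
    have h7 : (X : ℝ) / (2 * (i : ℝ)) ^ κ = 2 ^ i * (i : ℝ) ^ 2 / 2 ^ κ := by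
      rw [hXr, mul_pow, pow_add]
      field_simp
    have h8 : (4 + L' : ℝ) * 2 ^ κ ≤ i * c := by
      rwa [div_le_iff₀ hc] at h2
    have h9 : (4 + L' : ℝ) ≤ c * (i : ℝ) ^ 2 / 2 ^ κ := by
      rw [le_div_iff₀ (by positivity)]
      nlinarith [mul_pos hi0 hc]
    have h10 : (1 : ℝ) ≤ 2 ^ i := one_le_pow₀ (by norm_num)
    calc ((2 ^ (i + 2) + L' : ℕ) : ℝ) = 2 ^ i * 4 + L' := by push_cast; ring
      _ ≤ 2 ^ i * (4 + L') := by
          have : (0 : ℝ) ≤ L' := by positivity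
          nlinarith
      _ ≤ 2 ^ i * (c * (i : ℝ) ^ 2 / 2 ^ κ) := mul_le_mul_of_nonneg_left h9 (by positivity)
      _ = c * (X / (2 * (i : ℝ)) ^ κ) := by rw [h7]; ring
      _ ≤ c * (X / (Real.log X) ^ κ) := mul_le_mul_of_nonneg_left h6 hc.le
  have hT' : 2 ^ (i + 2) + L' ≤ #M := by exact_mod_cast hT
  obtain ⟨M', hM', hcard'⟩ := Finset.exists_subset_card_eq hT'
  obtain ⟨f, hf1, hf2, hf3⟩ := sta_seq (T := 2 ^ (i + 2) + L') (B := 4 * X)
    (by positivity) (M'.orderEmbOfFin hcard')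
    (fun t => by
      have := hM (hM' (M'.orderEmbOfFin_mem hcard' t))
      rw [Finset.mem_Ioc] at this
      omega)
    (fun t => by
      have := hM (hM' (M'.orderEmbOfFin_mem hcard' t))
      rw [Finset.mem_Ioc] at this
      exact this.2)
  refine ⟨f, hf1, ?_, ?_⟩
  · intro m hm hmT
    obtain ⟨t, ht⟩ := hf2 m hm hmT
    rw [ht]
    have := hG _ (hM' (M'.orderEmbOfFin_mem hcard' t)) 0 (by omega)
    rw [Nat.add_zero] at this
    exact sta_gd this
  · intro m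
    refine (hf3 m).trans ?_
    have h5 : 4 ≤ i ^ 2 := by nlinarith
    calc 4 * X = 2 ^ i * (i ^ (κ + 2) * 4) := by rw [hX]; ring
      _ ≤ 2 ^ i * (i ^ (κ + 2) * i ^ 2) := by gcongr
      _ = 2 ^ i * i ^ (κ + 4) := by ring

end PoolTP
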