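import Pool.Agent.Work.MP_c971ef_nt.TP.Defs
import Pool.Agent.Work.MP_c971ef_nt.TP.Blc
import Pool.Agent.Work.MP_c971ef_nt.TP.Num
import Pool.Agent.Work.MP_c971ef_nt.TP.Glu
import Pool.Agent.Work.MP_c971ef_nt.TP.Sta

set_option autoImplicit false

/-!
# Module Mai (size M): assembly

Let `i₁` be such that `hA1`, `hA2`, `hw` and `num κ L c`, hold for `i ≥ i₁`, and `4 ^ i ≥ X₀` (of `BlkSet`). `T i = C + ∑ j ∈ range i, j ^ (κ + 5) * A j` with `C = 2 ^ i₀ * i₀ ^ (κ + 4)`.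
For `i₀` large, `T i ≤ 4 ^ i / i ^ (2 κ + 12)` for all `i ≥ i₀`.
-/

namespace PoolTP

open Finset Filter

private theorem mai_pow (p : ℕ) : ∀ᶠ i : ℕ in atTop, ((i : ℝ) + 1) ^ p ≤ 2 * (i : ℝ) ^ p := by
  have h1 : Tendsto (fun i : ℕ => (1 + 1 / (i : ℝ)) ^ p) atTop (nhds 1) := by
    have h2 : Tendsto (fun i : ℕ => 1 + 1 / (i : ℝ)) atTop (nhds (1 + 0)) :=
      tendsto_const_nhds.add tendsto_one_div_atTop_nhds_zero_nat
    have h3 := h2.pow p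
    simpa using h3
  filter_upwards [h1.eventually (eventually_le_nhds (show (1 : ℝ) < 2 by norm_num)),
    eventually_ge_atTop 1] with i h2 h3
  have hi0 : (0 : ℝ) < i := by exact_mod_cast h3
  have e : ((i : ℝ) + 1) ^ p = (1 + 1 / (i : ℝ)) ^ p * (i : ℝ) ^ p := by
    rw [← mul_pow]; congr 1; field_simp
  rw [e]
  exact mul_le_mul_of_nonneg_right h2 (by positivity)

private theorem mai_exp (p : ℕ) (b : ℝ) :
    ∀ᶠ i : ℕ in atTop, b * (i : ℝ) ^ p ≤ (2 : ℝ) ^ i := by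
  have h := tendsto_pow_const_div_const_pow_of_one_lt p (show (1 : ℝ) < 2 by norm_num)
  have hb : (0 : ℝ) < 1 / (|b| + 1) := by positivity
  filter_upwards [h.eventually (eventually_le_nhds hb)] with i hi
  rw [div_le_iff₀ (by positivity)] at hi
  have h3 : b * (i : ℝ) ^ p ≤ (|b| + 1) * (i : ℝ) ^ p := by
    apply mul_le_mul_of_nonneg_right _ (by positivity)
    have := le_abs_self b; linarith
  refine h3.trans ?_
  calc (|b| + 1) * (i : ℝ) ^ p ≤ (|b| + 1) * (1 / (|b| + 1) * 2 ^ i) :=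
        mul_le_mul_of_nonneg_left hi (by positivity)
    _ = 2 ^ i := by field_simp

private theorem mai_sum (κ : ℕ) (A : ℕ → ℕ)
    (hA2 : ∀ᶠ i : ℕ in atTop, (A i : ℝ) ≤ 4 ^ i / (i : ℝ) ^ (3 * κ + 20)) :
    ∀ᶠ i : ℕ in atTop, ((∑ j ∈ range i, j ^ (κ + 5) * A j : ℕ) : ℝ) ≤
      (4 ^ i / (i : ℝ) ^ (2 * κ + 12)) / 2 := by
  obtain ⟨i₂, h₂⟩ := eventually_atTop.1 (hA2.and ((mai_pow (2 * κ + 15)).and
    (eventually_ge_atTop 1)))
  set S : ℕ → ℝ := fun i => ((∑ j ∈ range i, j ^ (κ + 5) * A j : ℕ) : ℝ) with hS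
  set C' : ℝ := max 1 (S i₂ * (i₂ : ℝ) ^ (2 * κ + 15) / 4 ^ i₂) with hC'
  have hC1 : 1 ≤ C' := le_max_left _ _
  have hind : ∀ i, i₂ ≤ i → S i ≤ C' * (4 ^ i / (i : ℝ) ^ (2 * κ + 15)) := by
    intro i hi
    induction i, hi using Nat.le_induction with
    | base =>
      have hi0 : (0 : ℝ) < (i₂ : ℝ) := by
        have := (h₂ i₂ le_rfl).2.2
        exact_mod_cast this
      have h1 : S i₂ * (i₂ : ℝ) ^ (2 * κ + 15) / 4 ^ i₂ ≤ C' := le_max_right _ _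
      calc S i₂ = (S i₂ * (i₂ : ℝ) ^ (2 * κ + 15) / 4 ^ i₂) *
            (4 ^ i₂ / (i₂ : ℝ) ^ (2 * κ + 15)) := by field_simp
        _ ≤ _ := mul_le_mul_of_nonneg_right h1 (by positivity)
    | succ i hi ih =>
      obtain ⟨ha, hb, hc⟩ := h₂ i hi
      have hi0 : (0 : ℝ) < (i : ℝ) := by exact_mod_cast hc
      have e1 : S (i + 1) = S i + (i : ℝ) ^ (κ + 5) * A i := by
        simp only [hS, Finset.sum_range_succ]
        push_cast
        ring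
      have h1 : (i : ℝ) ^ (κ + 5) * A i ≤ 4 ^ i / (i : ℝ) ^ (2 * κ + 15) := by
        calc (i : ℝ) ^ (κ + 5) * A i ≤ (i : ℝ) ^ (κ + 5) * (4 ^ i / (i : ℝ) ^ (3 * κ + 20)) :=
              mul_le_mul_of_nonneg_left ha (by positivity)
          _ = 4 ^ i / (i : ℝ) ^ (2 * κ + 15) := by
              have : (i : ℝ) ^ (3 * κ + 20) = (i : ℝ) ^ (κ + 5) * (i : ℝ) ^ (2 * κ + 15) := by
                rw [← pow_add]; congr 1; ring
              rw [this]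
              field_simp
      have h2 : 4 ^ i / (i : ℝ) ^ (2 * κ + 15) ≤
          2 * 4 ^ i / ((i : ℝ) + 1) ^ (2 * κ + 15) := by
        rw [div_le_div_iff₀ (by positivity) (by positivity)]
        have : (4 : ℝ) ^ i * ((i : ℝ) + 1) ^ (2 * κ + 15) ≤
          4 ^ i * (2 * (i : ℝ) ^ (2 * κ + 15)) := mul_le_mul_of_nonneg_left hb (by positivity)
        linarith
      have h3 : S (i + 1) ≤ (2 * C') * (4 ^ i / (i : ℝ) ^ (2 * κ + 15)) := by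
        have h4 : (0 : ℝ) ≤ 4 ^ i / (i : ℝ) ^ (2 * κ + 15) := by positivity
        rw [e1]
        nlinarith
      refine h3.trans ?_
      calc (2 * C') * (4 ^ i / (i : ℝ) ^ (2 * κ + 15)) ≤
            (2 * C') * (2 * 4 ^ i / ((i : ℝ) + 1) ^ (2 * κ + 15)) :=
              mul_le_mul_of_nonneg_left h2 (by linarith)
        _ = C' * (4 ^ (i + 1) / ((i + 1 : ℕ) : ℝ) ^ (2 * κ + 15)) := by
              push_cast
              rw [pow_succ 4 i]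
              ring
  have hbig : ∀ᶠ i : ℕ in atTop, 2 * C' ≤ (i : ℝ) :=
    tendsto_natCast_atTop_atTop.eventually_ge_atTop _
  filter_upwards [eventually_ge_atTop i₂, hbig, eventually_ge_atTop 1] with i h1 h2 h3
  have hi0 : (0 : ℝ) < (i : ℝ) := by exact_mod_cast h3
  have hi1 : (1 : ℝ) ≤ (i : ℝ) := by exact_mod_cast h3
  refine (hind i h1).trans ?_
  have e : (i : ℝ) ^ (2 * κ + 15) = (i : ℝ) ^ (2 * κ + 12) * (i : ℝ) ^ 3 := by rw [← pow_add]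
  have h4 : C' ≤ (i : ℝ) ^ 3 / 2 := by
    have h6 : (1 : ℝ) ≤ (i : ℝ) ^ 2 := one_le_pow₀ hi1
    nlinarith
  rw [e]
  calc C' * (4 ^ i / ((i : ℝ) ^ (2 * κ + 12) * (i : ℝ) ^ 3)) ≤
        ((i : ℝ) ^ 3 / 2) * (4 ^ i / ((i : ℝ) ^ (2 * κ + 12) * (i : ℝ) ^ 3)) :=
          mul_le_mul_of_nonneg_right h4 (by positivity)
    _ = _ := by field_simp

open Classical in
theorem main (L R κ : ℕ) (δ c : ℝ) (hL : 1 ≤ L) (hc : 0 < c) (hB : BlkSet L R κ δ c)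
    (K : ℕ → ℕ → Prop) (A : ℕ → ℕ) (hA1 : ∀ᶠ i : ℕ in atTop, 1 ≤ A i)
    (hA2 : ∀ᶠ i : ℕ in atTop, (A i : ℝ) ≤ 4 ^ i / (i : ℝ) ^ (3 * κ + 20))
    (hw : ∀ᶠ i : ℕ in atTop, ∀ n ∈ Ioc (2 ^ (i + 1)) (2 ^ (i + 2)), ∀ y, 4 ^ i ≤ y →
      y + A i ≤ 4 ^ (i + 1) → (A i : ℝ) / (2 ^ i * (i : ℝ) ^ 3) ≤
        (#((range (4 ^ (i + 1) + 1)).filter (fun k => K i k ∧ y < k * n ∧ k * n ≤ y + A i)) : ℝ)) :
    ∃ (i₀ C : ℕ) (a : ℕ → ℕ), 2 ≤ i₀ ∧ Monotone a ∧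
      (∀ m, 1 ≤ m → m ≤ 2 ^ (i₀ + 2) + L → Gd R 2 (m + a m)) ∧ (∀ i, i₀ ≤ i → Blk L R δ K i a) ∧
      ∀ i m, m ≤ 4 ^ i → a m ≤ C + ∑ j ∈ range i, j ^ (κ + 5) * A j := by
  have hst := start L R κ δ c hL hc hB L
  obtain ⟨X₀, hX₀⟩ := hB
  have hL4 : ∀ᶠ i : ℕ in atTop, 2 ^ (i + 2) + L ≤ 4 ^ i := by
    filter_upwards [eventually_ge_atTop (4 + L)] with i hi
    have h1 : i < 2 ^ i := Nat.lt_two_pow_self
    have h2 : (4 : ℕ) ^ i = 2 ^ i * 2 ^ i := by rw [← mul_pow]; norm_num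
    have h3 : 1 ≤ 2 ^ i := Nat.one_le_two_pow
    calc 2 ^ (i + 2) + L ≤ 2 ^ i * 4 + 2 ^ i * L := by
          rw [pow_add]
          have : L ≤ 2 ^ i * L := Nat.le_mul_of_pos_left _ h3
          omega
      _ = 2 ^ i * (4 + L) := by ring
      _ ≤ 2 ^ i * 2 ^ i := Nat.mul_le_mul_left _ (by omega)
      _ = 4 ^ i := h2.symm
  have hX4 : ∀ᶠ i : ℕ in atTop, X₀ ≤ 4 ^ i := by
    filter_upwards [eventually_ge_atTop X₀] with i hi
    have : i < 4 ^ i := Nat.lt_pow_self (by norm_num)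
    omega
  obtain ⟨i₀, h₀⟩ := eventually_atTop.1 (hA1.and (hA2.and (hw.and ((num κ L c hc).and
    (hst.and (hL4.and (hX4.and ((mai_sum κ A hA2).and ((mai_exp (3 * κ + 16) 2).and
      (eventually_ge_atTop 2))))))))))
  set T : ℕ → ℕ := fun i => 2 ^ i₀ * i₀ ^ (κ + 4) + ∑ j ∈ range i, j ^ (κ + 5) * A j with hT
  have hTm : Monotone T := by
    intro i j hij
    simp only [hT]
    have : ∑ j ∈ range i, j ^ (κ + 5) * A j ≤ ∑ j ∈ range j, j ^ (κ + 5) * A j :=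
      Finset.sum_le_sum_of_subset (Finset.range_subset_range.2 hij)
    omega
  have hTb : ∀ i, i₀ ≤ i → (T i : ℝ) ≤ 4 ^ i / (i : ℝ) ^ (2 * κ + 12) := by
    intro i hi
    obtain ⟨-, -, -, -, -, -, -, h1, h2, h3⟩ := h₀ i hi
    have hi0 : (0 : ℝ) < (i : ℝ) := by
      have : 0 < i := by omega
      exact_mod_cast this
    have h4 : ((2 ^ i₀ * i₀ ^ (κ + 4) : ℕ) : ℝ) ≤ (4 ^ i / (i : ℝ) ^ (2 * κ + 12)) / 2 := by
      have h5 : 2 ^ i₀ * i₀ ^ (κ + 4) ≤ 2 ^ i * i ^ (κ + 4) :=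
        Nat.mul_le_mul (Nat.pow_le_pow_right (by norm_num) hi) (Nat.pow_le_pow_left hi _)
      have h6 : ((2 ^ i₀ * i₀ ^ (κ + 4) : ℕ) : ℝ) ≤ 2 ^ i * (i : ℝ) ^ (κ + 4) := by
        exact_mod_cast h5
      refine h6.trans ?_
      rw [div_div, le_div_iff₀ (by positivity)]
      have e : (i : ℝ) ^ (3 * κ + 16) = (i : ℝ) ^ (κ + 4) * (i : ℝ) ^ (2 * κ + 12) := by
        rw [← pow_add]; congr 1; ring
      rw [e] at h2
      have e4 : (4 : ℝ) ^ i = 2 ^ i * 2 ^ i := by rw [← mul_pow]; norm_num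
      rw [e4]
      calc 2 ^ i * (i : ℝ) ^ (κ + 4) * ((i : ℝ) ^ (2 * κ + 12) * 2) =
            2 ^ i * (2 * ((i : ℝ) ^ (κ + 4) * (i : ℝ) ^ (2 * κ + 12))) := by ring
        _ ≤ 2 ^ i * 2 ^ i := mul_le_mul_of_nonneg_left h2 (by positivity)
    have e5 : (T i : ℝ) = ((2 ^ i₀ * i₀ ^ (κ + 4) : ℕ) : ℝ) +
        ((∑ j ∈ range i, j ^ (κ + 5) * A j : ℕ) : ℝ) := by
      simp only [hT]
      rw [Nat.cast_add]
    rw [e5]
    linarith
  obtain ⟨f₀, g1, g2, g3⟩ := (h₀ i₀ le_rfl).2.2.2.2.1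
  have hstep : ∀ i, i₀ ≤ i → ∀ e, e ≤ T i → ∃ f : ℕ → ℕ, Monotone f ∧ (∀ m ≤ 4 ^ i, f m = e) ∧
      (∀ m, f m ≤ T (i + 1)) ∧ Blk L R δ K i f := by
    intro i hi e he
    obtain ⟨a1, a2, a3, a4, -, -, a7, -, -, a10⟩ := h₀ i hi
    obtain ⟨M, hM, hG, hcard⟩ := hX₀ (4 ^ i) a7
    have heR : (e : ℝ) ≤ 4 ^ i / (i : ℝ) ^ (2 * κ + 12) :=
      le_trans (by exact_mod_cast he) (hTb i hi)
    obtain ⟨n1, n2, n3⟩ := a4 (A i) e (#M : ℝ) a1 a2 heR hcard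
    have e2 : 2 * 2 ^ (i + 1) = 2 ^ (i + 2) := by ring
    have e4 : 4 * 4 ^ i = 4 ^ (i + 1) := by ring
    obtain ⟨f, f1, f2, f3, f4⟩ := block (2 ^ (i + 1)) (4 ^ i) (i ^ (κ + 5))
      (3 * 4 ^ i / i ^ (κ + 5)) (A i) L e M (K i) ((A i : ℝ) / (2 ^ i * (i : ℝ) ^ 3))
      Nat.one_le_two_pow a1 (by positivity) n1 n2 hM
      (fun n hn y hy hy2 => by
        rw [e2] at hn
        rw [e4] at hy2 ⊢
        exact a3 n hn y hy hy2) n3
    refine ⟨f, f1, f2, ?_, ?_⟩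
    · intro m
      refine (f3 m).trans ?_
      have : T (i + 1) = T i + i ^ (κ + 5) * A i := by
        simp only [hT, Finset.sum_range_succ]
        ring
      omega
    · intro n hn
      rw [← e2] at hn
      obtain ⟨k, k1, k2, k3, k4, k5⟩ := f4 n hn
      refine ⟨k, k1, k2, by rw [← e4]; exact k3, ?_⟩
      intro j hj
      have h7 := hG _ k5 j hj
      rw [k4 j hj.le]
      have e6 : k * n + j + f (k * n) = k * n + f (k * n) + j := by ring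
      rw [e6]
      exact h7
  obtain ⟨a, b1, b2, b3, b4⟩ := glue i₀ T hTm (Blk L R δ K) (by
      intro i f g hfg hf n hn
      obtain ⟨k, k1, k2, k3, k4⟩ := hf n hn
      refine ⟨k, k1, k2, k3, ?_⟩
      intro j hj
      rw [← hfg (k * n + j) (by omega) (by omega)]
      exact k4 j hj) hstep f₀ g1 (fun m => (g3 m).trans (by
        simp only [hT]
        exact Nat.le_add_right _ _))
  refine ⟨i₀, T i₀, a, (h₀ i₀ le_rfl).2.2.2.2.2.2.2.2.2, b1, ?_, b4, ?_⟩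
  · intro m hm hm2
    have h8 : m ≤ 4 ^ i₀ := hm2.trans (h₀ i₀ le_rfl).2.2.2.2.2.1
    rw [b2 m h8]
    exact g2 m hm hm2
  · intro i m hm
    rcases Nat.lt_or_ge i i₀ with hi | hi
    · have h9 : m ≤ 4 ^ i₀ := hm.trans (Nat.pow_le_pow_right (by norm_num) hi.le)
      exact (b3 i₀ le_rfl m h9).trans (Nat.le_add_right _ _)
    · refine (b3 i hi m hm).trans ?_
      simp only [hT]
      omega

end PoolTP
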