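import Pool.Agent.Work.BV.PNTS

set_option autoImplicit false

/-!
# Module PrS (size M): primes `2 k + 1` in intervals of length `y / (log y) ^ B`

Use `pnt_smooth` (`Work/BV/PNTS.lean`; see `BV/Defs.lean` for `Bump`, `th`) with `A = 4 * B + 4` for example. Fix a smooth `φ : ℝ → ℝ`, `0 ≤ φ ≤ 1`, support in
`[0, 1]`, `∫ φ = I > 0` (`ContDiffBump`, or the construction in `BV/SMF.lean`), the derivatives up to order 3 bounded by `D₀`. Given `y`, `H`, let
`N = y + 1` hence `N < 2 y + 1` and put `η = 2 H / N` if `H ≤ N / 8`, otherwise replace `H` by `N / 8` (the claim for the smaller interval `(y, y + H']`,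
`H' = min H (y / 8)`, implies the claim up to a factor 16, which is absorbed by `(log y) ^ 2` against `log y`). Take `N` with
`(2 y + 1) / N` about `3/2`, for example `N = (4 y + 2) / 3`, and `psi t = φ ((t - (2 y + 1) / N) / η)`, `η = 2 H' / N ≤ 1/4`: support in
`[(2 y + 1) / N, (2 y + 1 + 2 H') / N] ⊆ [1, 2]`, `Bump psi (D₀ / η ^ 3)` (`η ≤ 1`), `∫ psi = η I`. So
`∑ th p psi (p / N) ≥ N η I - K D₀ η⁻³ N / (log N) ^ A ≥ N η I / 2 = H' I` for large `y`, because `η ≥ (log y) ^ (-B) / 8` or so. The left side is at most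
`log (2 N)` times the number of the primes `p` with `2 y + 1 < p < 2 y + 2 H' + 1` (`φ` vanishes at the end points too), and these are odd:
`p = 2 k + 1` with `y < k ≤ y + H'`. Finally `H' I / log (2 N) ≥ H / (log y) ^ 2` for large `y`.
-/

namespace PoolTP

section bump

open Finset Filter MeasureTheory Topology BV
open scoped ContDiff ArithmeticFunction.Moebius ArithmeticFunction.vonMangoldt

private theorem prs_bound (i : ℕ) : ∃ B : ℝ, ∀ u : ℝ,
    |iteratedDeriv i Real.smoothTransition u| ≤ B := by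
  have hc : Continuous (iteratedDeriv i Real.smoothTransition) :=
    ContDiff.continuous_iteratedDeriv' i Real.smoothTransition.contDiff
  obtain ⟨B, hB⟩ := isCompact_Icc.exists_bound_of_continuousOn (s := Set.Icc (0:ℝ) 1)
    hc.continuousOn
  refine ⟨max B 1, fun u => ?_⟩
  by_cases hu : u ∈ Set.Icc (0:ℝ) 1
  · exact (hB u hu).trans (le_max_left _ _)
  · rcases Nat.eq_zero_or_pos i with rfl | hi
    · rw [iteratedDeriv_zero, abs_of_nonneg (Real.smoothTransition.nonneg u)]
      exact (Real.smoothTransition.le_one u).trans (le_max_right _ _)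
    · have hconst : ∃ c : ℝ, Real.smoothTransition =ᶠ[𝓝 u] fun _ => c := by
        rw [Set.mem_Icc, not_and_or, not_le, not_le] at hu
        rcases hu with hu | hu
        · refine ⟨0, ?_⟩
          filter_upwards [Iio_mem_nhds hu] with v hv
          exact Real.smoothTransition.zero_of_nonpos (le_of_lt hv)
        · refine ⟨1, ?_⟩
          filter_upwards [Ioi_mem_nhds hu] with v hv
          exact Real.smoothTransition.one_of_one_le (le_of_lt hv)
      obtain ⟨c, hc⟩ := hconst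
      have h1 : iteratedDeriv i Real.smoothTransition u = 0 := by
        rw [hc.iteratedDeriv_eq i, iteratedDeriv_const]
        rw [if_neg hi.ne']
      rw [h1, abs_zero]
      exact zero_le_one.trans (le_max_right _ _)

private theorem prs_aff (i : ℕ) (a c : ℝ) (t : ℝ) :
    iteratedDeriv i (fun t => Real.smoothTransition (a * t + c)) t =
      a ^ i * iteratedDeriv i Real.smoothTransition (a * t + c) := by
  have h1 : iteratedDeriv i (fun x => (fun z => Real.smoothTransition (z + c)) (a * x)) =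
      fun x => a ^ i * iteratedDeriv i (fun z => Real.smoothTransition (z + c)) (a * x) :=
    iteratedDeriv_comp_const_mul (Real.smoothTransition.contDiff.comp
      (contDiff_id.add contDiff_const)) a
  have h2 := congrFun h1 t
  simp only at h2
  rw [h2, iteratedDeriv_comp_add_const]

private theorem prs_gen : ∃ C : ℝ, 0 < C ∧ ∀ δ α β : ℝ, 0 < δ → δ ≤ 1 / 20 → 1 ≤ α → β ≤ 2 →
    α + 2 * δ ≤ β → ∃ psi : ℝ → ℝ,
    Bump psi (C / δ ^ 3) ∧ (∀ t, 0 ≤ psi t ∧ psi t ≤ 1) ∧
    (∀ t, t ≤ α ∨ β ≤ t → psi t = 0) ∧ (∀ t, α + δ ≤ t → t ≤ β - δ → psi t = 1) ∧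
    (β - α - 2 * δ ≤ ∫ t, psi t) ∧ (∫ t, psi t) ≤ β - α := by
  choose B hB using prs_bound
  set M := ∑ i ∈ Finset.range 4, |B i| with hM
  have hM0 : 0 ≤ M := Finset.sum_nonneg fun i _ => abs_nonneg _
  have hBM : ∀ i ≤ 3, ∀ u, |iteratedDeriv i Real.smoothTransition u| ≤ M := by
    intro i hi u
    refine (hB i u).trans ((le_abs_self _).trans ?_)
    exact Finset.single_le_sum (f := fun i => |B i|) (fun i _ => abs_nonneg _)
      (Finset.mem_range.2 (by omega))
  refine ⟨8 * M ^ 2 + 1, by positivity, ?_⟩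
  intro δ α β hδ hδ1 hα hβ hαβ
  set f : ℝ → ℝ := fun t => Real.smoothTransition (δ⁻¹ * t + (-(α / δ))) with hf
  set g : ℝ → ℝ := fun t => Real.smoothTransition (-δ⁻¹ * t + β / δ) with hg
  have hfc : ContDiff ℝ ∞ f :=
    Real.smoothTransition.contDiff.comp ((contDiff_const.mul contDiff_id).add contDiff_const)
  have hgc : ContDiff ℝ ∞ g :=
    Real.smoothTransition.contDiff.comp ((contDiff_const.mul contDiff_id).add contDiff_const)
  have hf0 : ∀ t, t ≤ α → f t = 0 := by
    intro t ht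
    refine Real.smoothTransition.zero_of_nonpos ?_
    have : δ⁻¹ * t + (-(α / δ)) = (t - α) / δ := by ring
    rw [this]
    exact div_nonpos_of_nonpos_of_nonneg (by linarith) hδ.le
  have hf1 : ∀ t, α + δ ≤ t → f t = 1 := by
    intro t ht
    refine Real.smoothTransition.one_of_one_le ?_
    have : δ⁻¹ * t + (-(α / δ)) = (t - α) / δ := by ring
    rw [this, le_div_iff₀ hδ]
    linarith
  have hg0 : ∀ t, β ≤ t → g t = 0 := by
    intro t ht
    refine Real.smoothTransition.zero_of_nonpos ?_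
    have : -δ⁻¹ * t + β / δ = (β - t) / δ := by ring
    rw [this]
    exact div_nonpos_of_nonpos_of_nonneg (by linarith) hδ.le
  have hg1 : ∀ t, t ≤ β - δ → g t = 1 := by
    intro t ht
    refine Real.smoothTransition.one_of_one_le ?_
    have : -δ⁻¹ * t + β / δ = (β - t) / δ := by ring
    rw [this, le_div_iff₀ hδ]
    linarith
  have hfn : ∀ t, 0 ≤ f t ∧ f t ≤ 1 := fun t =>
    ⟨Real.smoothTransition.nonneg _, Real.smoothTransition.le_one _⟩
  have hgn : ∀ t, 0 ≤ g t ∧ g t ≤ 1 := fun t =>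
    ⟨Real.smoothTransition.nonneg _, Real.smoothTransition.le_one _⟩
  set psi : ℝ → ℝ := fun t => f t * g t with hpsi
  have hpc : ContDiff ℝ ∞ psi := hfc.mul hgc
  have hp01 : ∀ t, 0 ≤ psi t ∧ psi t ≤ 1 := fun t =>
    ⟨mul_nonneg (hfn t).1 (hgn t).1, mul_le_one₀ (hfn t).2 (hgn t).1 (hgn t).2⟩
  have hp0 : ∀ t, t ≤ α ∨ β ≤ t → psi t = 0 := by
    intro t ht
    rcases ht with ht | ht
    · simp [hpsi, hf0 t ht]
    · simp [hpsi, hg0 t ht]
  have hp1 : ∀ t, α + δ ≤ t → t ≤ β - δ → psi t = 1 := by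
    intro t h1 h2
    simp [hpsi, hf1 t h1, hg1 t h2]
  have hint : Integrable psi := by
    refine hpc.continuous.integrable_of_hasCompactSupport ?_
    refine HasCompactSupport.intro (K := Set.Icc α β) isCompact_Icc ?_
    intro t ht
    rw [Set.mem_Icc, not_and_or, not_le, not_le] at ht
    exact hp0 t (ht.imp le_of_lt le_of_lt)
  refine ⟨psi, ⟨hpc, ?_, ?_⟩, hp01, hp0, hp1, ?_, ?_⟩
  · intro t ht
    exact hp0 t (ht.imp (fun h => h.trans hα) (fun h => hβ.trans h))
  · intro i hi t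
    have h1 : iteratedDeriv i psi t = ∑ k ∈ Finset.range (i + 1),
        i.choose k * iteratedDeriv k f t * iteratedDeriv (i - k) g t := by
      refine iteratedDeriv_fun_mul ?_ ?_
      · exact (hfc.of_le (by exact_mod_cast le_top)).contDiffAt
      · exact (hgc.of_le (by exact_mod_cast le_top)).contDiffAt
    rw [h1]
    have hδi : 1 ≤ δ⁻¹ := by
      rw [one_le_inv₀ hδ]; linarith
    have h2 : ∀ k ∈ Finset.range (i + 1),
        |(i.choose k : ℝ) * iteratedDeriv k f t * iteratedDeriv (i - k) g t| ≤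
          i.choose k * (M ^ 2 * δ⁻¹ ^ 3) := by
      intro k hk
      have hk' : k ≤ i := by
        have := Finset.mem_range.1 hk
        omega
      rw [hf, hg, prs_aff, prs_aff, abs_mul, abs_mul, abs_mul, abs_mul, abs_pow, abs_pow, abs_neg,
        abs_of_nonneg (by positivity : (0:ℝ) ≤ δ⁻¹), Nat.abs_cast]
      have e1 := hBM k (by omega) (δ⁻¹ * t + (-(α / δ)))
      have e2 := hBM (i - k) (by omega) (-δ⁻¹ * t + β / δ)
      have e3 : δ⁻¹ ^ k * δ⁻¹ ^ (i - k) ≤ δ⁻¹ ^ 3 := by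
        rw [← pow_add]
        exact pow_le_pow_right₀ hδi (by omega)
      calc (i.choose k : ℝ) * (δ⁻¹ ^ k * |iteratedDeriv k Real.smoothTransition _|) *
            (δ⁻¹ ^ (i - k) * |iteratedDeriv (i - k) Real.smoothTransition _|)
          ≤ (i.choose k : ℝ) * (δ⁻¹ ^ k * M) * (δ⁻¹ ^ (i - k) * M) := by gcongr
        _ = i.choose k * (M ^ 2 * (δ⁻¹ ^ k * δ⁻¹ ^ (i - k))) := by ring
        _ ≤ i.choose k * (M ^ 2 * δ⁻¹ ^ 3) := by gcongr
    have h3 : ∑ k ∈ Finset.range (i + 1), (i.choose k : ℝ) = 2 ^ i := by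
      exact_mod_cast Nat.sum_range_choose i
    calc |∑ k ∈ Finset.range (i + 1), i.choose k * iteratedDeriv k f t * iteratedDeriv (i - k) g t|
        ≤ ∑ k ∈ Finset.range (i + 1),
          |(i.choose k : ℝ) * iteratedDeriv k f t * iteratedDeriv (i - k) g t| :=
          Finset.abs_sum_le_sum_abs _ _
      _ ≤ ∑ k ∈ Finset.range (i + 1), i.choose k * (M ^ 2 * δ⁻¹ ^ 3) := Finset.sum_le_sum h2
      _ = 2 ^ i * (M ^ 2 * δ⁻¹ ^ 3) := by rw [← Finset.sum_mul, h3]
      _ ≤ 2 ^ 3 * (M ^ 2 * δ⁻¹ ^ 3) := by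
          gcongr
          norm_num
      _ ≤ (8 * M ^ 2 + 1) / δ ^ 3 := by
          rw [div_eq_mul_inv, ← inv_pow]
          have : 0 ≤ δ⁻¹ ^ 3 := by positivity
          nlinarith
  · have h1 : ∫ t in Set.Icc (α + δ) (β - δ), (1:ℝ) ≤ ∫ t, psi t := by
      rw [← integral_indicator measurableSet_Icc]
      refine integral_mono_of_nonneg ?_ hint ?_
      · exact Filter.Eventually.of_forall fun t => Set.indicator_nonneg (fun _ _ => zero_le_one) t
      · refine Filter.Eventually.of_forall fun t => ?_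
        by_cases ht : t ∈ Set.Icc (α + δ) (β - δ)
        · rw [Set.indicator_of_mem ht, hp1 t ht.1 ht.2]
        · rw [Set.indicator_of_notMem ht]
          exact (hp01 t).1
    refine le_trans (le_of_eq ?_) h1
    rw [setIntegral_const, smul_eq_mul, mul_one, Measure.real, Real.volume_Icc,
      ENNReal.toReal_ofReal (by linarith)]
    ring
  · have h1 : ∫ t, psi t ≤ ∫ t in Set.Icc α β, (1:ℝ) := by
      rw [← integral_indicator measurableSet_Icc]
      refine integral_mono_of_nonneg ?_ ?_ ?_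
      · exact Filter.Eventually.of_forall fun t => (hp01 t).1
      · rw [integrable_indicator_iff measurableSet_Icc]
        exact integrableOn_const (by rw [Real.volume_Icc]; exact ENNReal.ofReal_ne_top) 
      · refine Filter.Eventually.of_forall fun t => ?_
        by_cases ht : t ∈ Set.Icc α β
        · rw [Set.indicator_of_mem ht]
          exact (hp01 t).2
        · rw [Set.indicator_of_notMem ht]
          rw [Set.mem_Icc, not_and_or, not_le, not_le] at ht
          exact (hp0 t (ht.imp le_of_lt le_of_lt)).le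
    refine h1.trans (le_of_eq ?_)
    rw [setIntegral_const, smul_eq_mul, mul_one, Measure.real, Real.volume_Icc,
      ENNReal.toReal_ofReal (by linarith)]

end bump

open Finset

private theorem prs_card (y H H' N : ℕ) (hy : 1 ≤ y) (hH : H' ≤ H) (psi : ℝ → ℝ)
    (h01 : ∀ t, 0 ≤ psi t ∧ psi t ≤ 1) (hN : 1 ≤ N)
    (h0 : ∀ t, t ≤ (2 * y + 1 : ℝ) / N ∨ (2 * y + 1 + 2 * H' : ℝ) / N ≤ t → psi t = 0) :
    ∑ p ∈ range (2 * N), BV.th p * psi ((p : ℝ) / N) ≤
      Real.log (2 * N) * (#((Ioc y (y + H)).filter (fun k => (2 * k + 1).Prime)) : ℝ) := by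
  classical
  have hNr : (0 : ℝ) < N := by exact_mod_cast hN
  have hlog : 0 ≤ Real.log (2 * N) := Real.log_nonneg (by
    have : (1 : ℝ) ≤ N := by exact_mod_cast hN
    linarith)
  set W := (range (2 * N)).filter (fun p => p.Prime ∧ 2 * y + 1 < p ∧ p < 2 * y + 1 + 2 * H')
    with hW
  have h1 : ∑ p ∈ range (2 * N), BV.th p * psi ((p : ℝ) / N) ≤ ∑ p ∈ W, Real.log (2 * N) := by
    rw [hW, sum_filter]
    refine sum_le_sum fun p hp => ?_
    have hp2 : (p : ℝ) ≤ 2 * N := by
      have := mem_range.1 hp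
      exact_mod_cast this.le
    split_ifs with h
    · have h2 : BV.th p ≤ Real.log (2 * N) := by
        unfold BV.th
        rw [if_pos h.1]
        exact Real.log_le_log (by exact_mod_cast h.1.pos) hp2
      have h3 : 0 ≤ BV.th p := by
        unfold BV.th
        rw [if_pos h.1]
        exact Real.log_natCast_nonneg p
      calc BV.th p * psi ((p : ℝ) / N) ≤ BV.th p * 1 :=
            mul_le_mul_of_nonneg_left (h01 _).2 h3
        _ = BV.th p := mul_one _
        _ ≤ _ := h2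
    · by_cases hpp : p.Prime
      · have h4 : psi ((p : ℝ) / N) = 0 := by
          apply h0
          rw [not_and, not_and] at h
          by_cases h5 : 2 * y + 1 < p
          · right
            have h6 := h hpp h5
            push Not at h6
            apply div_le_div_of_nonneg_right _ hNr.le
            exact_mod_cast h6
          · left
            push Not at h5
            apply div_le_div_of_nonneg_right _ hNr.le
            exact_mod_cast h5
        rw [h4, mul_zero]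
      · unfold BV.th
        rw [if_neg hpp, zero_mul]
  refine h1.trans ?_
  rw [sum_const, nsmul_eq_mul, mul_comm]
  refine mul_le_mul_of_nonneg_left ?_ hlog
  refine Nat.cast_le.2 ?_
  refine card_le_card_of_injOn (fun p => (p - 1) / 2) ?_ ?_
  · intro p hp
    have hp' := mem_filter.1 (mem_coe.1 hp)
    obtain ⟨-, h2, h3, h4⟩ := hp'
    have hodd : Odd p := h2.odd_of_ne_two (by omega)
    obtain ⟨k, rfl⟩ := hodd
    have h5 : (2 * k + 1 - 1) / 2 = k := by omega
    rw [mem_coe, mem_filter, mem_Ioc]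
    simp only
    rw [h5]
    exact ⟨⟨by omega, by omega⟩, h2⟩
  · intro p hp p' hp' h
    have h1 := (mem_filter.1 (mem_coe.1 hp)).2
    have h2 := (mem_filter.1 (mem_coe.1 hp')).2
    obtain ⟨k, rfl⟩ : Odd p := h1.1.odd_of_ne_two (by omega)
    obtain ⟨k', rfl⟩ : Odd p' := h2.1.odd_of_ne_two (by omega)
    simp only at h
    omega

open Classical in
theorem prime_short (B : ℕ) : ∃ y₀ : ℕ, ∀ y H : ℕ, y₀ ≤ y → (y : ℝ) / (Real.log y) ^ B ≤ H →
    H ≤ y → (H : ℝ) / (Real.log y) ^ 2 ≤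
      (#((Ioc y (y + H)).filter (fun k => (2 * k + 1).Prime)) : ℝ) := by
  obtain ⟨K, hK, hpnt⟩ := BV.pnt_smooth (4 * B + 1)
  obtain ⟨C, hC, hbump⟩ := prs_gen
  obtain ⟨E, hE⟩ : ∃ E : ℝ, E = 16 * K * C * 64 ^ 4 := ⟨_, rfl⟩
  obtain ⟨y₁, hy₁⟩ := Filter.eventually_atTop.1
    ((Real.tendsto_log_atTop.comp tendsto_natCast_atTop_atTop).eventually_ge_atTop (max E 128))
  refine ⟨max y₁ 100, ?_⟩
  intro y H hy hH hHy
  have hyy : y₁ ≤ y := (le_max_left _ _).trans hy
  have hy100 : 100 ≤ y := (le_max_right _ _).trans hy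
  have hyr : (100 : ℝ) ≤ y := by exact_mod_cast hy100
  have hl := hy₁ y hyy
  simp only [Function.comp_apply, max_le_iff] at hl
  obtain ⟨hlE, hl128⟩ := hl
  set ℓ := Real.log y with hℓ
  have hℓ0 : 0 < ℓ := by linarith
  have hH0 : 0 < H := by
    have h1 : (0 : ℝ) < y / ℓ ^ B := by positivity
    exact_mod_cast h1.trans_le hH
  obtain ⟨H', hH'⟩ : ∃ H' : ℕ, H' = min H (y / 16) := ⟨_, rfl⟩
  have hH'H : H' ≤ H := by rw [hH']; exact min_le_left _ _
  have hH'y : 16 * H' ≤ y := by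
    have : H' ≤ y / 16 := by rw [hH']; exact min_le_right _ _
    omega
  have hH'0 : 1 ≤ H' := by
    rw [hH']
    exact le_min hH0 (by omega)
  have hH32 : H ≤ 32 * H' := by
    rcases le_total H (y / 16) with h | h
    · rw [hH', min_eq_left h]; omega
    · rw [hH', min_eq_right h]; omega
  obtain ⟨N, hN⟩ : ∃ N : ℕ, N = (4 * y + 2) / 3 := ⟨_, rfl⟩
  have hN1 : 3 * N ≤ 4 * y + 2 := by omega
  have hN2 : 4 * y ≤ 3 * N := by omega
  have hN1r : 3 * (N : ℝ) ≤ 4 * y + 2 := by exact_mod_cast hN1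
  have hN2r : 4 * (y : ℝ) ≤ 3 * N := by exact_mod_cast hN2
  have hN0 : (0 : ℝ) < N := by linarith
  have hH'r : (1 : ℝ) ≤ H' := by exact_mod_cast hH'0
  have hH'yr : 16 * (H' : ℝ) ≤ y := by exact_mod_cast hH'y
  obtain ⟨α, hα⟩ : ∃ α : ℝ, α = (2 * y + 1 : ℝ) / N := ⟨_, rfl⟩
  obtain ⟨β, hβ⟩ : ∃ β : ℝ, β = (2 * y + 1 + 2 * H' : ℝ) / N := ⟨_, rfl⟩
  obtain ⟨δ, hδ⟩ : ∃ δ : ℝ, δ = H' / (2 * N) := ⟨_, rfl⟩
  have hβα : β - α = 4 * δ := by
    rw [hβ, hα, hδ]
    field_simp
    ring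
  have hδ0 : 0 < δ := by rw [hδ]; positivity
  have hδ1 : δ ≤ 1 / 20 := by
    rw [hδ, div_le_div_iff₀ (by positivity) (by norm_num)]
    nlinarith
  have hα1 : 1 ≤ α := by
    rw [hα, le_div_iff₀ hN0]
    linarith
  have hβ2 : β ≤ 2 := by
    rw [hβ, div_le_iff₀ hN0]
    nlinarith
  obtain ⟨psi, hB, h01, h0, -, hint, -⟩ := hbump δ α β hδ0 hδ1 hα1 hβ2 (by linarith)
  have hp := hpnt psi _ hB N (by omega)
  have hcard := prs_card y H H' N (by omega) hH'H psi h01 (by omega) (by rw [← hα, ← hβ]; exact h0)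
  have hlN : ℓ ≤ Real.log N := Real.log_le_log (by linarith) (by linarith)
  have hlN0 : 0 < Real.log N := by linarith
  -- the error term
  have hNH : (N : ℝ) ≤ 64 * ℓ ^ B * H' := by
    have h1 : (y : ℝ) ≤ H * ℓ ^ B := by
      rwa [div_le_iff₀ (by positivity)] at hH
    have h2 : (H : ℝ) ≤ 32 * H' := by exact_mod_cast hH32
    have h3 : (H : ℝ) * ℓ ^ B ≤ 32 * H' * ℓ ^ B := mul_le_mul_of_nonneg_right h2 (by positivity)
    nlinarith
  have herr : K * (C / δ ^ 3) * N / Real.log N ^ (4 * B + 1) ≤ H' / 2 := by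
    rw [div_le_iff₀ (by positivity)]
    have h1 : K * (C / δ ^ 3) * N = 8 * K * C * (N : ℝ) ^ 4 / (H' : ℝ) ^ 3 := by
      rw [hδ]
      field_simp
      ring
    have h2 : (N : ℝ) ^ 4 ≤ (64 * ℓ ^ B * H') ^ 4 := pow_le_pow_left₀ hN0.le hNH 4
    have h3 : ℓ ^ (4 * B + 1) ≤ Real.log N ^ (4 * B + 1) := pow_le_pow_left₀ hℓ0.le hlN _
    rw [h1, div_le_iff₀ (by positivity)]
    have hKC : 0 ≤ 8 * K * C := by positivity
    calc 8 * K * C * (N : ℝ) ^ 4 ≤ 8 * K * C * (64 * ℓ ^ B * H') ^ 4 :=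
          mul_le_mul_of_nonneg_left h2 hKC
      _ = (E * (ℓ ^ (4 * B))) * (H' : ℝ) ^ 4 / 2 := by
          rw [hE, mul_comm 4 B, pow_mul]
          ring
      _ ≤ (ℓ * ℓ ^ (4 * B)) * (H' : ℝ) ^ 4 / 2 := by
          apply div_le_div_of_nonneg_right _ (by norm_num)
          apply mul_le_mul_of_nonneg_right _ (by positivity)
          exact mul_le_mul_of_nonneg_right hlE (by positivity)
      _ = H' / 2 * ℓ ^ (4 * B + 1) * (H' : ℝ) ^ 3 := by ring
      _ ≤ H' / 2 * Real.log N ^ (4 * B + 1) * (H' : ℝ) ^ 3 := by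
          apply mul_le_mul_of_nonneg_right _ (by positivity)
          exact mul_le_mul_of_nonneg_left h3 (by positivity)
  have hmain : (H' : ℝ) ≤ N * ∫ t, psi t := by
    have h1 : 2 * δ ≤ ∫ t, psi t := by linarith
    calc (H' : ℝ) = N * (2 * δ) := by rw [hδ]; field_simp
      _ ≤ _ := mul_le_mul_of_nonneg_left h1 hN0.le
  have hlow : (H' : ℝ) / 2 ≤ ∑ p ∈ range (2 * N), BV.th p * psi ((p : ℝ) / N) := by
    have := (abs_le.1 hp).1
    linarith
  have hl2N : Real.log (2 * N) ≤ 2 * ℓ := by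
    have h1 : (2 * N : ℝ) ≤ y ^ 2 := by nlinarith
    calc Real.log (2 * N) ≤ Real.log ((y : ℝ) ^ 2) := Real.log_le_log (by positivity) h1
      _ = 2 * ℓ := by rw [Real.log_pow, hℓ]; push_cast; rfl
  set Q : ℝ := (#((Ioc y (y + H)).filter (fun k => (2 * k + 1).Prime)) : ℝ) with hQ
  have hQ0 : 0 ≤ Q := Nat.cast_nonneg _
  have h5 : (H' : ℝ) / 2 ≤ 2 * ℓ * Q :=
    hlow.trans (hcard.trans (mul_le_mul_of_nonneg_right hl2N hQ0))
  rw [div_le_iff₀ (by positivity)]
  have h6 : (H : ℝ) ≤ 32 * H' := by exact_mod_cast hH32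
  have h7 : 128 * ℓ * Q ≤ Q * ℓ ^ 2 := by
    have : 128 * ℓ ≤ ℓ ^ 2 := by nlinarith
    calc 128 * ℓ * Q ≤ ℓ ^ 2 * Q := mul_le_mul_of_nonneg_right this hQ0
      _ = _ := mul_comm _ _
  linarith

end PoolTP
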