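import Mathlib

set_option autoImplicit false

/-!
# Module Stp (size M): one jump of the index shift

For `n ∈ U` let `G n` be the set of the `r < A` for which there is `k` as in the claim. CLAIM: `w * #M ≤ (ℓ / N + 1) * #(G n)`. Consider the pairs `(m, k)`, `m ∈ M`,
`k` in the set of `hw`: there are at least `w * #M` of them; `r = m - (k * n + a) < A` and `k` satisfies the conditions (`y < k * n` because `m > y + a + A` and
`m < k n + a + A`; `k * n + L ≤ m - a + L ≤ y + ℓ`; `k * n + a + r = m ∈ M`); the map `(m, k) ↦ (r, k)` is injective; for given `r` the `k` satisfy `y < k n ≤ y + ℓ`, and there are at most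
`ℓ / n + 1 ≤ ℓ / N + 1` of them (`n > N`). So the number of pairs is at most `(ℓ / N + 1) * #(G n)`.
Sum over `n ∈ U` and exchange: `∑ r < A, #{n ∈ U | r ∈ G n} = ∑ n ∈ U, #(G n) ≥ #U * (w * #M / (ℓ / N + 1))`, so some `r < A` has at least the `A`-th part
(`Finset.exists_le_of_sum_le` or `exists_lt_of_sum_lt`; `range A` is not empty).
-/

namespace PoolTP

open Finset

private theorem stp_cnt (n y ℓ N : ℕ) (hN : 1 ≤ N) (hn : N < n) :
    ((#(Ioc (y / n) ((y + ℓ) / n)) : ℕ) : ℝ) ≤ (ℓ : ℝ) / N + 1 := by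
  have hn0 : (0 : ℝ) < n := by exact_mod_cast (by omega : 0 < n)
  have hN0 : (0 : ℝ) < N := by exact_mod_cast (by omega : 0 < N)
  rw [Nat.card_Ioc, Nat.cast_sub (Nat.div_le_div_right (by omega))]
  have h1 : (((y + ℓ) / n : ℕ) : ℝ) ≤ ((y + ℓ : ℕ) : ℝ) / n := Nat.cast_div_le
  have h2 : (y : ℝ) / n ≤ ((y / n : ℕ) : ℝ) + 1 := by
    rw [div_le_iff₀ hn0]
    have h := (Nat.lt_mul_div_succ y (by omega : 0 < n)).le
    rw [mul_comm] at h
    exact_mod_cast h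
  have h3 : (ℓ : ℝ) / n ≤ (ℓ : ℝ) / N :=
    div_le_div_of_nonneg_left (Nat.cast_nonneg _) hN0 (by exact_mod_cast hn.le)
  have h4 : ((y + ℓ : ℕ) : ℝ) / n = (y : ℝ) / n + (ℓ : ℝ) / n := by push_cast; ring
  linarith

open Classical in
private theorem stp_claim (N y ℓ A a L n : ℕ) (M : Finset ℕ) (K : ℕ → Prop) (w : ℝ) (hN : 1 ≤ N)
    (hn : N < n) (hM : ∀ m ∈ M, y + a + A < m ∧ m + L ≤ y + a + ℓ)
    (hw : ∀ m ∈ M, w ≤ (#((range (m + 1)).filter
      (fun k => K k ∧ m < k * n + a + A ∧ k * n + a ≤ m)) : ℝ)) :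
    w * #M ≤ ((ℓ : ℝ) / N + 1) * #((range A).filter (fun r => ∃ k : ℕ, K k ∧
      y < k * n ∧ k * n + L ≤ y + ℓ ∧ k * n + a + r ∈ M)) := by
  set S : ℕ → Finset ℕ := fun m => (range (m + 1)).filter
    (fun k => K k ∧ m < k * n + a + A ∧ k * n + a ≤ m) with hS
  set G : Finset ℕ := (range A).filter (fun r => ∃ k : ℕ, K k ∧
      y < k * n ∧ k * n + L ≤ y + ℓ ∧ k * n + a + r ∈ M) with hG
  have h1 : w * #M ≤ ((#(M.sigma S) : ℕ) : ℝ) := by
    rw [Finset.card_sigma, Nat.cast_sum]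
    calc w * #M = ∑ m ∈ M, w := by rw [sum_const, nsmul_eq_mul, mul_comm]
      _ ≤ _ := sum_le_sum hw
  have h2 : #(M.sigma S) ≤ #(G ×ˢ Ioc (y / n) ((y + ℓ) / n)) := by
    refine Finset.card_le_card_of_injOn (fun p => (p.1 - (p.2 * n + a), p.2)) ?_ ?_
    · rintro ⟨m, k⟩ hmk
      rw [mem_coe, mem_sigma] at hmk
      obtain ⟨hm, hk⟩ := hmk
      obtain ⟨hk0, hK, hk1, hk2⟩ := mem_filter.1 hk
      simp only at hm hk1 hk2 hK
      obtain ⟨m1, m2⟩ := hM m hm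
      rw [mem_coe, mem_product]
      refine ⟨mem_filter.2 ⟨mem_range.2 ?_, k, hK, ?_, ?_, ?_⟩, mem_Ioc.2 ⟨?_, ?_⟩⟩
      · show m - (k * n + a) < A
        omega
      · omega
      · omega
      · show k * n + a + (m - (k * n + a)) ∈ M
        rw [Nat.add_sub_cancel' hk2]
        exact hm
      · show y / n < k
        rw [Nat.div_lt_iff_lt_mul (by omega)]
        omega
      · show k ≤ (y + ℓ) / n
        rw [Nat.le_div_iff_mul_le (by omega)]
        omega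
    · rintro ⟨m, k⟩ h ⟨m', k'⟩ h' heq
      rw [mem_coe, mem_sigma] at h h'
      have hk := (mem_filter.1 h.2).2.2.2
      have hk' := (mem_filter.1 h'.2).2.2.2
      simp only at hk hk'
      simp only [Prod.mk.injEq] at heq
      obtain ⟨e1, rfl⟩ := heq
      have : m = m' := by omega
      subst this
      rfl
  rw [card_product] at h2
  have h3 := stp_cnt n y ℓ N hN hn
  calc w * #M ≤ ((#(M.sigma S) : ℕ) : ℝ) := h1
    _ ≤ ((#G * #(Ioc (y / n) ((y + ℓ) / n)) : ℕ) : ℝ) := by exact_mod_cast h2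
    _ = (#G : ℝ) * ((#(Ioc (y / n) ((y + ℓ) / n)) : ℕ) : ℝ) := by push_cast; ring
    _ ≤ (#G : ℝ) * ((ℓ : ℝ) / N + 1) := mul_le_mul_of_nonneg_left h3 (Nat.cast_nonneg _)
    _ = _ := mul_comm _ _

open Classical in
theorem step (N y ℓ A a L : ℕ) (U M : Finset ℕ) (K : ℕ → Prop) (w : ℝ) (hN : 1 ≤ N) (hA : 1 ≤ A)
    (hU : U ⊆ Ioc N (2 * N)) (hM : ∀ m ∈ M, y + a + A < m ∧ m + L ≤ y + a + ℓ)
    (hw : ∀ n ∈ U, ∀ m ∈ M, w ≤ (#((range (m + 1)).filter
      (fun k => K k ∧ m < k * n + a + A ∧ k * n + a ≤ m)) : ℝ)) :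
    ∃ r, r < A ∧ w * #M / (A * ((ℓ : ℝ) / N + 1)) * #U ≤ (#(U.filter (fun n => ∃ k : ℕ, K k ∧
      y < k * n ∧ k * n + L ≤ y + ℓ ∧ k * n + a + r ∈ M)) : ℝ) := by
  by_contra hcon
  push Not at hcon
  have hA0 : (0 : ℝ) < A := by exact_mod_cast hA
  have hB0 : (0 : ℝ) < (ℓ : ℝ) / N + 1 := by positivity
  have h1 := Finset.sum_lt_sum_of_nonempty (nonempty_range_iff.2 (by omega : A ≠ 0))
    (fun r hr => hcon r (mem_range.1 hr))
  have h2 : ∑ r ∈ range A, (#(U.filter (fun n => ∃ k : ℕ, K k ∧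
      y < k * n ∧ k * n + L ≤ y + ℓ ∧ k * n + a + r ∈ M)) : ℝ) =
      ∑ n ∈ U, (#((range A).filter (fun r => ∃ k : ℕ, K k ∧
      y < k * n ∧ k * n + L ≤ y + ℓ ∧ k * n + a + r ∈ M)) : ℝ) := by
    simp only [Finset.card_filter, Nat.cast_sum]
    exact sum_comm
  have h3 : ∑ n ∈ U, w * #M / ((ℓ : ℝ) / N + 1) ≤ ∑ n ∈ U, (#((range A).filter (fun r => ∃ k : ℕ,
      K k ∧ y < k * n ∧ k * n + L ≤ y + ℓ ∧ k * n + a + r ∈ M)) : ℝ) := by
    refine sum_le_sum fun n hn => ?_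
    rw [div_le_iff₀ hB0]
    exact (stp_claim N y ℓ A a L n M K w hN (mem_Ioc.1 (hU hn)).1 hM (hw n hn)).trans_eq
      (mul_comm _ _)
  rw [h2, sum_const, card_range, nsmul_eq_mul] at h1
  rw [sum_const, nsmul_eq_mul] at h3
  have h4 : (A : ℝ) * (w * #M / (A * ((ℓ : ℝ) / N + 1)) * #U) =
      #U * (w * #M / ((ℓ : ℝ) / N + 1)) := by
    field_simp
  linarith

end PoolTP
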